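import Mathlib

/-!
# Sums of even functions over a conic (characteristic two coefficients)

The combinatorial heart of the multiplication rule of the Gelfand-Graev algebra of `PSL(2,q)`
in characteristic two: two successive involutions.
-/

open Finset

namespace Cartan76

section Fixed
variable {M : Type*} [AddCommGroup M] (hM : ∀ x : M, x + x = 0)
include hM

/-- In characteristic two a sum over a finset with an involution localises to the fixed points. -/
lemma sum_fixed {ι : Type*} [DecidableEq ι] (s : Finset ι) (g : ι → ι)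
    (hg : ∀ i ∈ s, g i ∈ s) (hgg : ∀ i ∈ s, g (g i) = i) (f : ι → M)
    (hf : ∀ i ∈ s, f (g i) = f i) :
    ∑ i ∈ s, f i = ∑ i ∈ s.filter (fun i => g i = i), f i := by
  rw [← Finset.sum_filter_add_sum_filter_not s (fun i => g i = i) f]
  suffices h : ∑ i ∈ s.filter (fun i => ¬ g i = i), f i = 0 by rw [h, add_zero]
  refine Finset.sum_involution (fun i _ => g i) ?_ ?_ ?_ ?_
  · intro i hi
    rw [Finset.mem_filter] at hi
    rw [hf i hi.1]
    exact hM _
  · intro i hi _
    rw [Finset.mem_filter] at hi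
    exact hi.2
  · intro i hi
    rw [Finset.mem_filter] at hi ⊢
    refine ⟨hg i hi.1, ?_⟩
    rw [hgg i hi.1]
    exact fun h => hi.2 h.symm
  · intro i hi
    rw [Finset.mem_filter] at hi
    exact hgg i hi.1

lemma eq_of_add_zero {x y : M} (h : x + y = 0) : x = y := by
  have h1 := hM y
  have : x + y = y + y := by rw [h, h1]
  exact add_right_cancel this

end Fixed

section Sum
variable {F : Type*} [Field F] [Fintype F] [DecidableEq F]
variable {M : Type*} [AddCommGroup M]

lemma sum_units (f : F → M) : ∑ x : F, f x = f 0 + ∑ x : Fˣ, f (x : F) := by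
  classical
  rw [← Finset.add_sum_erase Finset.univ f (Finset.mem_univ 0)]
  congr 1
  refine Finset.sum_bij' (fun x hx => Units.mk0 x (Finset.ne_of_mem_erase hx)) (fun x _ => (x : F))
    ?_ ?_ ?_ ?_ ?_
  · intro x hx; simp
  · intro x hx; simp
  · intro x hx; simp
  · intro x hx; simp
  · intro x hx; simp

variable (hM : ∀ x : M, x + x = 0) (f : F → M) (hf : ∀ x, f (-x) = f x) (h0 : f 0 = 0)
  (h2 : (2 : F) ≠ 0)
include hM hf h0 h2

lemma sum_even_zero : ∑ x : F, f x = 0 := by
  rw [sum_fixed hM Finset.univ (fun x => -x) (by simp) (by simp) f (fun i _ => hf i)]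
  have : (Finset.univ.filter fun x : F => -x = x) = {0} := by
    ext x
    simp only [Finset.mem_filter, Finset.mem_univ, true_and, Finset.mem_singleton]
    constructor
    · intro h
      have h3 : 2 * x = 0 := by linear_combination -h
      exact (mul_eq_zero.1 h3).resolve_left h2
    · rintro rfl; simp
  rw [this, Finset.sum_singleton, h0]

/-- completing the sum over the units -/
lemma sum_units_even (c d : F) (hd : d ≠ 0) : ∑ w : Fˣ, f (c - d * (w : F)⁻¹) = f c := by
  have h1 : ∑ w : F, f (c - d * w) = 0 := by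
    rw [← sum_even_zero hM f hf h0 h2]
    refine Fintype.sum_equiv ((Equiv.mulLeft₀ d hd).trans (Equiv.subLeft c)) _ _ fun x => ?_
    simp
  rw [sum_units] at h1
  have h3 : ∑ w : Fˣ, f (c - d * (w : F)⁻¹) = ∑ w : Fˣ, f (c - d * (w : F)) := by
    refine Fintype.sum_equiv (Equiv.inv Fˣ) _ _ fun x => ?_
    simp
  rw [h3]
  have h4 := eq_of_add_zero hM h1
  rw [← h4]
  simp

/-- Step one: the inner sum over `X` becomes a sum over the conic. -/
lemma inner_sum (τ σ ε ε' : F) (hε' : ε' * ε' = 1) (Y : Fˣ) :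
    ∑ X : Fˣ, f (τ * X + σ * Y - X * Y - ε * X * (Y : F)⁻¹ - ε' * Y * (X : F)⁻¹) =
    ∑ Z ∈ Finset.univ.filter (fun Z : F => Z ^ 2 = ε' * ((Y : F) ^ 2 - τ * Y + ε)),
      f (σ * Y - 2 * Z) := by
  classical
  have hY : (Y : F) ≠ 0 := Y.ne_zero
  have hε0 : ε' ≠ 0 := by rintro rfl; simp at hε'
  set A : F := (Y : F) ^ 2 - τ * Y + ε with hA
  by_cases hA0 : A = 0
  · have e1 : ∀ X : Fˣ, τ * X + σ * Y - X * Y - ε * X * (Y : F)⁻¹ - ε' * Y * (X : F)⁻¹ =
        σ * Y - (ε' * Y) * (X : F)⁻¹ := by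
      intro X
      have : τ * X - X * Y - ε * X * (Y : F)⁻¹ = -(X : F) * (Y : F)⁻¹ * A := by
        rw [hA]; field_simp; ring
      rw [hA0, mul_zero] at this
      linear_combination this
    simp only [e1]
    rw [sum_units_even hM f hf h0 h2 (σ * Y) (ε' * Y) (mul_ne_zero hε0 hY)]
    have e2 : (Finset.univ.filter (fun Z : F => Z ^ 2 = ε' * A)) = {0} := by
      ext Z
      simp [hA0]
    rw [e2, Finset.sum_singleton]
    simp
  · have hgne : ∀ X : Fˣ, ε' * (Y : F) ^ 2 * A⁻¹ * (X : F)⁻¹ ≠ 0 := fun X =>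
      mul_ne_zero (mul_ne_zero (mul_ne_zero hε0 (pow_ne_zero 2 hY)) (inv_ne_zero hA0))
        (inv_ne_zero X.ne_zero)
    let g : Fˣ → Fˣ := fun X => Units.mk0 (ε' * (Y : F) ^ 2 * A⁻¹ * (X : F)⁻¹) (hgne X)
    have hgval : ∀ X : Fˣ, (g X : F) = ε' * (Y : F) ^ 2 * A⁻¹ * (X : F)⁻¹ := fun X => rfl
    have hc : ∀ X : F, τ * X - X * Y - ε * X * (Y : F)⁻¹ = -(X : F) * (Y : F)⁻¹ * A := by
      intro X
      rw [hA]; field_simp; ring
    rw [sum_fixed hM Finset.univ g (by simp) ?_ _ ?_]
    · refine Finset.sum_bij' (fun X _ => ε' * (Y : F) * (X : F)⁻¹)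
        (fun Z hZ => Units.mk0 (ε' * (Y : F) * Z⁻¹) ?_) ?_ ?_ ?_ ?_ ?_
      · have hZ' : Z ^ 2 = ε' * A := (Finset.mem_filter.1 hZ).2
        have hZ0 : Z ≠ 0 := by
          rintro rfl
          have : ε' * A = 0 := by rw [← hZ']; simp
          exact (mul_ne_zero hε0 hA0) this
        exact mul_ne_zero (mul_ne_zero hε0 hY) (inv_ne_zero hZ0)
      · intro X hX
        have hX' : g X = X := (Finset.mem_filter.1 hX).2
        have hX2 : ε' * (Y : F) ^ 2 * A⁻¹ * (X : F)⁻¹ = X := by
          rw [← hgval X, hX']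
        have hX0 := X.ne_zero
        have h3 : ε' * (Y : F) ^ 2 = A * (X : F) ^ 2 := by
          field_simp at hX2
          linear_combination hX2
        simp only [Finset.mem_filter, Finset.mem_univ, true_and]
        have h9 : (ε' * (Y : F) * (X : F)⁻¹) ^ 2 = ε' * (ε' * (Y : F) ^ 2) * ((X : F)⁻¹) ^ 2 := by
          ring
        rw [h9, h3]
        field_simp
      · intro Z hZ
        have hZ' : Z ^ 2 = ε' * A := (Finset.mem_filter.1 hZ).2
        have hZ0 : Z ≠ 0 := by
          rintro rfl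
          have : ε' * A = 0 := by rw [← hZ']; simp
          exact (mul_ne_zero hε0 hA0) this
        simp only [Finset.mem_filter, Finset.mem_univ, true_and]
        apply Units.ext
        rw [hgval]
        simp only [Units.val_mk0]
        field_simp
        linear_combination hZ'
      · intro X hX
        have hX0 := X.ne_zero
        apply Units.ext
        simp only [Units.val_mk0]
        field_simp
      · intro Z hZ
        have hZ' : Z ^ 2 = ε' * A := (Finset.mem_filter.1 hZ).2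
        have hZ0 : Z ≠ 0 := by
          rintro rfl
          have : ε' * A = 0 := by rw [← hZ']; simp
          exact (mul_ne_zero hε0 hA0) this
        simp only [Units.val_mk0]
        field_simp
      · intro X hX
        have hX' : g X = X := (Finset.mem_filter.1 hX).2
        have hX2 : ε' * (Y : F) ^ 2 * A⁻¹ * (X : F)⁻¹ = X := by
          rw [← hgval X, hX']
        have hX0 := X.ne_zero
        congr 1
        have h5 := hc X
        have h6 : (X : F) * (Y : F)⁻¹ * A = ε' * Y * (X : F)⁻¹ := by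
          rw [← hX2]
          nth_rewrite 2 [hX2]
          field_simp
        linear_combination h5 - h6
    · intro X _
      apply Units.ext
      rw [hgval, hgval]
      have hX0 := X.ne_zero
      field_simp
    · intro X _
      congr 1
      rw [hgval]
      have hX0 := X.ne_zero
      have h5 := hc X
      have h6 := hc (ε' * (Y : F) ^ 2 * A⁻¹ * (X : F)⁻¹)
      have h7 : -(ε' * (Y : F) ^ 2 * A⁻¹ * (X : F)⁻¹) * (Y : F)⁻¹ * A = - (ε' * Y * (X : F)⁻¹) := by
        field_simp
      have h8 : ε' * (Y : F) * (ε' * (Y : F) ^ 2 * A⁻¹ * (X : F)⁻¹)⁻¹ = X * (Y : F)⁻¹ * A := by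
        field_simp
      rw [h8]
      linear_combination h6 + h7 - h5

/-- Sum over the whole conic, including `Y = 0`. -/
lemma conic_sum (τ σ ε ε' : F) (hε' : ε' * ε' = 1) :
    ∑ X : Fˣ, ∑ Y : Fˣ, f (τ * X + σ * Y - X * Y - ε * X * (Y : F)⁻¹ - ε' * Y * (X : F)⁻¹) =
    ∑ q ∈ Finset.univ.filter (fun q : F × F => q.2 ^ 2 = ε' * (q.1 ^ 2 - τ * q.1 + ε)),
      f (σ * q.1 - 2 * q.2) := by
  classical
  rw [Finset.sum_comm]
  have e1 : ∑ Y : Fˣ, ∑ X : Fˣ, f (τ * X + σ * Y - X * Y - ε * X * (Y : F)⁻¹ - ε' * Y * (X : F)⁻¹)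
      = ∑ Y : Fˣ, ∑ Z ∈ Finset.univ.filter (fun Z : F => Z ^ 2 = ε' * ((Y : F) ^ 2 - τ * Y + ε)),
      f (σ * Y - 2 * Z) :=
    Finset.sum_congr rfl fun Y _ => inner_sum hM f hf h0 h2 τ σ ε ε' hε' Y
  rw [e1]
  have e2 := sum_units (fun Y : F => ∑ Z ∈ Finset.univ.filter (fun Z : F => Z ^ 2 = ε' * (Y ^ 2 - τ * Y + ε)),
      f (σ * Y - 2 * Z))
  have e3 : ∑ Z ∈ Finset.univ.filter (fun Z : F => Z ^ 2 = ε' * ((0 : F) ^ 2 - τ * 0 + ε)),
      f (σ * 0 - 2 * Z) = 0 := by
    rw [sum_fixed hM _ (fun Z => -Z) ?_ (by simp) _ ?_]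
    · rw [Finset.sum_eq_zero]
      intro Z hZ
      simp only [Finset.mem_filter, Finset.mem_univ, true_and] at hZ
      have hZ0 : Z = 0 := by
        have h3 : 2 * Z = 0 := by linear_combination -hZ.2
        exact (mul_eq_zero.1 h3).resolve_left h2
      subst hZ0
      simp [h0]
    · intro Z hZ
      simp only [Finset.mem_filter, Finset.mem_univ, true_and] at hZ ⊢
      rw [neg_sq]; exact hZ
    · intro Z hZ
      rw [← hf]
      congr 1
      ring
  have e4 : ∑ Y : Fˣ, ∑ Z ∈ Finset.univ.filter (fun Z : F => Z ^ 2 = ε' * ((Y : F) ^ 2 - τ * Y + ε)),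
      f (σ * Y - 2 * Z) = ∑ Y : F, ∑ Z ∈ Finset.univ.filter (fun Z : F => Z ^ 2 = ε' * (Y ^ 2 - τ * Y + ε)),
      f (σ * Y - 2 * Z) := by
    rw [e2, e3, zero_add]
  rw [e4]
  simp only [Finset.sum_filter]
  rw [Fintype.sum_prod_type]

/-- The conic sum localises to the fixed points of the second involution. -/
lemma conic_sum_fixed (τ σ ε ε' : F) (hε' : ε' * ε' = 1) (hδ : σ ^ 2 - 4 * ε' ≠ 0) :
    ∑ q ∈ Finset.univ.filter (fun q : F × F => q.2 ^ 2 = ε' * (q.1 ^ 2 - τ * q.1 + ε)),
      f (σ * q.1 - 2 * q.2) =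
    ∑ Z ∈ Finset.univ.filter (fun Z : F => (σ ^ 2 - 4 * ε') * Z ^ 2 = τ ^ 2 - 4 * ε),
      f ((σ * τ + (σ ^ 2 - 4 * ε') * Z) * 2⁻¹) := by
  classical
  set δ := σ ^ 2 - 4 * ε' with hδd
  have h4 : (4 : F) ≠ 0 := by
    have : (4 : F) = 2 * 2 := by norm_num
    rw [this]; exact mul_ne_zero h2 h2
  let g : F × F → F × F := fun q =>
    (-q.1 + (2 * σ * (σ * q.1 - 2 * q.2) - 4 * ε' * τ) * δ⁻¹,
      (σ * (-q.1 + (2 * σ * (σ * q.1 - 2 * q.2) - 4 * ε' * τ) * δ⁻¹) - (σ * q.1 - 2 * q.2)) * 2⁻¹)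
  have hρ : ∀ q, σ * (g q).1 - 2 * (g q).2 = σ * q.1 - 2 * q.2 := by
    intro q
    simp only [g]
    field_simp
    ring
  have hmem : ∀ q : F × F, q.2 ^ 2 = ε' * (q.1 ^ 2 - τ * q.1 + ε) ↔
      δ * q.1 ^ 2 + (4 * ε' * τ - 2 * σ * (σ * q.1 - 2 * q.2)) * q.1 + (σ * q.1 - 2 * q.2) ^ 2
        - 4 * ε * ε' = 0 := by
    intro q
    rw [hδd]
    constructor
    · intro h
      linear_combination 4 * h
    · intro h
      have : 4 * (q.2 ^ 2 - ε' * (q.1 ^ 2 - τ * q.1 + ε)) = 0 := by linear_combination h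
      have h5 := (mul_eq_zero.1 this).resolve_left h4
      linear_combination h5
  have hsum : ∀ q : F × F, δ * ((g q).1 + q.1) = 2 * σ * (σ * q.1 - 2 * q.2) - 4 * ε' * τ := by
    intro q
    simp only [g]
    field_simp
    ring
  rw [sum_fixed hM _ g ?_ ?_ _ ?_]
  · refine Finset.sum_bij' (fun q _ => ε' * q.2) (fun Z _ => ((τ + σ * Z) * 2⁻¹, ε' * Z)) ?_ ?_ ?_ ?_ ?_
    · rintro ⟨y, z⟩ hq
      simp only [Finset.mem_filter, Finset.mem_univ, true_and] at hq ⊢
      obtain ⟨hq1, hq2⟩ := hq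
      have h5 := hsum (y, z)
      rw [hq2] at h5
      simp only at h5
      -- δ * (2 y) = 2σρ - 4 ε' τ
      have h6 : 2 * ε' * y = σ * z + ε' * τ := by
        have : 4 * (2 * ε' * y - (σ * z + ε' * τ)) = 0 := by
          rw [hδd] at h5
          linear_combination -h5
        have := (mul_eq_zero.1 this).resolve_left h4
        linear_combination this
      have h7 : 2 * y = ε' * σ * z + τ := by
        linear_combination ε' * h6 - (2 * y - τ) * hε'
      have h8 : 4 * z ^ 2 = ε' * ((2 * y) ^ 2 - 2 * τ * (2 * y) + 4 * ε) := by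
        linear_combination 4 * hq1
      rw [h7] at h8
      have h9 : 4 * z ^ 2 = ε' * ((ε' * ε') * (σ ^ 2 * z ^ 2) - τ ^ 2 + 4 * ε) := by
        linear_combination h8
      rw [hε', one_mul] at h9
      have h10 : 4 * ε' * z ^ 2 = σ ^ 2 * z ^ 2 - τ ^ 2 + 4 * ε := by
        linear_combination ε' * h9 + (σ ^ 2 * z ^ 2 - τ ^ 2 + 4 * ε) * hε'
      have h11 : (ε' * z) ^ 2 = z ^ 2 := by linear_combination z ^ 2 * hε'
      rw [h11, hδd]
      linear_combination -h10
    · intro Z hZ
      simp only [Finset.mem_filter, Finset.mem_univ, true_and] at hZ ⊢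
      have hm : (ε' * Z) ^ 2 = ε' * (((τ + σ * Z) * 2⁻¹) ^ 2 - τ * ((τ + σ * Z) * 2⁻¹) + ε) := by
        have h11 : (ε' * Z) ^ 2 = Z ^ 2 := by linear_combination Z ^ 2 * hε'
        rw [h11]
        have h12 : 4 * Z ^ 2 = ε' * (σ ^ 2 * Z ^ 2 - τ ^ 2 + 4 * ε) := by
          rw [hδd] at hZ
          linear_combination (-ε') * hZ - 4 * Z ^ 2 * hε'
        field_simp
        linear_combination h12
      refine ⟨hm, ?_⟩
      have hfst : (g ((τ + σ * Z) * 2⁻¹, ε' * Z)).1 = (τ + σ * Z) * 2⁻¹ := by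
        have h5 := hsum ((τ + σ * Z) * 2⁻¹, ε' * Z)
        have h6 : δ * ((g ((τ + σ * Z) * 2⁻¹, ε' * Z)).1 - (τ + σ * Z) * 2⁻¹) = 0 := by
          have h7 : δ * ((g ((τ + σ * Z) * 2⁻¹, ε' * Z)).1 - (τ + σ * Z) * 2⁻¹) =
            δ * ((g ((τ + σ * Z) * 2⁻¹, ε' * Z)).1 + (τ + σ * Z) * 2⁻¹) - δ * (τ + σ * Z) := by
            field_simp
            ring
          rw [h7, h5, hδd]
          simp only
          field_simp
          ring
        have h8 := (mul_eq_zero.1 h6).resolve_left hδ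
        linear_combination h8
      have hsnd : (g ((τ + σ * Z) * 2⁻¹, ε' * Z)).2 = ε' * Z := by
        have h9 := hρ ((τ + σ * Z) * 2⁻¹, ε' * Z)
        rw [hfst] at h9
        simp only at h9
        have h10 : 2 * ((g ((τ + σ * Z) * 2⁻¹, ε' * Z)).2 - ε' * Z) = 0 := by
          linear_combination -h9
        have h11 := (mul_eq_zero.1 h10).resolve_left h2
        linear_combination h11
      exact Prod.ext hfst hsnd
    · rintro ⟨y, z⟩ hq
      simp only [Finset.mem_filter, Finset.mem_univ, true_and] at hq ⊢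
      obtain ⟨hq1, hq2⟩ := hq
      have h5 := hsum (y, z)
      rw [hq2] at h5
      simp only at h5
      have h6 : 2 * ε' * y = σ * z + ε' * τ := by
        have : 4 * (2 * ε' * y - (σ * z + ε' * τ)) = 0 := by
          rw [hδd] at h5
          linear_combination -h5
        have := (mul_eq_zero.1 this).resolve_left h4
        linear_combination this
      have h7 : 2 * y = ε' * σ * z + τ := by
        linear_combination ε' * h6 - (2 * y - τ) * hε'
      ext
      · simp only
        field_simp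
        linear_combination -h7
      · simp only
        linear_combination z * hε'
    · intro Z hZ
      linear_combination Z * hε'
    · rintro ⟨y, z⟩ hq
      simp only [Finset.mem_filter, Finset.mem_univ, true_and] at hq ⊢
      obtain ⟨hq1, hq2⟩ := hq
      have h5 := hsum (y, z)
      rw [hq2] at h5
      simp only at h5
      have h6 : 2 * ε' * y = σ * z + ε' * τ := by
        have : 4 * (2 * ε' * y - (σ * z + ε' * τ)) = 0 := by
          rw [hδd] at h5
          linear_combination -h5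
        have := (mul_eq_zero.1 this).resolve_left h4
        linear_combination this
      have h7 : 2 * y = ε' * σ * z + τ := by
        linear_combination ε' * h6 - (2 * y - τ) * hε'
      congr 1
      rw [hδd]
      field_simp
      linear_combination σ * h7 + 4 * z * hε'
  · intro q hq
    simp only [Finset.mem_filter, Finset.mem_univ, true_and] at hq ⊢
    rw [hmem] at hq ⊢
    rw [hρ]
    have h5 := hsum q
    linear_combination hq + ((g q).1 - q.1) * h5
  · intro q hq
    have h5 := hsum q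
    have h6 := hsum (g q)
    rw [hρ] at h6
    have h7 : δ * ((g (g q)).1 - q.1) = 0 := by linear_combination h6 - h5
    have h8 := (mul_eq_zero.1 h7).resolve_left hδ
    have h9 : (g (g q)).1 = q.1 := by linear_combination h8
    have h10 := (hρ (g q)).trans (hρ q)
    rw [h9] at h10
    have h11 : 2 * ((g (g q)).2 - q.2) = 0 := by linear_combination -h10
    have h12 := (mul_eq_zero.1 h11).resolve_left h2
    exact Prod.ext h9 (by linear_combination h12)
  · intro q hq
    rw [hρ]

/-- The degenerate case `τ = σ = 2`, `ε = ε' = 1`. -/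
lemma conic_sum_two :
    ∑ q ∈ Finset.univ.filter (fun q : F × F => q.2 ^ 2 = 1 * (q.1 ^ 2 - 2 * q.1 + 1)),
      f (2 * q.1 - 2 * q.2) = 0 := by
  classical
  have h4 : (4 : F) ≠ 0 := by
    have : (4 : F) = 2 * 2 := by norm_num
    rw [this]; exact mul_ne_zero h2 h2
  rw [Finset.sum_filter, Fintype.sum_prod_type]
  have e1 : ∑ Y : F, ∑ Z : F, (if Z ^ 2 = 1 * (Y ^ 2 - 2 * Y + 1) then f (2 * Y - 2 * Z) else 0) =
      ∑ W : F, ∑ Z : F, (if Z ^ 2 = W ^ 2 then f (2 * (W + 1) - 2 * Z) else 0) := by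
    refine Fintype.sum_equiv (Equiv.subRight (1 : F)) _ _ fun Y => ?_
    refine Finset.sum_congr rfl fun Z _ => ?_
    simp only [Equiv.subRight_apply]
    have : (1 : F) * (Y ^ 2 - 2 * Y + 1) = (Y - 1) ^ 2 := by ring
    rw [this]
    congr 2
    ring
  have e1' : ∑ x : F, ∑ y : F, (if (x, y).2 ^ 2 = 1 * ((x, y).1 ^ 2 - 2 * (x, y).1 + 1) then
      f (2 * (x, y).1 - 2 * (x, y).2) else 0) =
      ∑ Y : F, ∑ Z : F, (if Z ^ 2 = 1 * (Y ^ 2 - 2 * Y + 1) then f (2 * Y - 2 * Z) else 0) := rfl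
  rw [e1', e1, sum_units]
  have e2 : ∑ Z : F, (if Z ^ 2 = (0 : F) ^ 2 then f (2 * (0 + 1) - 2 * Z) else 0) = f 2 := by
    rw [Finset.sum_eq_single 0]
    · simp
    · intro Z _ hZ
      rw [if_neg]
      simpa using hZ
    · simp
  have e3 : ∀ W : Fˣ, ∑ Z : F, (if Z ^ 2 = (W : F) ^ 2 then f (2 * ((W : F) + 1) - 2 * Z) else 0) =
      f 2 + f (2 + 4 * (W : F)) := by
    intro W
    have hW := W.ne_zero
    rw [← Finset.sum_filter]
    have : (Finset.univ.filter fun Z : F => Z ^ 2 = (W : F) ^ 2) = {(W : F), -(W : F)} := by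
      ext Z
      simp only [Finset.mem_filter, Finset.mem_univ, true_and, Finset.mem_insert,
        Finset.mem_singleton]
      exact sq_eq_sq_iff_eq_or_eq_neg
    rw [this, Finset.sum_pair]
    · congr 2 <;> ring
    · intro h
      have : 2 * (W : F) = 0 := by linear_combination h
      exact (mul_ne_zero h2 hW) this
  rw [e2]
  simp only [e3]
  rw [Finset.sum_add_distrib]
  have e4 : ∑ _W : Fˣ, f 2 = 0 := by
    rw [sum_fixed hM Finset.univ (fun W : Fˣ => -W) (by simp) (by simp) _ (by simp)]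
    rw [Finset.sum_eq_zero]
    intro W hW
    exfalso
    simp only [Finset.mem_filter, Finset.mem_univ, true_and] at hW
    have h3 : (-(W : F)) = W := by
      have := congrArg (fun u : Fˣ => (u : F)) hW
      simpa using this
    have h5 : 2 * (W : F) = 0 := by linear_combination -h3
    exact (mul_ne_zero h2 W.ne_zero) h5
  have e5 : ∑ W : Fˣ, f (2 + 4 * (W : F)) = f 2 := by
    have h1 : ∑ w : F, f (2 + 4 * w) = 0 := by
      rw [← sum_even_zero hM f hf h0 h2]
      refine Fintype.sum_equiv ((Equiv.mulLeft₀ (4 : F) h4).trans (Equiv.addLeft 2)) _ _ fun x => ?_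
      simp
    rw [sum_units] at h1
    have h4 := eq_of_add_zero hM h1
    rw [← h4]
    simp
  rw [e4, e5, zero_add]
  exact hM _

end Sum

end Cartan76
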