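import Mathlib
import Pool.Agent.Cartan76.Comb

/-!
# Basic relations in `k[PSL(2,q)]`, characteristic two

Elements of `SL(2,q)`, Bruhat decomposition, the idempotents `e α` of the unipotent group.
-/

set_option linter.unusedSectionVars false
set_option linter.unusedSimpArgs false

open Matrix Finset

namespace Cartan76

section SL
variable {F : Type*} [Field F]

/-- `SL(2,F)` -/
abbrev SLF (F : Type*) [Field F] := Matrix.SpecialLinearGroup (Fin 2) F

/-- unipotent elements -/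
def u (x : F) : SLF F := ⟨!![1, x; 0, 1], by simp [Matrix.det_fin_two]⟩

/-- diagonal elements -/
def t (a : Fˣ) : SLF F := ⟨!![(a : F), 0; 0, (a : F)⁻¹], by simp [Matrix.det_fin_two]⟩

/-- Weyl type elements -/
def n (c : Fˣ) : SLF F := ⟨!![0, -(c : F)⁻¹; (c : F), 0], by simp [Matrix.det_fin_two]⟩

lemma SL_ext {g h : SLF F} (h00 : g.1 0 0 = h.1 0 0) (h01 : g.1 0 1 = h.1 0 1)
    (h10 : g.1 1 0 = h.1 1 0) (h11 : g.1 1 1 = h.1 1 1) : g = h := by
  apply Subtype.ext
  ext i j
  fin_cases i <;> fin_cases j <;> assumption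

lemma mul00 (g h : SLF F) : (g * h).1 0 0 = g.1 0 0 * h.1 0 0 + g.1 0 1 * h.1 1 0 := by
  rw [Matrix.SpecialLinearGroup.coe_mul, Matrix.mul_apply, Fin.sum_univ_two]
lemma mul01 (g h : SLF F) : (g * h).1 0 1 = g.1 0 0 * h.1 0 1 + g.1 0 1 * h.1 1 1 := by
  rw [Matrix.SpecialLinearGroup.coe_mul, Matrix.mul_apply, Fin.sum_univ_two]
lemma mul10 (g h : SLF F) : (g * h).1 1 0 = g.1 1 0 * h.1 0 0 + g.1 1 1 * h.1 1 0 := by
  rw [Matrix.SpecialLinearGroup.coe_mul, Matrix.mul_apply, Fin.sum_univ_two]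
lemma mul11 (g h : SLF F) : (g * h).1 1 1 = g.1 1 0 * h.1 0 1 + g.1 1 1 * h.1 1 1 := by
  rw [Matrix.SpecialLinearGroup.coe_mul, Matrix.mul_apply, Fin.sum_univ_two]
lemma one00 : (1 : SLF F).1 0 0 = 1 := rfl
lemma one01 : (1 : SLF F).1 0 1 = 0 := rfl
lemma one10 : (1 : SLF F).1 1 0 = 0 := rfl
lemma one11 : (1 : SLF F).1 1 1 = 1 := rfl
lemma u00 (x : F) : (u x).1 0 0 = 1 := rfl
lemma u01 (x : F) : (u x).1 0 1 = x := rfl
lemma u10 (x : F) : (u x).1 1 0 = 0 := rfl
lemma u11 (x : F) : (u x).1 1 1 = 1 := rfl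
lemma t00 (x : Fˣ) : (t x).1 0 0 = x := rfl
lemma t01 (x : Fˣ) : (t x).1 0 1 = 0 := rfl
lemma t10 (x : Fˣ) : (t x).1 1 0 = 0 := rfl
lemma t11 (x : Fˣ) : (t x).1 1 1 = (x : F)⁻¹ := rfl
lemma n00 (x : Fˣ) : (n x).1 0 0 = 0 := rfl
lemma n01 (x : Fˣ) : (n x).1 0 1 = -(x : F)⁻¹ := rfl
lemma n10 (x : Fˣ) : (n x).1 1 0 = x := rfl
lemma n11 (x : Fˣ) : (n x).1 1 1 = 0 := rfl

lemma u_mul_u (x y : F) : u x * u y = u (x + y) := by
  apply SL_ext <;> simp only [mul00, mul01, mul10, mul11, u00, u01, u10, u11] <;> ring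

lemma u_zero : u (0 : F) = 1 := by
  apply SL_ext <;> simp only [u00, u01, u10, u11, one00, one01, one10, one11]

lemma t_mul_t (a b : Fˣ) : t a * t b = t (a * b) := by
  apply SL_ext <;> simp only [mul00, mul01, mul10, mul11, t00, t01, t10, t11, Units.val_mul,
    mul_inv] <;> ring

lemma t_one : t (1 : Fˣ) = 1 := by
  apply SL_ext <;> simp [t00, t01, t10, t11, one00, one01, one10, one11]

lemma t_mul_u (a : Fˣ) (x : F) : t a * u x = u ((a : F) ^ 2 * x) * t a := by
  have := a.ne_zero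
  apply SL_ext <;> simp only [mul00, mul01, mul10, mul11, t00, t01, t10, t11, u00, u01, u10,
    u11] <;> field_simp <;> ring

lemma t_mul_n (a c : Fˣ) : t a * n c = n (c * a⁻¹) := by
  have := a.ne_zero
  have := c.ne_zero
  apply SL_ext <;> simp only [mul00, mul01, mul10, mul11, t00, t01, t10, t11, n00, n01, n10,
    n11, Units.val_mul, Units.val_inv_eq_inv_val] <;> field_simp <;> ring

lemma n_mul_t (a c : Fˣ) : n c * t a = n (c * a) := by
  have := a.ne_zero
  have := c.ne_zero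
  apply SL_ext <;> simp only [mul00, mul01, mul10, mul11, t00, t01, t10, t11, n00, n01, n10,
    n11, Units.val_mul, Units.val_inv_eq_inv_val] <;> field_simp <;> ring

lemma mat_ext {g h : Matrix (Fin 2) (Fin 2) F} (h00 : g 0 0 = h 0 0) (h01 : g 0 1 = h 0 1)
    (h10 : g 1 0 = h 1 0) (h11 : g 1 1 = h 1 1) : g = h := by
  ext i j
  fin_cases i <;> fin_cases j <;> assumption

/-- `n a * n b = - t (b / a)` -/
lemma n_mul_n (a b : Fˣ) : (n a * n b).1 = -(t (b * a⁻¹)).1 := by
  have := a.ne_zero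
  have := b.ne_zero
  apply mat_ext <;> simp only [mul00, mul01, mul10, mul11, Matrix.neg_apply, t00, t01, t10, t11,
    n00, n01, n10, n11, Units.val_mul, Units.val_inv_eq_inv_val] <;> field_simp <;> ring

lemma n_neg (c : Fˣ) : (n (-c)).1 = -(n c).1 := by
  have := c.ne_zero
  apply mat_ext <;> simp [Matrix.neg_apply, n00, n01, n10, n11, Units.val_neg, inv_neg]

lemma t_neg (c : Fˣ) : (t (-c)).1 = -(t c).1 := by
  have := c.ne_zero
  apply mat_ext <;> simp [Matrix.neg_apply, t00, t01, t10, t11, Units.val_neg, inv_neg]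

lemma n_u_n (a b x : Fˣ) :
    n a * u (x : F) * n b =
      u (-((a : F) ^ 2 * x)⁻¹) * n (a * b * x) * u (-((b : F) ^ 2 * x)⁻¹) := by
  have := a.ne_zero
  have := b.ne_zero
  have := x.ne_zero
  apply SL_ext <;> simp only [mul00, mul01, mul10, mul11, n00, n01, n10, n11, u00, u01, u10,
    u11, Units.val_mul] <;> field_simp <;> ring

/-- Bruhat decomposition -/
lemma bruhat (g : SLF F) :
    (∃ (a : Fˣ) (x : F), g = t a * u x) ∨
    (∃ (c : Fˣ) (x y : F), g = u x * n c * u y) := by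
  have hdet : g.1 0 0 * g.1 1 1 - g.1 0 1 * g.1 1 0 = 1 := by
    have := g.2
    rwa [Matrix.det_fin_two] at this
  by_cases h : g.1 1 0 = 0
  · left
    rw [h, mul_zero, sub_zero] at hdet
    have h0 : g.1 0 0 ≠ 0 := by
      rintro h'
      rw [h', zero_mul] at hdet
      exact zero_ne_one hdet
    refine ⟨Units.mk0 (g.1 0 0) h0, (g.1 0 0)⁻¹ * g.1 0 1, ?_⟩
    apply SL_ext <;> simp only [mul00, mul01, mul10, mul11, t00, t01, t10, t11, u00, u01, u10,
      u11, Units.val_mk0, h]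
    · ring
    · field_simp
      ring
    · ring
    · field_simp
      linear_combination hdet
  · right
    refine ⟨Units.mk0 (g.1 1 0) h, g.1 0 0 / g.1 1 0, g.1 1 1 / g.1 1 0, ?_⟩
    apply SL_ext <;> simp only [mul00, mul01, mul10, mul11, n00, n01, n10, n11, u00, u01, u10,
      u11, Units.val_mk0]
    · field_simp
      ring
    · field_simp
      linear_combination (-1 : F) * hdet
    · ring
    · field_simp
      ring

end SL

/-- The standing data: `G` is a quotient of `SL(2,F)` by `±1` and `F` has `8 c - 1` elements,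
`c` odd, `ψ` is a nontrivial additive character with values in `k`. -/
structure Setup (F k G : Type*) [Field F] [Fintype F] [DecidableEq F] [Field k] [Group G] where
  toHom : SLF F →* G
  surj : Function.Surjective toHom
  ker : ∀ g h : SLF F, toHom g = toHom h ↔ (g.1 = h.1 ∨ g.1 = -h.1)
  ψ : AddChar F k
  hψ : ψ ≠ 1
  c : ℕ
  hc : c % 2 = 1
  hq : Fintype.card F + 1 = 8 * c

namespace Setup
variable {F k G : Type*} [Field F] [Fintype F] [DecidableEq F] [Field k] [CharP k 2] [Group G]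
variable (S : Setup F k G)

include S in
lemma hsq : ¬ IsSquare (-1 : F) := by
  rw [FiniteField.isSquare_neg_one_iff]
  have := S.hq
  omega

include S in
lemma two_ne : (2 : F) ≠ 0 := by
  intro h
  have h1 : ringChar F = 2 := by
    refine (Nat.prime_dvd_prime_iff_eq ?_ Nat.prime_two).1 ?_
    · exact (CharP.char_is_prime F (ringChar F))
    · exact (ringChar.dvd (by exact_mod_cast h))
  have h2 := FiniteField.even_card_of_char_two h1
  have := S.hq
  omega

omit [DecidableEq F] in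
lemma cast_odd {m : ℕ} (hm : m % 2 = 1) : (m : k) = 1 := by
  obtain ⟨r, hr⟩ : ∃ r, m = 2 * r + 1 := ⟨m / 2, by omega⟩
  rw [hr]
  push_cast
  rw [CharTwo.two_eq_zero, zero_mul, zero_add]

lemma cast_even {m : ℕ} (hm : m % 2 = 0) : (m : k) = 0 := by
  obtain ⟨r, hr⟩ : ∃ r, m = 2 * r := ⟨m / 2, by omega⟩
  rw [hr]
  push_cast
  rw [CharTwo.two_eq_zero, zero_mul]

include S in
lemma card_cast : (Fintype.card F : k) = 1 := by
  apply cast_odd
  have := S.hq
  omega

/-- sum of a nontrivial additive character -/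
lemma sum_psi (a : F) : ∑ x : F, S.ψ (x * a) = if a = 0 then 1 else 0 := by
  rw [AddChar.sum_mulShift a (AddChar.IsPrimitive.of_ne_one S.hψ)]
  simp [S.card_cast]

/-- group element in the group algebra -/
noncomputable def b (g : SLF F) : MonoidAlgebra k G := MonoidAlgebra.of k G (S.toHom g)

lemma b_mul (g h : SLF F) : S.b (g * h) = S.b g * S.b h := by
  simp [b]

lemma b_one : S.b 1 = 1 := by
  simp [b, MonoidAlgebra.one_def]

lemma b_eq_of_neg {g h : SLF F} (hgh : g.1 = -h.1) : S.b g = S.b h := by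
  have : S.toHom g = S.toHom h := (S.ker g h).2 (Or.inr hgh)
  simp [b, this]

lemma b_n_neg (c : Fˣ) : S.b (n (-c)) = S.b (n c) := S.b_eq_of_neg (n_neg c)

lemma b_t_neg (c : Fˣ) : S.b (t (-c)) = S.b (t c) := S.b_eq_of_neg (t_neg c)

lemma b_n_mul_n (a c : Fˣ) : S.b (n a) * S.b (n c) = S.b (t (c * a⁻¹)) := by
  rw [← b_mul]
  exact S.b_eq_of_neg (n_mul_n a c)

lemma add_self (x : MonoidAlgebra k G) : x + x = 0 := by
  have : x + x = (2 : k) • x := by rw [two_smul]
  rw [this, CharTwo.two_eq_zero, zero_smul]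

/-- idempotents of the unipotent group, `e 0` belongs to the trivial character -/
noncomputable def e (α : F) : MonoidAlgebra k G := ∑ x : F, S.ψ (-(α * x)) • S.b (u x)

lemma bu_e (α y : F) : S.b (u y) * S.e α = S.ψ (α * y) • S.e α := by
  unfold e
  rw [Finset.mul_sum, Finset.smul_sum]
  refine Fintype.sum_equiv (Equiv.addLeft y) _ _ fun x => ?_
  simp only [Equiv.coe_addLeft]
  rw [mul_smul_comm, ← b_mul, u_mul_u, smul_smul, ← AddChar.map_add_eq_mul]
  congr 2
  ring

lemma e_bu (α y : F) : S.e α * S.b (u y) = S.ψ (α * y) • S.e α := by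
  unfold e
  rw [Finset.sum_mul, Finset.smul_sum]
  refine Fintype.sum_equiv (Equiv.addLeft y) _ _ fun x => ?_
  simp only [Equiv.coe_addLeft]
  rw [smul_mul_assoc, ← b_mul, u_mul_u, smul_smul, ← AddChar.map_add_eq_mul, add_comm x y]
  congr 2
  ring

lemma e_mul_e (α β : F) : S.e α * S.e β = if α = β then S.e α else 0 := by
  nth_rewrite 1 [e]
  rw [Finset.sum_mul]
  have : ∀ x : F, (S.ψ (-(α * x)) • S.b (u x)) * S.e β = S.ψ (x * (β - α)) • S.e β := by
    intro x
    rw [smul_mul_assoc, bu_e, smul_smul, ← AddChar.map_add_eq_mul]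
    congr 2
    ring
  rw [Finset.sum_congr rfl fun x _ => this x, ← Finset.sum_smul, S.sum_psi]
  by_cases h : α = β
  · subst h; simp
  · rw [if_neg (sub_ne_zero.2 (Ne.symm h)), if_neg h, zero_smul]

lemma e_idem (α : F) : S.e α * S.e α = S.e α := by rw [e_mul_e, if_pos rfl]

lemma e_orth {α β : F} (h : α ≠ β) : S.e α * S.e β = 0 := by rw [e_mul_e, if_neg h]

lemma e_sum : ∑ α : F, S.e α = 1 := by
  unfold e
  rw [Finset.sum_comm]
  have : ∀ x : F, ∑ α : F, S.ψ (-(α * x)) • S.b (u x) = if x = 0 then 1 else 0 := by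
    intro x
    rw [← Finset.sum_smul]
    have : ∑ α : F, S.ψ (-(α * x)) = ∑ α : F, S.ψ (α * (-x)) := by
      refine Finset.sum_congr rfl fun α _ => ?_
      congr 1; ring
    rw [this, S.sum_psi]
    by_cases h : x = 0
    · subst h; simp [u_zero, b_one]
    · rw [if_neg h, if_neg (by simpa using h), zero_smul]
  rw [Finset.sum_congr rfl fun x _ => this x]
  simp

/-- conjugation of `e α` by the torus -/
lemma bt_e (a : Fˣ) (α : F) : S.b (t a) * S.e α = S.e (α * ((a : F) ^ 2)⁻¹) * S.b (t a) := by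
  have ha := a.ne_zero
  unfold e
  rw [Finset.mul_sum, Finset.sum_mul]
  refine Fintype.sum_equiv (Equiv.mulLeft₀ ((a : F) ^ 2) (pow_ne_zero 2 ha)) _ _ fun x => ?_
  have he : (Equiv.mulLeft₀ ((a : F) ^ 2) (pow_ne_zero 2 ha)) x = (a : F) ^ 2 * x := rfl
  rw [mul_smul_comm, smul_mul_assoc, ← b_mul, ← b_mul, t_mul_u, he]
  congr 2
  field_simp

/-- every group element is in the linear span of Bruhat elements -/
lemma of_bruhat (g : G) : (∃ (a : Fˣ) (x : F), MonoidAlgebra.of k G g = S.b (t a) * S.b (u x)) ∨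
    (∃ (c : Fˣ) (x y : F), MonoidAlgebra.of k G g = S.b (u x) * S.b (n c) * S.b (u y)) := by
  obtain ⟨h, rfl⟩ := S.surj g
  rcases bruhat h with ⟨a, x, rfl⟩ | ⟨c, x, y, rfl⟩
  · left
    exact ⟨a, x, by rw [← b_mul]; rfl⟩
  · right
    exact ⟨c, x, y, by rw [← b_mul, ← b_mul]; rfl⟩

/-- the coefficient of the identity -/
noncomputable def tr (x : MonoidAlgebra k G) : k := x.coeff 1

lemma tr_add (x y : MonoidAlgebra k G) : tr (x + y) = tr x + tr y := by simp [tr]
lemma tr_smul (r : k) (x : MonoidAlgebra k G) : tr (r • x) = r * tr x := by simp [tr]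
lemma tr_zero : tr (0 : MonoidAlgebra k G) = 0 := by simp [tr]
lemma tr_sum {ι : Type*} (s : Finset ι) (f : ι → MonoidAlgebra k G) :
    tr (∑ i ∈ s, f i) = ∑ i ∈ s, tr (f i) := by
  simp [tr]

lemma tr_b (g : SLF F) : tr (S.b g) = if g.1 = 1 ∨ g.1 = -1 then 1 else 0 := by
  classical
  have h1 : S.toHom g = 1 ↔ (g.1 = 1 ∨ g.1 = -1) := by
    rw [← map_one S.toHom, S.ker]
    rfl
  simp only [tr, b, MonoidAlgebra.of_apply, MonoidAlgebra.coeff_single, Finsupp.single_apply, h1]

end Setup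

end Cartan76
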