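import Mathlib
import Pool.Agent.Cartan76.Basic

/-!
# The multiplication rule of the elements `D α β τ`
-/

set_option linter.unusedSectionVars false

open Matrix Finset

namespace Cartan76
namespace Setup
variable {F k G : Type*} [Field F] [Fintype F] [DecidableEq F] [Field k] [CharP k 2] [Group G]
variable (S : Setup F k G)

/-- `e α * n c * e β` -/
noncomputable def N (α β : F) (c : Fˣ) : MonoidAlgebra k G := S.e α * S.b (n c) * S.e β

lemma N_neg (α β : F) (c : Fˣ) : S.N α β (-c) = S.N α β c := by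
  rw [N, b_n_neg, N]

/-- Fourier transform of the `N α β c` -/
noncomputable def D (α β τ : F) : MonoidAlgebra k G :=
  ∑ c : Fˣ, S.ψ (α * τ * (c : F)⁻¹) • S.N α β c

lemma D_neg (α β τ : F) : S.D α β (-τ) = S.D α β τ := by
  unfold D
  refine Fintype.sum_equiv (Equiv.neg Fˣ) _ _ fun x => ?_
  simp only [Equiv.neg_apply]
  rw [N_neg]
  congr 2
  rw [Units.val_neg, inv_neg]
  ring

lemma D_zero (α β : F) : S.D α β 0 = 0 := by
  unfold D
  have h1 : ∀ c : Fˣ, S.ψ (α * 0 * (c : F)⁻¹) • S.N α β c = S.N α β c := by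
    intro c
    simp
  rw [Finset.sum_congr rfl fun c _ => h1 c]
  rw [sum_fixed (fun x : MonoidAlgebra k G => add_self x) Finset.univ (fun c : Fˣ => -c) (by simp) (by simp) _
    (fun c _ => S.N_neg α β c)]
  apply Finset.sum_eq_zero
  intro W hW
  exfalso
  simp only [Finset.mem_filter, Finset.mem_univ, true_and] at hW
  have h3 : (-(W : F)) = W := by
    have := congrArg (fun u : Fˣ => (u : F)) hW
    simpa using this
  have h5 : 2 * (W : F) = 0 := by linear_combination -h3
  exact (mul_ne_zero S.two_ne W.ne_zero) h5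

lemma N_eq_sum_D (α β : F) (hα : α ≠ 0) (c : Fˣ) :
    S.N α β c = ∑ τ : F, S.ψ (-(α * τ * (c : F)⁻¹)) • S.D α β τ := by
  unfold D
  simp only [Finset.smul_sum, smul_smul]
  rw [Finset.sum_comm]
  have h1 : ∀ d : Fˣ, ∑ τ : F, (S.ψ (-(α * τ * (c : F)⁻¹)) * S.ψ (α * τ * (d : F)⁻¹)) • S.N α β d
      = if d = c then S.N α β c else 0 := by
    intro d
    rw [← Finset.sum_smul]
    have h2 : ∑ τ : F, (S.ψ (-(α * τ * (c : F)⁻¹)) * S.ψ (α * τ * (d : F)⁻¹)) =
        ∑ τ : F, S.ψ (τ * (α * ((d : F)⁻¹ - (c : F)⁻¹))) := by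
      refine Finset.sum_congr rfl fun τ _ => ?_
      rw [← AddChar.map_add_eq_mul]
      congr 1
      ring
    rw [h2, S.sum_psi]
    by_cases h : d = c
    · subst h; simp
    · rw [if_neg, if_neg h, zero_smul]
      intro h3
      have h4 := (mul_eq_zero.1 h3).resolve_left hα
      have h5 : (d : F)⁻¹ = (c : F)⁻¹ := sub_eq_zero.1 h4
      exact h (Units.ext (inv_injective h5))
  rw [Finset.sum_congr rfl fun d _ => h1 d]
  simp

/-- the product of two `N`s -/
lemma N_mul_N (α β γ : F) (a b : Fˣ) : S.N α β a * S.N β γ b =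
    S.e α * S.b (t (b * a⁻¹)) * S.e γ +
    ∑ x : Fˣ, (S.ψ (-(β * x)) * (S.ψ (-(α * ((a : F) ^ 2 * x)⁻¹)) * S.ψ (-(γ * ((b : F) ^ 2 * x)⁻¹))))
      • S.N α γ (a * b * x) := by
  have h1 : S.N α β a * S.N β γ b = S.e α * S.b (n a) * S.e β * S.b (n b) * S.e γ := by
    simp only [N]
    calc S.e α * S.b (n a) * S.e β * (S.e β * S.b (n b) * S.e γ)
        = S.e α * S.b (n a) * (S.e β * S.e β) * S.b (n b) * S.e γ := by simp only [mul_assoc]
      _ = _ := by rw [e_idem]
  have h2 : S.e α * S.b (n a) * S.e β * S.b (n b) * S.e γ =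
      ∑ x : F, S.ψ (-(β * x)) • (S.e α * S.b (n a * u x * n b) * S.e γ) := by
    conv_lhs => rw [show S.e β = ∑ x : F, S.ψ (-(β * x)) • S.b (u x) from rfl]
    simp only [Finset.mul_sum, Finset.sum_mul, mul_smul_comm, smul_mul_assoc, b_mul, mul_assoc]
  rw [h1, h2, sum_units]
  congr 1
  · rw [mul_zero, neg_zero, AddChar.map_zero_eq_one, one_smul, u_zero, mul_one, b_mul, b_n_mul_n]
  · refine Finset.sum_congr rfl fun x _ => ?_
    rw [n_u_n, b_mul, b_mul]
    have h3 : S.e α * (S.b (u (-((a : F) ^ 2 * x)⁻¹)) * S.b (n (a * b * x)) *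
        S.b (u (-((b : F) ^ 2 * x)⁻¹))) * S.e γ =
        (S.e α * S.b (u (-((a : F) ^ 2 * x)⁻¹))) * S.b (n (a * b * x)) *
        (S.b (u (-((b : F) ^ 2 * x)⁻¹)) * S.e γ) := by simp only [mul_assoc]
    rw [h3, e_bu, bu_e, N]
    simp only [smul_mul_assoc, mul_smul_comm, smul_smul, mul_neg]
    congr 1
    ring

/-- the torus term in the product -/
lemma e_t_e (α γ : F) (hα : α * α = 1) (hγ : γ * γ = 1) (r : Fˣ) :
    S.e α * S.b (t r) * S.e γ = if α = γ ∧ (r = 1 ∨ r = -1) then S.e α else 0 := by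
  have hr := r.ne_zero
  rw [mul_assoc, bt_e, ← mul_assoc, e_mul_e]
  have hγ0 : γ ≠ 0 := by rintro rfl; simp at hγ
  have hα0 : α ≠ 0 := by rintro rfl; simp at hα
  by_cases h : α = γ * ((r : F) ^ 2)⁻¹
  · rw [if_pos h]
    have h1 : (r : F) ^ 2 = α * γ := by
      field_simp at h
      linear_combination α * h - (r : F) ^ 2 * hα
    have h2 : α = γ := by
      by_contra hne
      have h3 : (α - γ) * (α + γ) = 0 := by linear_combination hα - hγ
      have h4 : α + γ = 0 := (mul_eq_zero.1 h3).resolve_left (sub_ne_zero.2 hne)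
      have h5 : (-1 : F) = r * r := by
        linear_combination (-1 : F) * h1 - α * h4 + hα
      exact S.hsq ⟨r, h5⟩
    subst h2
    have h6 : (r : F) ^ 2 = 1 := by rw [h1, hα]
    have h7 : r = 1 ∨ r = -1 := by
      have h8 : ((r : F) - 1) * ((r : F) + 1) = 0 := by linear_combination h6
      rcases mul_eq_zero.1 h8 with h9 | h9
      · left; apply Units.ext; simpa using sub_eq_zero.1 h9
      · right; apply Units.ext
        rw [Units.val_neg, Units.val_one]
        linear_combination h9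
    rw [if_pos ⟨rfl, h7⟩]
    rcases h7 with h7 | h7
    · rw [h7, t_one, b_one, mul_one]
    · rw [h7, b_t_neg, t_one, b_one, mul_one]
  · rw [if_neg h, zero_mul, if_neg]
    rintro ⟨rfl, h7⟩
    apply h
    rcases h7 with h7 | h7
    · rw [h7]; simp
    · rw [h7]; simp

lemma sum_units_psi (y : F) : ∑ a : Fˣ, S.ψ (y * (a : F)⁻¹) = if y = 0 then 0 else 1 := by
  have h1 : ∑ a : Fˣ, S.ψ (y * (a : F)⁻¹) = ∑ a : Fˣ, S.ψ ((a : F) * y) := by
    refine Fintype.sum_equiv (Equiv.inv Fˣ) _ _ fun x => ?_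
    simp [mul_comm]
  have h2 := S.sum_psi y
  rw [sum_units] at h2
  rw [h1]
  rw [zero_mul, AddChar.map_zero_eq_one] at h2
  by_cases h : y = 0
  · rw [if_pos h] at h2 ⊢
    exact (add_eq_left.1 h2)
  · rw [if_neg h] at h2 ⊢
    have h3 : ∑ a : Fˣ, S.ψ ((a : F) * y) = -1 := by linear_combination h2
    rw [h3, CharTwo.neg_eq]

/-- the constant term of the product -/
lemma T_term (α β γ τ σ : F) (hα : α * α = 1) (hβ : β * β = 1) (hγ : γ * γ = 1) :
    ∑ a : Fˣ, ∑ b : Fˣ, (S.ψ (α * τ * (a : F)⁻¹) * S.ψ (β * σ * (b : F)⁻¹)) •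
      (S.e α * S.b (t (b * a⁻¹)) * S.e γ) =
    if α = γ ∧ (τ = σ ∨ τ = -σ) ∧ τ ≠ 0 then S.e α else 0 := by
  simp only [S.e_t_e α γ hα hγ]
  by_cases hag : α = γ
  swap
  · simp [hag]
  subst hag
  simp only [true_and]
  have h1 : ∀ a : Fˣ, ∑ b : Fˣ, (S.ψ (α * τ * (a : F)⁻¹) * S.ψ (β * σ * (b : F)⁻¹)) •
      (if b * a⁻¹ = 1 ∨ b * a⁻¹ = -1 then S.e α else 0) =
      (S.ψ ((α * τ + β * σ) * (a : F)⁻¹) + S.ψ ((α * τ - β * σ) * (a : F)⁻¹)) • S.e α := by
    intro a
    have h2 : ∀ b : Fˣ, (S.ψ (α * τ * (a : F)⁻¹) * S.ψ (β * σ * (b : F)⁻¹)) •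
      (if b * a⁻¹ = 1 ∨ b * a⁻¹ = -1 then S.e α else 0) = if b ∈ ({a, -a} : Finset Fˣ) then
        (S.ψ (α * τ * (a : F)⁻¹) * S.ψ (β * σ * (b : F)⁻¹)) • S.e α else 0 := by
      intro b
      have h3 : (b * a⁻¹ = 1 ∨ b * a⁻¹ = -1) ↔ b ∈ ({a, -a} : Finset Fˣ) := by
        rw [Finset.mem_insert, Finset.mem_singleton, mul_inv_eq_iff_eq_mul, mul_inv_eq_iff_eq_mul,
          one_mul, neg_one_mul]
      by_cases h4 : b ∈ ({a, -a} : Finset Fˣ)
      · rw [if_pos (h3.2 h4), if_pos h4]
      · rw [if_neg (fun h => h4 (h3.1 h)), if_neg h4, smul_zero]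
    rw [Finset.sum_congr rfl fun b _ => h2 b, Finset.sum_ite_mem, Finset.univ_inter,
      Finset.sum_pair]
    · rw [← add_smul, ← AddChar.map_add_eq_mul, ← AddChar.map_add_eq_mul]
      congr 3
      · ring
      · rw [Units.val_neg, inv_neg]
        ring
    · intro h
      have h5 : (a : F) = -a := by
        have := congrArg (fun u : Fˣ => (u : F)) h
        simpa using this
      have h6 : 2 * (a : F) = 0 := by linear_combination h5
      exact (mul_ne_zero S.two_ne a.ne_zero) h6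
  rw [Finset.sum_congr rfl fun a _ => h1 a, ← Finset.sum_smul, Finset.sum_add_distrib,
    sum_units_psi, sum_units_psi]
  have hα0 : α ≠ 0 := by rintro rfl; simp at hα
  have hβ0 : β ≠ 0 := by rintro rfl; simp at hβ
  have hab : β = α ∨ β = -α := by
    have : (β - α) * (β + α) = 0 := by linear_combination hβ - hα
    rcases mul_eq_zero.1 this with h | h
    · left; linear_combination h
    · right; linear_combination h
  have e1 : (α * τ + β * σ = 0 ∨ α * τ - β * σ = 0) ↔ (τ = σ ∨ τ = -σ) := by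
    rcases hab with rfl | rfl
    · constructor
      · rintro (h | h)
        · right
          have : β * (τ + σ) = 0 := by linear_combination h
          linear_combination (mul_eq_zero.1 this).resolve_left hα0
        · left
          have : β * (τ - σ) = 0 := by linear_combination h
          linear_combination (mul_eq_zero.1 this).resolve_left hα0
      · rintro (rfl | rfl)
        · right; ring
        · left; ring
    · constructor
      · rintro (h | h)
        · left
          have : α * (τ - σ) = 0 := by linear_combination h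
          linear_combination (mul_eq_zero.1 this).resolve_left hα0
        · right
          have : α * (τ + σ) = 0 := by linear_combination h
          linear_combination (mul_eq_zero.1 this).resolve_left hα0
      · rintro (rfl | rfl)
        · left; ring
        · right; ring
  have e2 : (α * τ + β * σ = 0 ∧ α * τ - β * σ = 0) → τ = 0 := by
    rintro ⟨h, h'⟩
    have : 2 * (α * τ) = 0 := by linear_combination h + h'
    have := (mul_eq_zero.1 this).resolve_left S.two_ne
    exact (mul_eq_zero.1 this).resolve_left hα0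
  by_cases h3 : α * τ + β * σ = 0
  · rw [if_pos h3]
    by_cases h4 : α * τ - β * σ = 0
    · rw [if_pos h4, if_neg, add_zero, zero_smul]
      rintro ⟨_, h5⟩
      exact h5 (e2 ⟨h3, h4⟩)
    · rw [if_neg h4, zero_add, one_smul, if_pos]
      refine ⟨e1.1 (Or.inl h3), ?_⟩
      rintro rfl
      apply h4
      have : β * σ = 0 := by linear_combination h3
      linear_combination -this
  · rw [if_neg h3]
    by_cases h4 : α * τ - β * σ = 0
    · rw [if_pos h4, add_zero, one_smul, if_pos]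
      refine ⟨e1.1 (Or.inr h4), ?_⟩
      rintro rfl
      apply h3
      have : β * σ = 0 := by linear_combination -h4
      linear_combination this
    · rw [if_neg h4, CharTwo.add_self_eq_zero, zero_smul, if_neg]
      rintro ⟨h5, _⟩
      rcases e1.2 h5 with h | h
      · exact h3 h
      · exact h4 h

/-- the product of two `D`s as a double sum -/
lemma D_mul_D_sum (α β γ τ σ : F) (hα : α * α = 1) (hβ : β * β = 1) (hγ : γ * γ = 1) :
    S.D α β τ * S.D β γ σ = (if α = γ ∧ (τ = σ ∨ τ = -σ) ∧ τ ≠ 0 then S.e α else 0) +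
    ∑ X : Fˣ, ∑ Y : Fˣ, S.D α γ
      (τ * X + σ * Y - X * Y - (α * β) * X * (Y : F)⁻¹ - (β * γ) * Y * (X : F)⁻¹) := by
  have h1 : S.D α β τ * S.D β γ σ = ∑ a : Fˣ, ∑ b : Fˣ,
      (S.ψ (α * τ * (a : F)⁻¹) * S.ψ (β * σ * (b : F)⁻¹)) • (S.N α β a * S.N β γ b) := by
    unfold D
    rw [Finset.sum_mul]
    refine Finset.sum_congr rfl fun a _ => ?_
    rw [Finset.mul_sum]
    refine Finset.sum_congr rfl fun b _ => ?_
    rw [smul_mul_assoc, mul_smul_comm, smul_smul]
  rw [h1, ← S.T_term α β γ τ σ hα hβ hγ]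
  simp only [N_mul_N, smul_add, Finset.sum_add_distrib]
  congr 1
  have hαβ : (α * β) ≠ 0 := by
    intro h
    have : (α * β) * (α * β) = 1 := by linear_combination β * β * hα + hβ
    rw [h] at this
    simp at this
  let εu : Fˣ := Units.mk0 (α * β) hαβ
  have hεu : (εu : F) = α * β := rfl
  have hεε : (εu : F) * εu = 1 := by rw [hεu]; linear_combination β * β * hα + hβ
  have hεinv : (εu : F)⁻¹ = εu := (eq_inv_of_mul_eq_one_left hεε).symm
  -- right-hand side
  have h2 : ∑ X : Fˣ, ∑ Y : Fˣ, S.D α γ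
      (τ * X + σ * Y - X * Y - (α * β) * X * (Y : F)⁻¹ - (β * γ) * Y * (X : F)⁻¹) =
      ∑ q : Fˣ × Fˣ × Fˣ, S.ψ (α * (τ * q.1 + σ * q.2.1 - q.1 * q.2.1 - (α * β) * q.1 * (q.2.1 : F)⁻¹
        - (β * γ) * q.2.1 * (q.1 : F)⁻¹) * (q.2.2 : F)⁻¹) • S.N α γ q.2.2 := by
    rw [Fintype.sum_prod_type]
    refine Finset.sum_congr rfl fun X _ => ?_
    rw [Fintype.sum_prod_type]
    refine Finset.sum_congr rfl fun Y _ => ?_
    rfl
  have h3 : ∑ a : Fˣ, ∑ b : Fˣ, (S.ψ (α * τ * (a : F)⁻¹) * S.ψ (β * σ * (b : F)⁻¹)) •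
      ∑ x : Fˣ, (S.ψ (-(β * x)) * (S.ψ (-(α * ((a : F) ^ 2 * x)⁻¹)) *
        S.ψ (-(γ * ((b : F) ^ 2 * x)⁻¹)))) • S.N α γ (a * b * x) =
      ∑ q : Fˣ × Fˣ × Fˣ, S.ψ (α * τ * (q.1 : F)⁻¹ + β * σ * (q.2.1 : F)⁻¹ - β * q.2.2
        - α * ((q.1 : F) ^ 2 * q.2.2)⁻¹ - γ * ((q.2.1 : F) ^ 2 * q.2.2)⁻¹) •
        S.N α γ (q.1 * q.2.1 * q.2.2) := by
    rw [Fintype.sum_prod_type]
    refine Finset.sum_congr rfl fun a _ => ?_
    rw [Fintype.sum_prod_type]
    refine Finset.sum_congr rfl fun b _ => ?_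
    rw [Finset.smul_sum]
    refine Finset.sum_congr rfl fun x _ => ?_
    rw [smul_smul]
    simp only [← AddChar.map_add_eq_mul]
    congr 2
    ring
  rw [h2, h3]
  -- change of variables (X, Y, c) -> (c / X, c / (ε Y), ε X Y / c)
  let φ : Fˣ × Fˣ × Fˣ ≃ Fˣ × Fˣ × Fˣ :=
    { toFun := fun q => (q.2.1 * q.2.2, εu * q.1 * q.2.2, q.1 * q.2.1 * q.2.2)
      invFun := fun q => (q.2.2 * q.1⁻¹, q.2.2 * εu⁻¹ * q.2.1⁻¹, εu * q.1 * q.2.1 * q.2.2⁻¹)
      left_inv := by
        rintro ⟨a, b, x⟩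
        have ha := a.ne_zero
        have hb := b.ne_zero
        have hx := x.ne_zero
        have he := εu.ne_zero
        refine Prod.ext ?_ (Prod.ext ?_ ?_)
        · apply Units.ext
          simp only [Units.val_mul, Units.val_inv_eq_inv_val]
          field_simp
        · apply Units.ext
          simp only [Units.val_mul, Units.val_inv_eq_inv_val]
          field_simp
          linear_combination -hεε
        · apply Units.ext
          simp only [Units.val_mul, Units.val_inv_eq_inv_val]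
          field_simp
          linear_combination hεε
      right_inv := by
        rintro ⟨X, Y, c⟩
        have hX := X.ne_zero
        have hY := Y.ne_zero
        have hc := c.ne_zero
        have he := εu.ne_zero
        refine Prod.ext ?_ (Prod.ext ?_ ?_)
        · apply Units.ext
          simp only [Units.val_mul, Units.val_inv_eq_inv_val]
          field_simp
        · apply Units.ext
          simp only [Units.val_mul, Units.val_inv_eq_inv_val]
          field_simp
          linear_combination hεε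
        · apply Units.ext
          simp only [Units.val_mul, Units.val_inv_eq_inv_val]
          field_simp }
  refine Fintype.sum_equiv φ _ _ ?_
  rintro ⟨a, b, x⟩
  have ha := a.ne_zero
  have hb := b.ne_zero
  have hx := x.ne_zero
  have he := εu.ne_zero
  have hφ : φ (a, b, x) = (b * x, εu * a * x, a * b * x) := rfl
  rw [hφ]
  simp only [Units.val_mul]
  congr 2
  rw [hεu]
  have hα0 : α ≠ 0 := by rintro rfl; simp at hα
  have hβ0 : β ≠ 0 := by rintro rfl; simp at hβ
  have t1 : α * (τ * (b * x)) * ((a : F) * b * x)⁻¹ = α * τ * (a : F)⁻¹ := by field_simp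
  have t2 : α * (σ * (α * β * a * x)) * ((a : F) * b * x)⁻¹ = (α * α) * (β * σ * (b : F)⁻¹) := by
    field_simp
  have t3 : α * ((b * x) * (α * β * a * x)) * ((a : F) * b * x)⁻¹ = (α * α) * (β * x) := by
    field_simp
  have t4 : α * (α * β * (b * x) * (α * β * a * x)⁻¹) * ((a : F) * b * x)⁻¹ =
      α * ((a : F) ^ 2 * x)⁻¹ := by
    field_simp
  have t5 : α * (β * γ * (α * β * a * x) * ((b : F) * x)⁻¹) * ((a : F) * b * x)⁻¹ =
      (α * α) * (β * β) * (γ * ((b : F) ^ 2 * x)⁻¹) := by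
    field_simp
  rw [hα, one_mul] at t2 t3 t5
  rw [hβ, one_mul] at t5
  rw [mul_sub, mul_sub, mul_sub, mul_add, sub_mul, sub_mul, sub_mul, add_mul, t1, t2, t3, t4, t5]

/-- The multiplication rule. -/
theorem D_mul_D (α β γ τ σ : F) (hα : α * α = 1) (hβ : β * β = 1) (hγ : γ * γ = 1)
    (hδ : σ ^ 2 - 4 * (β * γ) ≠ 0) :
    S.D α β τ * S.D β γ σ = (if α = γ ∧ (τ = σ ∨ τ = -σ) ∧ τ ≠ 0 then S.e α else 0) +
    ∑ Z ∈ Finset.univ.filter
      (fun Z : F => (σ ^ 2 - 4 * (β * γ)) * Z ^ 2 = τ ^ 2 - 4 * (α * β)),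
      S.D α γ ((σ * τ + (σ ^ 2 - 4 * (β * γ)) * Z) * 2⁻¹) := by
  have hβγ : (β * γ) * (β * γ) = 1 := by linear_combination γ * γ * hβ + hγ
  rw [D_mul_D_sum _ _ _ _ _ _ hα hβ hγ]
  congr 1
  rw [conic_sum (fun x : MonoidAlgebra k G => add_self x) (S.D α γ) (S.D_neg α γ) (S.D_zero α γ)
    S.two_ne τ σ (α * β) (β * γ) hβγ]
  exact conic_sum_fixed (fun x : MonoidAlgebra k G => add_self x) (S.D α γ) (S.D_neg α γ)
    (S.D_zero α γ) S.two_ne τ σ (α * β) (β * γ) hβγ hδ

/-- a form of commutativity -/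
theorem D_comm (α β γ τ σ : F) (hα : α * α = 1) (hβ : β * β = 1) (hγ : γ * γ = 1) :
    S.D α β τ * S.D β γ σ = S.D α (α * β * γ) σ * S.D (α * β * γ) γ τ := by
  have h1 : (α * β * γ) * (α * β * γ) = 1 := by
    linear_combination β * β * γ * γ * hα + γ * γ * hβ + hγ
  rw [D_mul_D_sum _ _ _ _ _ _ hα hβ hγ, D_mul_D_sum _ _ _ _ _ _ hα h1 hγ]
  congr 1
  · apply if_congr _ rfl rfl
    constructor
    · rintro ⟨h2, h3, h4⟩
      refine ⟨h2, ?_, ?_⟩
      · rcases h3 with h3 | h3
        · left; exact h3.symm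
        · right; rw [h3]; ring
      · rintro rfl
        apply h4
        rcases h3 with h3 | h3
        · exact h3
        · rw [h3]; ring
    · rintro ⟨h2, h3, h4⟩
      refine ⟨h2, ?_, ?_⟩
      · rcases h3 with h3 | h3
        · left; exact h3.symm
        · right; rw [h3]; ring
      · rintro rfl
        apply h4
        rcases h3 with h3 | h3
        · exact h3
        · rw [h3]; ring
  · rw [Finset.sum_comm]
    refine Finset.sum_congr rfl fun X _ => Finset.sum_congr rfl fun Y _ => ?_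
    congr 1
    have h2 : α * (α * β * γ) = β * γ := by linear_combination β * γ * hα
    have h3 : α * β * γ * γ = α * β := by linear_combination α * β * hγ
    rw [h2, h3]
    ring

theorem D_two_mul_D_two (α : F) (hα : α * α = 1) : S.D α α 2 * S.D α α 2 = S.e α := by
  rw [D_mul_D_sum _ _ _ _ _ _ hα hα hα, if_pos ⟨rfl, Or.inl rfl, S.two_ne⟩]
  have h := conic_sum (fun x : MonoidAlgebra k G => add_self x) (S.D α α) (S.D_neg α α)
    (S.D_zero α α) S.two_ne 2 2 1 1 (by ring)
  rw [conic_sum_two (fun x : MonoidAlgebra k G => add_self x) (S.D α α) (S.D_neg α α)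
    (S.D_zero α α) S.two_ne] at h
  rw [hα, h, add_zero]

/-- the element `z = e + D 2` is square zero -/
noncomputable def z (α : F) : MonoidAlgebra k G := S.e α + S.D α α 2

end Setup
end Cartan76
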