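import Mathlib
import Pool.Agent.Cartan76.DRule

/-!
# Torus form of the multiplication rule (non-split torus)

`X α β j = D α β (ζ^j + (-1)^j ζ^(-j)) + [8c ∣ j] e α` satisfies
`X α β j * X β γ l = X α γ (j + l) + X α γ (j - l)`.
-/

set_option linter.unusedSectionVars false

open Finset

namespace Cartan76
namespace Setup
variable {F k G : Type*} [Field F] [Fintype F] [DecidableEq F] [Field k] [CharP k 2] [Group G]
variable (S : Setup F k G)

/-- the sign `(-1)^j` in `F` -/
def sg (F : Type*) [Field F] (j : ℤ) : F := (-1 : F) ^ j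

lemma neg_one_ne_zero' : (-1 : F) ≠ 0 := neg_ne_zero.2 one_ne_zero

lemma sg_add (j l : ℤ) : sg F (j + l) = sg F j * sg F l := zpow_add₀ neg_one_ne_zero' j l

lemma sg_neg (j : ℤ) : sg F (-j) = sg F j := by
  unfold sg
  rw [← inv_zpow']
  congr 1
  norm_num

lemma sg_sq (j : ℤ) : sg F j * sg F j = 1 := by
  nth_rewrite 2 [← sg_neg]
  rw [← sg_add, add_neg_cancel]
  simp [sg]

lemma sg_sub (j l : ℤ) : sg F (j - l) = sg F j * sg F l := by
  rw [sub_eq_add_neg, sg_add, sg_neg]

lemma sg_even {j : ℤ} (hj : Even j) : sg F j = 1 := Even.neg_one_zpow hj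

lemma sg_odd {j : ℤ} (hj : Odd j) : sg F j = -1 := Odd.neg_one_zpow hj

include S in
lemma c_pos : 0 < S.c := by
  have := S.hc
  omega

include S in
lemma cast_c : ((8 * S.c : ℕ) : F) = 1 := by
  rw [← S.hq]
  push_cast
  rw [FiniteField.cast_card_eq_zero, zero_add]

include S in
lemma cast_ne : ((16 * S.c : ℕ) : AlgebraicClosure F) ≠ 0 := by
  have h1 : ((16 * S.c : ℕ) : F) = 2 := by
    have h2 : 16 * S.c = 2 * (8 * S.c) := by ring
    rw [h2, Nat.cast_mul, S.cast_c]
    norm_num
  have h3 : ((16 * S.c : ℕ) : AlgebraicClosure F) = algebraMap F (AlgebraicClosure F) 2 := by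
    rw [← h1, map_natCast]
  rw [h3]
  intro h4
  exact S.two_ne ((map_eq_zero _).1 h4)

include S in
lemma exists_zeta : ∃ ζ : AlgebraicClosure F, IsPrimitiveRoot ζ (16 * S.c) := by
  have : NeZero ((16 * S.c : ℕ) : AlgebraicClosure F) := ⟨S.cast_ne⟩
  exact HasEnoughRootsOfUnity.exists_primitiveRoot _ _

/-- a root of unity of order `16 c = 2 (q + 1)` -/
noncomputable def zt : AlgebraicClosure F := Classical.choose S.exists_zeta

lemma zt_prim : IsPrimitiveRoot S.zt (16 * S.c) := Classical.choose_spec S.exists_zeta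

lemma zt_ne : S.zt ≠ 0 := S.zt_prim.ne_zero (by have := S.c_pos; omega)

lemma zt_half : S.zt ^ (8 * S.c : ℕ) = -1 := by
  have h1 : S.zt ^ (16 * S.c) = 1 := S.zt_prim.pow_eq_one
  have h2 : (S.zt ^ (8 * S.c) - 1) * (S.zt ^ (8 * S.c) + 1) = 0 := by
    have : S.zt ^ (8 * S.c) * S.zt ^ (8 * S.c) = 1 := by
      rw [← pow_add]
      convert h1 using 2
      ring
    linear_combination this
  rcases mul_eq_zero.1 h2 with h3 | h3
  · exfalso
    have h4 := S.zt_prim.dvd_of_pow_eq_one (8 * S.c) (by linear_combination h3)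
    have h5 := Nat.le_of_dvd (by have := S.c_pos; omega) h4
    have := S.c_pos
    omega
  · linear_combination h3

lemma zt_half_z : S.zt ^ (8 * (S.c : ℤ)) = -1 := by
  rw [← S.zt_half, ← zpow_natCast]
  congr 1

lemma zt_sq_iff (m : ℤ) : S.zt ^ (2 * m) = 1 ↔ (8 * (S.c : ℤ)) ∣ m := by
  rw [S.zt_prim.zpow_eq_one_iff_dvd]
  push_cast
  have : (16 * (S.c : ℤ)) = 2 * (8 * S.c) := by ring
  rw [this]
  exact mul_dvd_mul_iff_left (by norm_num)

/-- embedding of the sign -/
lemma map_sg (j : ℤ) : algebraMap F (AlgebraicClosure F) (sg F j) = (-1) ^ j := by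
  unfold sg
  rw [map_zpow₀]
  simp

lemma card_eq_z : ((Fintype.card F : ℕ) : ℤ) = 8 * S.c - 1 := by
  have := S.hq
  omega

/-- the Frobenius on powers of `ζ` -/
lemma frob_zt (j : ℤ) : (S.zt ^ j) ^ (Fintype.card F) = (-1) ^ j * S.zt ^ (-j) := by
  rw [← zpow_natCast, ← zpow_mul, S.card_eq_z]
  have h1 : j * (8 * (S.c : ℤ) - 1) = (8 * S.c) * j + (-j) := by ring
  rw [h1, zpow_add₀ S.zt_ne, zpow_mul, S.zt_half_z]

lemma frob_sg (j : ℤ) : (((-1 : AlgebraicClosure F)) ^ j) ^ (Fintype.card F) = (-1) ^ j := by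
  rw [← map_sg, ← map_pow, FiniteField.pow_card]

lemma sgK_sq (j : ℤ) : ((-1 : AlgebraicClosure F)) ^ j * (-1) ^ j = 1 := by
  rw [← map_sg, ← map_mul, sg_sq, map_one]

lemma frob_zt' (j : ℤ) : ((-1) ^ j * S.zt ^ (-j)) ^ (Fintype.card F) = S.zt ^ j := by
  rw [mul_pow, frob_sg, frob_zt, neg_neg]
  have h2 : ((-1 : AlgebraicClosure F)) ^ (-j) = (-1) ^ j := by
    rw [← map_sg, ← map_sg, sg_neg]
  rw [h2, ← mul_assoc, sgK_sq, one_mul]

/-- elements fixed by the Frobenius are in `F` -/
lemma mem_of_frob {x : AlgebraicClosure F} (hx : x ^ (Fintype.card F) = x) :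
    ∃ y : F, algebraMap F (AlgebraicClosure F) y = x := by
  classical
  have h1 : (Polynomial.X ^ (Fintype.card F) - Polynomial.X : Polynomial F) =
      ∏ a : F, (Polynomial.X - Polynomial.C a) := by
    have h2 := FiniteField.roots_X_pow_card_sub_X F
    have h3 : (Polynomial.X ^ (Fintype.card F) - Polynomial.X : Polynomial F).Monic := by
      apply Polynomial.monic_X_pow_sub
      rw [Polynomial.degree_X]
      exact_mod_cast Fintype.one_lt_card
    have h4 : (Polynomial.X ^ (Fintype.card F) - Polynomial.X : Polynomial F).natDegree =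
        Fintype.card F := FiniteField.X_pow_card_sub_X_natDegree_eq F Fintype.one_lt_card
    have h5 := Polynomial.prod_multiset_X_sub_C_of_monic_of_roots_card_eq h3 (by
      rw [h2, h4]; rfl)
    rw [h2] at h5
    exact h5.symm
  have h6 := congrArg (Polynomial.aeval x) h1
  rw [map_sub, map_pow, Polynomial.aeval_X, hx, sub_self, map_prod] at h6
  obtain ⟨a, _, ha⟩ := Finset.prod_eq_zero_iff.1 h6.symm
  refine ⟨a, ?_⟩
  simp only [map_sub, Polynomial.aeval_X, Polynomial.aeval_C] at ha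
  exact (sub_eq_zero.1 ha).symm

lemma frob_add (x y : AlgebraicClosure F) :
    (x + y) ^ (Fintype.card F) = x ^ (Fintype.card F) + y ^ (Fintype.card F) := by
  have := map_add (FiniteField.frobeniusAlgHom F (AlgebraicClosure F)) x y
  simpa [FiniteField.coe_frobeniusAlgHom] using this

lemma exists_tau (j : ℤ) : ∃ y : F, algebraMap F (AlgebraicClosure F) y =
    S.zt ^ j + (-1) ^ j * S.zt ^ (-j) := by
  apply mem_of_frob
  rw [frob_add, frob_zt, frob_zt']
  ring

/-- the trace -/
noncomputable def tau (j : ℤ) : F := Classical.choose (S.exists_tau j)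

lemma map_tau (j : ℤ) : algebraMap F (AlgebraicClosure F) (S.tau j) =
    S.zt ^ j + (-1) ^ j * S.zt ^ (-j) := Classical.choose_spec (S.exists_tau j)

lemma tau_sq_sub (j : ℤ) : algebraMap F (AlgebraicClosure F) ((S.tau j) ^ 2 - 4 * sg F j) =
    (S.zt ^ j - (-1) ^ j * S.zt ^ (-j)) ^ 2 := by
  rw [map_sub, map_mul, map_pow, map_tau, map_sg]
  have h4 : algebraMap F (AlgebraicClosure F) 4 = 4 := map_ofNat _ 4
  have h1 : S.zt ^ j * S.zt ^ (-j) = 1 := by
    rw [← zpow_add₀ S.zt_ne, add_neg_cancel, zpow_zero]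
  rw [h4]
  linear_combination 4 * (-1) ^ j * h1

lemma dif_ne {j : ℤ} (hj : ¬ (8 * (S.c : ℤ)) ∣ j) : S.zt ^ j - (-1) ^ j * S.zt ^ (-j) ≠ 0 := by
  intro h
  apply hj
  have h1 : S.zt ^ j * S.zt ^ (-j) = 1 := by
    rw [← zpow_add₀ S.zt_ne, add_neg_cancel, zpow_zero]
  have h2 : S.zt ^ (2 * j) = (-1) ^ j := by
    have : (2 : ℤ) * j = j + j := by ring
    rw [this, zpow_add₀ S.zt_ne]
    linear_combination S.zt ^ j * h + (-1) ^ j * h1
  have h3 : (-1 : AlgebraicClosure F) ^ j = S.zt ^ (8 * (S.c : ℤ) * j) := by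
    rw [zpow_mul, S.zt_half_z]
  have h5 : S.zt ^ (2 * (j * (1 - 4 * S.c))) = 1 := by
    have : 2 * (j * (1 - 4 * (S.c : ℤ))) = 2 * j - 8 * S.c * j := by ring
    rw [this, zpow_sub₀ S.zt_ne, h2, h3, div_self]
    exact zpow_ne_zero _ S.zt_ne
  rw [S.zt_sq_iff] at h5
  have hc := S.hc
  have hcop : IsCoprime (8 * (S.c : ℤ)) (1 - 4 * S.c) := by
    refine ⟨2 * S.c, 1 + 4 * S.c, ?_⟩
    ring
  exact hcop.dvd_of_dvd_mul_right h5

lemma map_inj' {x y : F} (h : algebraMap F (AlgebraicClosure F) x =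
    algebraMap F (AlgebraicClosure F) y) : x = y := (algebraMap F (AlgebraicClosure F)).injective h

lemma e_mul_D (α β τ : F) : S.e α * S.D α β τ = S.D α β τ := by
  unfold D N
  rw [Finset.mul_sum]
  refine Finset.sum_congr rfl fun c _ => ?_
  rw [mul_smul_comm, ← mul_assoc, ← mul_assoc, e_idem]

lemma D_mul_e (α β τ : F) : S.D α β τ * S.e β = S.D α β τ := by
  unfold D N
  rw [Finset.sum_mul]
  refine Finset.sum_congr rfl fun c _ => ?_
  rw [smul_mul_assoc, mul_assoc _ (S.e β) (S.e β), e_idem]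

lemma e_mul_z (α : F) : S.e α * S.z α = S.z α := by
  rw [z, mul_add, e_idem, e_mul_D]

lemma z_mul_e (α : F) : S.z α * S.e α = S.z α := by
  rw [z, add_mul, e_idem, D_mul_e]

lemma z_mul_z (α : F) (hα : α * α = 1) : S.z α * S.z α = 0 := by
  have h1 : S.z α * S.z α = (S.e α + S.e α) + (S.D α α 2 + S.D α α 2) := by
    rw [z, mul_add, add_mul, add_mul, e_idem, e_mul_D, D_mul_e, D_two_mul_D_two _ _ hα]
    abel
  rw [h1, add_self, add_self, add_zero]

/-- `z` kills `D` -/
lemma z_mul_D (α β τ : F) (hα : α * α = 1) (hβ : β * β = 1) (hτ : τ ^ 2 - 4 * (α * β) ≠ 0) :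
    S.z α * S.D α β τ = 0 := by
  rw [z, add_mul, e_mul_D, D_mul_D _ _ _ _ _ _ hα hα hβ hτ]
  have h1 : (Finset.univ.filter (fun Z : F => (τ ^ 2 - 4 * (α * β)) * Z ^ 2 = 2 ^ 2 - 4 * (α * α)))
      = {0} := by
    ext Z
    simp only [Finset.mem_filter, Finset.mem_univ, true_and, Finset.mem_singleton]
    rw [hα]
    have h3 : (2 : F) ^ 2 - 4 * 1 = 0 := by norm_num
    rw [h3]
    constructor
    · intro h
      exact pow_eq_zero_iff (two_ne_zero) |>.1 ((mul_eq_zero.1 h).resolve_left hτ)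
    · rintro rfl; ring
  rw [h1, Finset.sum_singleton, if_neg]
  · have h2 : (τ * 2 + (τ ^ 2 - 4 * (α * β)) * 0) * 2⁻¹ = τ := by
      have := S.two_ne
      field_simp
      ring
    rw [h2, zero_add]
    exact add_self _
  · rintro ⟨h4, h5, _⟩
    subst h4
    apply hτ
    rcases h5 with h5 | h5
    · rw [hα, ← h5]; ring
    · have : τ = -2 := by linear_combination h5
      rw [hα, this]; ring

lemma D_mul_z (α β τ : F) (hα : α * α = 1) (hβ : β * β = 1) (hτ : τ ^ 2 - 4 * (α * β) ≠ 0) :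
    S.D α β τ * S.z β = 0 := by
  have h1 := S.z_mul_D α β τ hα hβ hτ
  rw [z, add_mul, e_mul_D] at h1
  rw [z, mul_add, D_mul_e, D_comm _ _ _ _ _ _ hα hβ hβ]
  have h2 : α * β * β = α := by linear_combination α * hβ
  rw [h2]
  exact h1

/-- the elements of the torus form -/
noncomputable def X (α β : F) (j : ℤ) : MonoidAlgebra k G :=
  S.D α β (S.tau j) + if (8 * (S.c : ℤ)) ∣ j then S.e α else 0

lemma tau_add_dvd {j l : ℤ} (hl : (8 * (S.c : ℤ)) ∣ l) :
    S.tau (j + l) = S.tau j ∨ S.tau (j + l) = -S.tau j := by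
  obtain ⟨m, rfl⟩ := hl
  have h1 : S.zt ^ (8 * (S.c : ℤ) * m) = (-1) ^ m := by
    rw [zpow_mul, S.zt_half_z]
  have h1' : S.zt ^ (-(8 * (S.c : ℤ) * m)) = (-1) ^ m := by
    rw [zpow_neg, h1, ← inv_zpow, inv_neg, inv_one]
  have h2 : ((-1 : AlgebraicClosure F)) ^ (8 * (S.c : ℤ) * m) = 1 :=
    Even.neg_one_zpow ⟨4 * S.c * m, by ring⟩
  have h3 : algebraMap F (AlgebraicClosure F) (S.tau (j + 8 * S.c * m)) =
      (-1) ^ m * (S.zt ^ j + (-1) ^ j * S.zt ^ (-j)) := by
    rw [map_tau, neg_add, zpow_add₀ S.zt_ne, zpow_add₀ S.zt_ne, zpow_add₀ (by norm_num), h1, h1',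
      h2]
    ring
  rcases Int.even_or_odd m with hm | hm
  · left
    apply map_inj'
    rw [h3, map_tau, hm.neg_one_zpow, one_mul]
  · right
    apply map_inj'
    rw [h3, map_neg, map_tau, hm.neg_one_zpow, neg_one_mul]

lemma tau_neg (j : ℤ) : S.tau (-j) = S.tau j ∨ S.tau (-j) = -S.tau j := by
  have h2 : ((-1 : AlgebraicClosure F)) ^ (-j) = (-1) ^ j := by
    rw [← map_sg, ← map_sg, sg_neg]
  have h3 : algebraMap F (AlgebraicClosure F) (S.tau (-j)) =
      (-1) ^ j * (S.zt ^ j + (-1) ^ j * S.zt ^ (-j)) := by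
    rw [map_tau, neg_neg, h2]
    linear_combination (-S.zt ^ (-j)) * sgK_sq (F := F) j
  rcases Int.even_or_odd j with hm | hm
  · left
    apply map_inj'
    rw [h3, map_tau, hm.neg_one_zpow, one_mul]
  · right
    apply map_inj'
    rw [h3, map_neg, map_tau, hm.neg_one_zpow, neg_one_mul]

lemma X_add_dvd (α β : F) {j l : ℤ} (hl : (8 * (S.c : ℤ)) ∣ l) : S.X α β (j + l) = S.X α β j := by
  unfold X
  have h1 : (8 * (S.c : ℤ)) ∣ j + l ↔ (8 * (S.c : ℤ)) ∣ j := (Int.dvd_add_left hl)
  congr 1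
  · rcases S.tau_add_dvd (j := j) hl with h | h
    · rw [h]
    · rw [h, D_neg]
  · simp only [h1]

lemma X_neg (α β : F) (j : ℤ) : S.X α β (-j) = S.X α β j := by
  unfold X
  congr 1
  · rcases S.tau_neg j with h | h
    · rw [h]
    · rw [h, D_neg]
  · simp only [Int.dvd_neg]

lemma X_dvd (α β : F) {j : ℤ} (hj : (8 * (S.c : ℤ)) ∣ j) : S.X α β j = S.e α + S.D α β 2 := by
  have h1 := S.X_add_dvd α β (j := 0) hj
  rw [zero_add] at h1
  rw [h1, X, if_pos (dvd_zero _), add_comm]
  congr 2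
  apply map_inj'
  rw [map_tau]
  simp only [zpow_zero, neg_zero, mul_one]
  rw [map_ofNat]
  norm_num

lemma X_of_not_dvd (α β : F) {j : ℤ} (hj : ¬ (8 * (S.c : ℤ)) ∣ j) : S.X α β j = S.D α β (S.tau j) := by
  rw [X, if_neg hj, add_zero]

lemma disc_ne (j : ℤ) (hj : ¬ (8 * (S.c : ℤ)) ∣ j) : (S.tau j) ^ 2 - 4 * sg F j ≠ 0 := by
  intro h
  have h1 := S.tau_sq_sub j
  rw [h, map_zero] at h1
  exact S.dif_ne hj (pow_eq_zero_iff (two_ne_zero) |>.1 h1.symm)

lemma zt_pm_iff (m : ℤ) : (S.zt ^ m = 1 ∨ S.zt ^ m = -1) ↔ (8 * (S.c : ℤ)) ∣ m := by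
  rw [← S.zt_sq_iff]
  have h1 : S.zt ^ (2 * m) = S.zt ^ m * S.zt ^ m := by
    rw [← zpow_add₀ S.zt_ne]; congr 1; ring
  rw [h1]
  constructor
  · rintro (h | h) <;> rw [h] <;> norm_num
  · intro h
    have : (S.zt ^ m - 1) * (S.zt ^ m + 1) = 0 := by linear_combination h
    rcases mul_eq_zero.1 this with h2 | h2
    · left; linear_combination h2
    · right; linear_combination h2

lemma or_aux1 (P Q R T : Prop) : ((P ∨ Q) ∨ (R ∨ T)) ↔ ((Q ∨ T) ∨ (P ∨ R)) := by tauto
lemma or_aux2 (P Q R T : Prop) : ((P ∨ T) ∨ (R ∨ Q)) ↔ ((Q ∨ T) ∨ (P ∨ R)) := by tauto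

/-- when are two traces equal up to sign -/
lemma tau_eq_iff {j l : ℤ} (hjl : sg F j = sg F l) :
    (S.tau j = S.tau l ∨ S.tau j = -S.tau l) ↔
      ((8 * (S.c : ℤ)) ∣ j + l ∨ (8 * (S.c : ℤ)) ∣ j - l) := by
  have hs : (-1 : AlgebraicClosure F) ^ j = (-1) ^ l := by
    rw [← map_sg, ← map_sg, hjl]
  have hj0 : S.zt ^ j * S.zt ^ (-j) = 1 := by
    rw [← zpow_add₀ S.zt_ne, add_neg_cancel, zpow_zero]
  have hl0 : S.zt ^ l * S.zt ^ (-l) = 1 := by
    rw [← zpow_add₀ S.zt_ne, add_neg_cancel, zpow_zero]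
  have ha : S.zt ^ (j + l) = S.zt ^ j * S.zt ^ l := zpow_add₀ S.zt_ne _ _
  have hb : S.zt ^ (j - l) = S.zt ^ j * S.zt ^ (-l) := by rw [sub_eq_add_neg, zpow_add₀ S.zt_ne]
  have hss := sgK_sq (F := F) l
  set A := S.zt ^ j with hA
  set A' := S.zt ^ (-j) with hA'
  set B := S.zt ^ l with hB
  set B' := S.zt ^ (-l) with hB'
  set s := (-1 : AlgebraicClosure F) ^ l with hsdef
  have hA'0 : A' ≠ 0 := by rintro h; rw [h, mul_zero] at hj0; exact zero_ne_one hj0
  have hB'0 : B' ≠ 0 := by rintro h; rw [h, mul_zero] at hl0; exact zero_ne_one hl0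
  have hB0 : B ≠ 0 := by rintro h; rw [h, zero_mul] at hl0; exact zero_ne_one hl0
  have hspm : s = 1 ∨ s = -1 := by
    have : (s - 1) * (s + 1) = 0 := by linear_combination hss
    rcases mul_eq_zero.1 this with h2 | h2
    · left; linear_combination h2
    · right; linear_combination h2
  have e1 : S.tau j = S.tau l ↔ (A * B' = 1 ∨ A * B = s) := by
    have h1 : S.tau j = S.tau l ↔ (A * B' - 1) * (A * B - s) = 0 := by
      constructor
      · intro h
        have h2 := congrArg (algebraMap F (AlgebraicClosure F)) h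
        rw [map_tau, map_tau, hs] at h2
        -- A + s A' = B + s B'
        have h3 : (A * B' - 1) * (A * B - s) = A * ((A + s * A') - (B + s * B')) := by
          linear_combination A * A * hl0 - s * hj0
        rw [h3]
        rw [show (A + s * A') = (B + s * B') from h2]
        ring
      · intro h
        apply map_inj'
        rw [map_tau, map_tau, hs]
        have h3 : A * ((A + s * A') - (B + s * B')) = 0 := by
          rw [← h]
          linear_combination (-A * A) * hl0 + s * hj0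
        have hA0 : A ≠ 0 := by rintro h; rw [h, zero_mul] at hj0; exact zero_ne_one hj0
        have := (mul_eq_zero.1 h3).resolve_left hA0
        linear_combination this
    rw [h1, mul_eq_zero, sub_eq_zero, sub_eq_zero]
  have e2 : S.tau j = -S.tau l ↔ (A * B' = -1 ∨ A * B = -s) := by
    have h1 : S.tau j = -S.tau l ↔ (A * B' + 1) * (A * B + s) = 0 := by
      constructor
      · intro h
        have h2 := congrArg (algebraMap F (AlgebraicClosure F)) h
        rw [map_neg, map_tau, map_tau, hs] at h2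
        have h3 : (A * B' + 1) * (A * B + s) = A * ((A + s * A') + (B + s * B')) := by
          linear_combination A * A * hl0 - s * hj0
        rw [h3]
        rw [show (A + s * A') = -(B + s * B') from h2]
        ring
      · intro h
        apply map_inj'
        rw [map_neg, map_tau, map_tau, hs]
        have h3 : A * ((A + s * A') + (B + s * B')) = 0 := by
          rw [← h]
          linear_combination (-A * A) * hl0 + s * hj0
        have hA0 : A ≠ 0 := by rintro h; rw [h, zero_mul] at hj0; exact zero_ne_one hj0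
        have := (mul_eq_zero.1 h3).resolve_left hA0
        linear_combination this
    rw [h1, mul_eq_zero]
    constructor
    · rintro (h | h)
      · left; linear_combination h
      · right; linear_combination h
    · rintro (h | h)
      · left; linear_combination h
      · right; linear_combination h
  rw [e1, e2, ← zt_pm_iff, ← zt_pm_iff, ha, hb]
  rcases hspm with h | h
  · rw [h]; exact or_aux1 _ _ _ _
  · rw [h, neg_neg]; exact or_aux2 _ _ _ _


lemma sg_mul_pm (l : ℤ) : sg F l = 1 ∨ sg F l = -1 := by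
  have h := sg_sq (F := F) l
  have : (sg F l - 1) * (sg F l + 1) = 0 := by linear_combination h
  rcases mul_eq_zero.1 this with h2 | h2
  · left; linear_combination h2
  · right; linear_combination h2

lemma tau_zero_aux {j l : ℤ} (hj : ¬ (8 * (S.c : ℤ)) ∣ j) (h1 : (8 * (S.c : ℤ)) ∣ j + l)
    (h2 : (8 * (S.c : ℤ)) ∣ j - l) : S.tau j = 0 := by
  obtain ⟨m, hm⟩ : (8 * (S.c : ℤ)) ∣ 2 * j := by
    have h3 := dvd_add h1 h2
    have h4 : j + l + (j - l) = 2 * j := by ring
    rwa [h4] at h3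
  have hmo : Odd m := by
    rw [← Int.not_even_iff_odd]
    rintro ⟨r, hr⟩
    apply hj
    refine ⟨r, ?_⟩
    rw [hr] at hm
    linarith
  have h3 : S.zt ^ (2 * j) = -1 := by
    rw [hm, zpow_mul, S.zt_half_z, hmo.neg_one_zpow]
  have h4 : Even j := by
    refine ⟨2 * S.c * m, ?_⟩
    linarith
  apply map_inj'
  rw [map_tau, h4.neg_one_zpow, one_mul, map_zero]
  have h5 : S.zt ^ (2 * j) = S.zt ^ j * S.zt ^ j := by
    rw [← zpow_add₀ S.zt_ne]; congr 1; ring
  have hj0 : S.zt ^ j * S.zt ^ (-j) = 1 := by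
    rw [← zpow_add₀ S.zt_ne, add_neg_cancel, zpow_zero]
  have h6 : S.zt ^ j * (S.zt ^ j + S.zt ^ (-j)) = 0 := by
    rw [h5] at h3
    linear_combination h3 + hj0
  exact (mul_eq_zero.1 h6).resolve_left (zpow_ne_zero _ S.zt_ne)

lemma tau_ne_zero_aux {j l : ℤ} (hjl : sg F j = sg F l) (h0 : S.tau j = 0)
    (h : S.tau j = S.tau l ∨ S.tau j = -S.tau l) :
    (8 * (S.c : ℤ)) ∣ j + l ∧ (8 * (S.c : ℤ)) ∣ j - l := by
  have hl0 : S.tau l = 0 := by
    rcases h with h | h
    · rw [← h, h0]
    · rw [h0] at h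
      linear_combination h
  have hs : (-1 : AlgebraicClosure F) ^ j = (-1) ^ l := by
    rw [← map_sg, ← map_sg, hjl]
  have e1 : ∀ m : ℤ, S.tau m = 0 → S.zt ^ (2 * m) = -(-1) ^ m := by
    intro m hm
    have h1 := congrArg (algebraMap F (AlgebraicClosure F)) hm
    rw [map_tau, map_zero] at h1
    have hj0 : S.zt ^ m * S.zt ^ (-m) = 1 := by
      rw [← zpow_add₀ S.zt_ne, add_neg_cancel, zpow_zero]
    have h5 : S.zt ^ (2 * m) = S.zt ^ m * S.zt ^ m := by
      rw [← zpow_add₀ S.zt_ne]; congr 1; ring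
    rw [h5]
    linear_combination S.zt ^ m * h1 - (-1) ^ m * hj0
  have e2 := e1 j h0
  have e3 := e1 l hl0
  have hss := sgK_sq (F := F) l
  constructor
  · rw [← zt_sq_iff, mul_add, zpow_add₀ S.zt_ne, e2, e3, hs]
    linear_combination hss
  · rw [← zt_sq_iff, mul_sub, zpow_sub₀ S.zt_ne, e2, e3, hs, div_self]
    intro h
    have : (-1 : AlgebraicClosure F) ^ l = 0 := by linear_combination -h
    rw [this] at hss
    simp at hss

/-- **Torus form of the multiplication rule.** -/
theorem X_mul_X (α β γ : F) (j l : ℤ) (hα : α * α = 1) (hβ : β = α * sg F j)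
    (hγ : γ = β * sg F l) :
    S.X α β j * S.X β γ l = S.X α γ (j + l) + S.X α γ (j - l) := by
  have hβ2 : β * β = 1 := by rw [hβ]; linear_combination sg F j * sg F j * hα + sg_sq (F := F) j
  have hγ2 : γ * γ = 1 := by rw [hγ]; linear_combination sg F l * sg F l * hβ2 + sg_sq (F := F) l
  have hαβ : α * β = sg F j := by rw [hβ]; linear_combination sg F j * hα
  have hβγ : β * γ = sg F l := by rw [hγ]; linear_combination sg F l * hβ2
  by_cases hl : (8 * (S.c : ℤ)) ∣ l
  · have hl1 : sg F l = 1 := sg_even (by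
      obtain ⟨m, rfl⟩ := hl
      exact ⟨4 * S.c * m, by ring⟩)
    have hγβ : γ = β := by rw [hγ, hl1, mul_one]
    subst hγβ
    rw [S.X_add_dvd α γ hl, sub_eq_add_neg, S.X_add_dvd α γ ((Int.dvd_neg).2 hl), add_self,
      S.X_dvd γ γ hl]
    by_cases hj : (8 * (S.c : ℤ)) ∣ j
    · have hj1 : sg F j = 1 := sg_even (by
        obtain ⟨m, rfl⟩ := hj
        exact ⟨4 * S.c * m, by ring⟩)
      have hγα : γ = α := by rw [hβ, hj1, mul_one]
      rw [hγα, S.X_dvd α α hj]
      exact S.z_mul_z α hα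
    · rw [S.X_of_not_dvd _ _ hj]
      exact S.D_mul_z α γ _ hα hβ2 (by rw [hαβ]; exact S.disc_ne j hj)
  · by_cases hj : (8 * (S.c : ℤ)) ∣ j
    · have hj1 : sg F j = 1 := sg_even (by
        obtain ⟨m, rfl⟩ := hj
        exact ⟨4 * S.c * m, by ring⟩)
      have hβα : β = α := by rw [hβ, hj1, mul_one]
      subst hβα
      rw [add_comm j l, S.X_add_dvd β γ hj, sub_eq_add_neg, add_comm j (-l),
        S.X_add_dvd β γ hj, S.X_neg, add_self, S.X_dvd β β hj, S.X_of_not_dvd _ _ hl]
      exact S.z_mul_D β γ _ hα hγ2 (by rw [hβγ]; exact S.disc_ne l hl)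
    · rw [S.X_of_not_dvd _ _ hj, S.X_of_not_dvd _ _ hl]
      have hδ : (S.tau l) ^ 2 - 4 * (β * γ) ≠ 0 := by rw [hβγ]; exact S.disc_ne l hl
      rw [S.D_mul_D α β γ _ _ hα hβ2 hγ2 hδ, hαβ, hβγ]
      rw [hβγ] at hδ
      have hdl := S.dif_ne hl
      have hdj := S.dif_ne hj
      obtain ⟨Z0, hZ0⟩ : ∃ Z0 : F, algebraMap F (AlgebraicClosure F) Z0 =
          (S.zt ^ j - (-1) ^ j * S.zt ^ (-j)) / (S.zt ^ l - (-1) ^ l * S.zt ^ (-l)) := by
        apply mem_of_frob
        have hfr : ∀ m : ℤ, (S.zt ^ m - (-1) ^ m * S.zt ^ (-m)) ^ (Fintype.card F) =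
            -(S.zt ^ m - (-1) ^ m * S.zt ^ (-m)) := by
          intro m
          have h1 : S.zt ^ m = (S.zt ^ m - (-1) ^ m * S.zt ^ (-m)) + (-1) ^ m * S.zt ^ (-m) := by
            ring
          have h2 := S.frob_zt m
          rw [h1, frob_add, frob_zt'] at h2
          linear_combination h2
        rw [div_pow, hfr, hfr, neg_div_neg_eq]
      have hZ0ne : Z0 ≠ 0 := by
        rintro rfl
        rw [map_zero] at hZ0
        exact (div_ne_zero hdj hdl) hZ0.symm
      have hδZ : ((S.tau l) ^ 2 - 4 * sg F l) * Z0 ^ 2 = (S.tau j) ^ 2 - 4 * sg F j := by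
        apply map_inj'
        rw [map_mul, map_pow, S.tau_sq_sub, S.tau_sq_sub, hZ0]
        field_simp
      have hset : (Finset.univ.filter (fun Z : F => ((S.tau l) ^ 2 - 4 * sg F l) * Z ^ 2 =
          (S.tau j) ^ 2 - 4 * sg F j)) = {Z0, -Z0} := by
        ext Z
        simp only [Finset.mem_filter, Finset.mem_univ, true_and, Finset.mem_insert,
          Finset.mem_singleton]
        rw [← hδZ, mul_right_inj' hδ]
        exact sq_eq_sq_iff_eq_or_eq_neg
      rw [hset, Finset.sum_pair (by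
        intro h
        have h2 : 2 * Z0 = 0 := by linear_combination h
        exact hZ0ne ((mul_eq_zero.1 h2).resolve_left S.two_ne))]
      have h2K : (2 : AlgebraicClosure F) ≠ 0 := by
        intro h
        apply S.two_ne
        apply map_inj'
        rw [map_ofNat, h, map_zero]
      have hmul0 : ∀ m : ℤ, S.zt ^ m * S.zt ^ (-m) = 1 := fun m => by
        rw [← zpow_add₀ S.zt_ne, add_neg_cancel, zpow_zero]
      have hjj := hmul0 j
      have hll := hmul0 l
      have hv1 : (S.tau l * S.tau j + (S.tau l ^ 2 - 4 * sg F l) * Z0) * 2⁻¹ = S.tau (j + l) := by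
        apply map_inj'
        rw [map_mul, map_add, map_mul, map_mul, S.tau_sq_sub, hZ0, map_inv₀, map_ofNat, map_tau,
          map_tau, map_tau, neg_add, zpow_add₀ S.zt_ne, zpow_add₀ S.zt_ne,
          zpow_add₀ (by norm_num : (-1 : AlgebraicClosure F) ≠ 0)]
        field_simp
        ring
      have hv2 : (S.tau l * S.tau j + (S.tau l ^ 2 - 4 * sg F l) * (-Z0)) * 2⁻¹ =
          sg F l * S.tau (j - l) := by
        apply map_inj'
        have hss := sgK_sq (F := F) l
        rw [map_mul, map_add, map_mul, map_mul, S.tau_sq_sub, map_neg, hZ0, map_inv₀, map_ofNat,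
          map_mul, map_sg, map_tau,
          map_tau, map_tau, neg_sub, sub_eq_add_neg j l, sub_eq_add_neg l j, zpow_add₀ S.zt_ne,
          zpow_add₀ S.zt_ne,
          zpow_add₀ (by norm_num : (-1 : AlgebraicClosure F) ≠ 0)]
        have hml : (-1 : AlgebraicClosure F) ^ (-l) = (-1) ^ l := by
          rw [← map_sg, ← map_sg, sg_neg]
        rw [hml]
        field_simp
        linear_combination (-2 * (-1) ^ j * S.zt ^ (-j) * S.zt ^ l) * hss
      rw [hv1, hv2]
      have hD : S.D α γ (sg F l * S.tau (j - l)) = S.D α γ (S.tau (j - l)) := by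
        rcases sg_mul_pm (F := F) l with h | h
        · rw [h, one_mul]
        · rw [h, neg_one_mul, D_neg]
      rw [hD]
      unfold X
      have hT : (if α = γ ∧ (S.tau j = S.tau l ∨ S.tau j = -S.tau l) ∧ S.tau j ≠ 0 then S.e α
          else 0) = (if (8 * (S.c : ℤ)) ∣ j + l then S.e α else 0) +
            (if (8 * (S.c : ℤ)) ∣ j - l then S.e α else 0) := by
        by_cases hag : sg F j = sg F l
        · have hαγ : α = γ := by
            rw [hγ, hβ, hag]
            linear_combination (-α) * sg_sq (F := F) l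
          have htau := S.tau_eq_iff hag
          by_cases h1 : (8 * (S.c : ℤ)) ∣ j + l
          · by_cases h2 : (8 * (S.c : ℤ)) ∣ j - l
            · rw [if_neg, if_pos h1, if_pos h2, add_self]
              rintro ⟨_, _, h3⟩
              exact h3 (S.tau_zero_aux hj h1 h2)
            · rw [if_pos, if_pos h1, if_neg h2, add_zero]
              refine ⟨hαγ, htau.2 (Or.inl h1), ?_⟩
              intro h3
              exact h2 (S.tau_ne_zero_aux hag h3 ((S.tau_eq_iff hag).2 (Or.inl h1))).2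
          · by_cases h2 : (8 * (S.c : ℤ)) ∣ j - l
            · rw [if_pos, if_neg h1, if_pos h2, zero_add]
              refine ⟨hαγ, htau.2 (Or.inr h2), ?_⟩
              intro h3
              exact h1 (S.tau_ne_zero_aux hag h3 ((S.tau_eq_iff hag).2 (Or.inr h2))).1
            · rw [if_neg, if_neg h1, if_neg h2, add_zero]
              rintro ⟨_, h3, _⟩
              rcases htau.1 h3 with h3 | h3
              · exact h1 h3
              · exact h2 h3
        · have hodd : ∀ m : ℤ, (8 * (S.c : ℤ)) ∣ m → sg F m = 1 := by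
            intro m hm
            apply sg_even
            obtain ⟨r, rfl⟩ := hm
            exact ⟨4 * S.c * r, by ring⟩
          rw [if_neg, if_neg, if_neg, add_zero]
          · intro h
            have := hodd _ h
            rw [sg_sub] at this
            apply hag
            linear_combination sg F l * this - sg F j * sg_sq (F := F) l
          · intro h
            have := hodd _ h
            rw [sg_add] at this
            apply hag
            linear_combination sg F l * this - sg F j * sg_sq (F := F) l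
          · rintro ⟨h, _⟩
            apply hag
            rw [hγ, hβ] at h
            have h3 : α * (sg F j * sg F l - 1) = 0 := by linear_combination -h
            have hα0 : α ≠ 0 := by rintro rfl; simp at hα
            have h4 := (mul_eq_zero.1 h3).resolve_left hα0
            linear_combination sg F l * h4 - sg F j * sg_sq (F := F) l
      rw [hT]
      abel

end Setup
end Cartan76
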