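import Mathlib
import Pool.Agent.Cartan76.Torus

/-!
# Fourier transform over the odd part of the non-split torus
-/

set_option linter.unusedSectionVars false

open Finset

namespace Cartan76
namespace Setup
variable {F k G : Type*} [Field F] [Fintype F] [DecidableEq F] [Field k] [CharP k 2] [Group G]
variable (S : Setup F k G)

instance : NeZero S.c := ⟨S.c_pos.ne'⟩

/-- `i ↦ X (j + 8 i)` as a function on `ZMod c` -/
noncomputable def XZ (α β : F) (j : ℤ) (i : ZMod S.c) : MonoidAlgebra k G :=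
  S.X α β (j + 8 * (i.val : ℤ))

lemma XZ_cast (α β : F) (j n : ℤ) : S.XZ α β j (n : ZMod S.c) = S.X α β (j + 8 * n) := by
  unfold XZ
  rw [ZMod.val_intCast]
  have h1 : j + 8 * (n % (S.c : ℤ)) = (j + 8 * n) + 8 * (n % (S.c : ℤ) - n) := by ring
  rw [h1]
  apply S.X_add_dvd
  apply mul_dvd_mul_left
  have := Int.emod_emod_of_dvd n (dvd_refl (S.c : ℤ))
  exact Int.ModEq.dvd (Int.mod_modEq n S.c).symm

lemma XZ_zero (α β : F) (j : ℤ) : S.XZ α β j 0 = S.X α β j := by
  have := S.XZ_cast α β j 0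
  simpa using this

lemma int_cast_val (i : ZMod S.c) : (((i.val : ℕ) : ℤ) : ZMod S.c) = i := by
  simp

lemma XZ_mul (α β γ : F) (j l : ℤ) (i i' : ZMod S.c) (hα : α * α = 1) (hβ : β = α * sg F j)
    (hγ : γ = β * sg F l) :
    S.XZ α β j i * S.XZ β γ l i' = S.XZ α γ (j + l) (i + i') + S.XZ α γ (j - l) (i - i') := by
  have h8 : ∀ n : ℤ, sg F (8 * n) = 1 := fun n => sg_even ⟨4 * n, by ring⟩
  have h1 : i + i' = (((i.val : ℤ) + (i'.val : ℤ) : ℤ) : ZMod S.c) := by
    push_cast; simp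
  have h2 : i - i' = (((i.val : ℤ) - (i'.val : ℤ) : ℤ) : ZMod S.c) := by
    push_cast; simp
  rw [h1, h2, XZ_cast, XZ_cast]
  unfold XZ
  rw [S.X_mul_X α β γ _ _ hα (by rw [hβ, sg_add, h8, mul_one]) (by rw [hγ, sg_add, h8, mul_one])]
  congr 2 <;> ring

lemma XZ_neg (α β : F) (j : ℤ) (i : ZMod S.c) : S.XZ α β (-j) (-i) = S.XZ α β j i := by
  have h1 : -i = ((-(i.val : ℤ) : ℤ) : ZMod S.c) := by
    push_cast; simp
  rw [h1, XZ_cast, XZ]
  rw [← X_neg]
  congr 1
  ring

lemma XZ_add (α β : F) (j : ℤ) (i : ZMod S.c) (n : ℤ) :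
    S.XZ α β (j + 8 * n) i = S.XZ α β j (i + n) := by
  have h1 : i + (n : ZMod S.c) = (((i.val : ℤ) + n : ℤ) : ZMod S.c) := by
    push_cast; simp
  rw [h1, XZ_cast, XZ]
  congr 1
  ring

/-- partial Fourier transform -/
noncomputable def J (χ : AddChar (ZMod S.c) k) (α β : F) (m : ZMod S.c) (j : ℤ) :
    MonoidAlgebra k G := ∑ i : ZMod S.c, χ (-(m * i)) • S.XZ α β j i

variable (χ : AddChar (ZMod S.c) k)

lemma J_neg (α β : F) (m : ZMod S.c) (j : ℤ) : S.J χ α β (-m) (-j) = S.J χ α β m j := by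
  unfold J
  refine Fintype.sum_equiv (Equiv.neg _) _ _ fun i => ?_
  simp only [Equiv.neg_apply]
  rw [← S.XZ_neg α β j (-i), neg_neg]
  congr 2
  ring

lemma J_add (α β : F) (m : ZMod S.c) (j n : ℤ) :
    S.J χ α β m (j + 8 * n) = χ (m * n) • S.J χ α β m j := by
  unfold J
  rw [Finset.smul_sum]
  refine Fintype.sum_equiv (Equiv.addRight (n : ZMod S.c)) _ _ fun i => ?_
  simp only [Equiv.coe_addRight]
  rw [XZ_add, smul_smul, ← AddChar.map_add_eq_mul]
  congr 2
  ring

lemma sum_chi (hχ : χ.IsPrimitive) (m : ZMod S.c) :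
    ∑ i : ZMod S.c, χ (i * m) = if m = 0 then 1 else 0 := by
  rw [AddChar.sum_mulShift m hχ]
  by_cases h : m = 0
  · rw [if_pos h, if_pos h]
    have : Fintype.card (ZMod S.c) = S.c := ZMod.card _
    rw [this]
    exact cast_odd S.hc
  · rw [if_neg h, if_neg h]; simp

/-- **Orthogonality**. -/
theorem J_mul_J (hχ : χ.IsPrimitive) (α β γ : F) (j l : ℤ) (m m' : ZMod S.c) (hα : α * α = 1)
    (hβ : β = α * sg F j) (hγ : γ = β * sg F l) :
    S.J χ α β m j * S.J χ β γ m' l = (if m = m' then S.J χ α γ m (j + l) else 0) +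
      (if m = -m' then S.J χ α γ m (j - l) else 0) := by
  have h1 : S.J χ α β m j * S.J χ β γ m' l = ∑ i' : ZMod S.c, ∑ i : ZMod S.c,
      (χ (-(m * i)) * χ (-(m' * i'))) • (S.XZ α γ (j + l) (i + i') + S.XZ α γ (j - l) (i - i')) := by
    unfold J
    rw [Finset.sum_mul, Finset.sum_comm]
    refine Finset.sum_congr rfl fun i _ => ?_
    rw [Finset.mul_sum]
    refine Finset.sum_congr rfl fun i' _ => ?_
    rw [smul_mul_assoc, mul_smul_comm, smul_smul, S.XZ_mul α β γ j l i i' hα hβ hγ]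
  rw [h1]
  simp only [smul_add, Finset.sum_add_distrib]
  have aux : ∀ (j' : ℤ) (s : ZMod S.c), ∑ i' : ZMod S.c, ∑ r : ZMod S.c,
      (χ (-(m * r)) * χ (i' * s)) • S.XZ α γ j' r = if s = 0 then S.J χ α γ m j' else 0 := by
    intro j' s
    rw [Finset.sum_comm]
    have h2 : ∀ r : ZMod S.c, ∑ i' : ZMod S.c, (χ (-(m * r)) * χ (i' * s)) • S.XZ α γ j' r =
        (if s = 0 then (1 : k) else 0) • (χ (-(m * r)) • S.XZ α γ j' r) := by
      intro r
      rw [← Finset.sum_smul, ← Finset.mul_sum, S.sum_chi χ hχ, smul_smul, mul_comm]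
    rw [Finset.sum_congr rfl fun r _ => h2 r, ← Finset.smul_sum]
    by_cases hs : s = 0
    · rw [if_pos hs, if_pos hs, one_smul]; rfl
    · rw [if_neg hs, if_neg hs, zero_smul]
  congr 1
  · have h3 : ∑ i' : ZMod S.c, ∑ i : ZMod S.c, (χ (-(m * i)) * χ (-(m' * i'))) •
        S.XZ α γ (j + l) (i + i') = ∑ i' : ZMod S.c, ∑ r : ZMod S.c,
      (χ (-(m * r)) * χ (i' * (m - m'))) • S.XZ α γ (j + l) r := by
      refine Finset.sum_congr rfl fun i' _ => ?_
      refine Fintype.sum_equiv (Equiv.addRight i') _ _ fun i => ?_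
      simp only [Equiv.coe_addRight]
      rw [← AddChar.map_add_eq_mul, ← AddChar.map_add_eq_mul]
      congr 2
      ring
    rw [h3, aux]
    simp only [sub_eq_zero]
  · have h3 : ∑ i' : ZMod S.c, ∑ i : ZMod S.c, (χ (-(m * i)) * χ (-(m' * i'))) •
        S.XZ α γ (j - l) (i - i') = ∑ i' : ZMod S.c, ∑ r : ZMod S.c,
      (χ (-(m * r)) * χ (i' * (-m - m'))) • S.XZ α γ (j - l) r := by
      refine Finset.sum_congr rfl fun i' _ => ?_
      refine Fintype.sum_equiv (Equiv.subRight i') _ _ fun i => ?_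
      simp only [Equiv.subRight_apply]
      rw [← AddChar.map_add_eq_mul, ← AddChar.map_add_eq_mul]
      congr 2
      ring
    rw [h3, aux]
    have h4 : (-m - m' = 0) ↔ (m = -m') := by
      constructor
      · intro h; linear_combination -h
      · intro h; linear_combination -h
    simp only [h4]

/-- Fourier inversion -/
lemma sum_J (hχ : χ.IsPrimitive) (α β : F) (j : ℤ) :
    ∑ m : ZMod S.c, S.J χ α β m j = S.X α β j := by
  unfold J
  rw [Finset.sum_comm]
  have h2 : ∀ i : ZMod S.c, ∑ m : ZMod S.c, χ (-(m * i)) • S.XZ α β j i =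
      if i = 0 then S.X α β j else 0 := by
    intro i
    rw [← Finset.sum_smul]
    have : ∑ m : ZMod S.c, χ (-(m * i)) = ∑ m : ZMod S.c, χ (m * (-i)) := by
      refine Finset.sum_congr rfl fun m _ => ?_
      congr 1; ring
    rw [this, S.sum_chi χ hχ]
    by_cases hi : i = 0
    · subst hi; simp [XZ_zero]
    · rw [if_neg (neg_ne_zero.2 hi), if_neg hi, zero_smul]
  rw [Finset.sum_congr rfl fun i _ => h2 i]
  simp

lemma two_mul_zmod {i : ZMod S.c} (h : i + i = 0) : i = 0 := by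
  have h1 : IsUnit ((2 : ℕ) : ZMod S.c) := by
    rw [ZMod.isUnit_iff_coprime]
    have := S.hc
    rw [Nat.coprime_two_left]
    exact Nat.odd_iff.2 this
  have h2 : ((2 : ℕ) : ZMod S.c) * i = 0 := by push_cast; linear_combination h
  exact (h1.mul_right_eq_zero).1 h2

lemma neg_ne_self {m : ZMod S.c} (hm : m ≠ 0) : m ≠ -m := by
  intro h
  exact hm (S.two_mul_zmod (by linear_combination h))

lemma J_zero_zero (α β : F) : S.J χ α β 0 0 = S.e α + S.D α β 2 := by
  unfold J
  rw [sum_fixed (fun x : MonoidAlgebra k G => add_self x) Finset.univ (fun i => -i) (by simp)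
    (by simp) _ ?_]
  · have : (Finset.univ.filter fun i : ZMod S.c => -i = i) = {0} := by
      ext i
      simp only [Finset.mem_filter, Finset.mem_univ, true_and, Finset.mem_singleton]
      constructor
      · intro h
        exact S.two_mul_zmod (by linear_combination -h)
      · rintro rfl; simp
    rw [this, Finset.sum_singleton, XZ_zero, S.X_dvd α β (dvd_zero _)]
    simp
  · intro i _
    have := S.XZ_neg α β 0 i
    rw [neg_zero] at this
    rw [this]
    simp

lemma tau_4c : S.tau (4 * S.c) = 0 := by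
  apply map_inj'
  have h4 : Even (4 * (S.c : ℤ)) := ⟨2 * S.c, by ring⟩
  rw [map_tau, h4.neg_one_zpow, one_mul, map_zero]
  have h5 : S.zt ^ (8 * (S.c : ℤ)) = S.zt ^ (4 * (S.c : ℤ)) * S.zt ^ (4 * (S.c : ℤ)) := by
    rw [← zpow_add₀ S.zt_ne]; congr 1; ring
  have hj0 : S.zt ^ (4 * (S.c : ℤ)) * S.zt ^ (-(4 * (S.c : ℤ))) = 1 := by
    rw [← zpow_add₀ S.zt_ne, add_neg_cancel, zpow_zero]
  have h6 : S.zt ^ (4 * (S.c : ℤ)) * (S.zt ^ (4 * (S.c : ℤ)) + S.zt ^ (-(4 * (S.c : ℤ)))) = 0 := by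
    have h3 := S.zt_half_z
    rw [h5] at h3
    linear_combination h3 + hj0
  exact (mul_eq_zero.1 h6).resolve_left (zpow_ne_zero _ S.zt_ne)

lemma J_zero_four (α β : F) : S.J χ α β 0 4 = 0 := by
  unfold J
  rw [sum_fixed (fun x : MonoidAlgebra k G => add_self x) Finset.univ (fun i => -1 - i) (by simp)
    (by intro i _; ring) _ ?_]
  · apply Finset.sum_eq_zero
    intro i hi
    simp only [Finset.mem_filter, Finset.mem_univ, true_and] at hi
    obtain ⟨d, hd⟩ : ∃ d : ℕ, S.c = 2 * d + 1 := ⟨S.c / 2, by have := S.hc; omega⟩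
    have h1 : i = ((d : ℤ) : ZMod S.c) := by
      have h2 : (i - d) + (i - d) = 0 := by
        have h3 : ((2 * d + 1 : ℕ) : ZMod S.c) = 0 := by
          rw [← hd]; exact ZMod.natCast_self _
        have h4 : (2 * (d : ZMod S.c) + 1) = 0 := by
          rw [← h3]
          push_cast
          rfl
        linear_combination -hi - h4
      have h5 := S.two_mul_zmod h2
      push_cast
      linear_combination h5
    rw [h1, XZ_cast]
    have h6 : (4 : ℤ) + 8 * d = 4 * S.c := by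
      have : (S.c : ℤ) = 2 * d + 1 := by exact_mod_cast hd
      rw [this]; ring
    rw [h6, X_of_not_dvd, tau_4c, D_zero, smul_zero]
    intro h7
    have h8 : (8 * (S.c : ℤ)) ≤ 4 * S.c := Int.le_of_dvd (by have := S.c_pos; positivity) h7
    have := S.c_pos
    omega
  · intro i _
    have h1 : (-1 - i : ZMod S.c) = ((-1 - (i.val : ℤ) : ℤ) : ZMod S.c) := by
      push_cast; simp
    have h2 : S.XZ α β 4 (-1 - i) = S.XZ α β 4 i := by
      rw [h1, XZ_cast, XZ, ← X_neg]
      congr 1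
      ring
    rw [h2]
    simp

end Setup
end Cartan76
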