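import Mathlib
import Pool.Agent.Cartan76.Four
import Pool.Agent.Cartan73.Corner2

/-!
# Corners of the Gelfand-Graev algebra
-/

set_option linter.unusedSectionVars false

open Finset Pool.Cartan73

namespace Cartan76
namespace Setup
variable {F k G : Type*} [Field F] [Fintype F] [DecidableEq F] [Field k] [CharP k 2] [Group G]
variable (S : Setup F k G)

/-! ### traces -/

lemma tr_e (α : F) : tr (S.e α) = 1 := by
  unfold e
  rw [tr_sum, Finset.sum_eq_single 0]
  · rw [tr_smul, tr_b, if_pos]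
    · simp
    · left; rw [u_zero]; rfl
  · intro x _ hx
    rw [tr_smul, tr_b, if_neg, mul_zero]
    rintro (h | h)
    · have := congrFun (congrFun h 0) 1
      rw [u01] at this
      exact hx (by simpa using this)
    · have := congrFun (congrFun h 0) 0
      rw [u00] at this
      have h2 : (2 : F) = 0 := by
        simp only [Matrix.neg_apply, Matrix.one_apply_eq] at this
        linear_combination this
      exact S.two_ne h2
  · simp

lemma tr_N (α β : F) (c : Fˣ) : tr (S.N α β c) = 0 := by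
  have h1 : S.N α β c = ∑ x : F, ∑ y : F, (S.ψ (-(α * x)) * S.ψ (-(β * y))) •
      S.b (u x * n c * u y) := by
    unfold N e
    simp only [Finset.sum_mul, Finset.mul_sum, smul_mul_assoc, mul_smul_comm, smul_smul, b_mul,
      Finset.smul_sum]
    rw [Finset.sum_comm]
    refine Finset.sum_congr rfl fun x _ => Finset.sum_congr rfl fun y _ => ?_
    rw [mul_comm]
  rw [h1, tr_sum]
  refine Finset.sum_eq_zero fun x _ => ?_
  rw [tr_sum]
  refine Finset.sum_eq_zero fun y _ => ?_
  rw [tr_smul, tr_b, if_neg, mul_zero]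
  have h10 : (u x * n c * u y).1 1 0 = c := by
    simp only [mul00, mul01, mul10, mul11, u00, u01, u10, u11, n00, n01, n10, n11]
    ring
  rintro (h | h)
  · rw [h] at h10
    simp at h10
    exact c.ne_zero h10.symm
  · rw [h] at h10
    simp at h10
    exact c.ne_zero h10.symm

lemma tr_D (α β τ : F) : tr (S.D α β τ) = 0 := by
  unfold D
  rw [tr_sum]
  refine Finset.sum_eq_zero fun x _ => ?_
  rw [tr_smul, tr_N, mul_zero]

lemma tr_X (α β : F) (j : ℤ) : tr (S.X α β j) = if (8 * (S.c : ℤ)) ∣ j then 1 else 0 := by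
  unfold X
  rw [tr_add, tr_D, zero_add]
  split_ifs
  · exact S.tr_e α
  · exact tr_zero

variable (χ : AddChar (ZMod S.c) k)

lemma tr_J_zero (α β : F) (m : ZMod S.c) : tr (S.J χ α β m 0) = 1 := by
  unfold J
  rw [tr_sum, Finset.sum_eq_single 0]
  · rw [tr_smul, XZ_zero, tr_X, if_pos (dvd_zero _)]
    simp
  · intro i _ hi
    rw [tr_smul, XZ, tr_X, if_neg, mul_zero]
    rw [zero_add]
    intro h
    have h1 : (S.c : ℤ) ∣ (i.val : ℤ) := (mul_dvd_mul_iff_left (by norm_num)).1 h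
    have h2 : S.c ∣ i.val := by exact_mod_cast h1
    have h3 := Nat.eq_zero_of_dvd_of_lt h2 (ZMod.val_lt i)
    exact hi ((ZMod.val_eq_zero i).1 h3)
  · simp

lemma tr_J_ne (α β : F) (m : ZMod S.c) {j : ℤ} (hj : ¬ (8 : ℤ) ∣ j) :
    tr (S.J χ α β m j) = 0 := by
  unfold J
  rw [tr_sum]
  refine Finset.sum_eq_zero fun i _ => ?_
  rw [tr_smul, XZ, tr_X, if_neg, mul_zero]
  intro h
  apply hj
  have h1 : (8 : ℤ) ∣ j + 8 * (i.val : ℤ) := (dvd_mul_right 8 _).trans h
  have h2 : (8 : ℤ) ∣ 8 * (i.val : ℤ) := dvd_mul_right _ _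
  exact (Int.dvd_add_left h2).1 h1

/-! ### left and right units -/

lemma X_mul_e (α β : F) (j : ℤ) (hβ : β = α * sg F j) :
    S.X α β j * S.e β = S.X α β j := by
  unfold X
  rw [add_mul, D_mul_e]
  by_cases h : (8 * (S.c : ℤ)) ∣ j
  · have hj1 : sg F j = 1 := sg_even (by
      obtain ⟨m, rfl⟩ := h
      exact ⟨4 * S.c * m, by ring⟩)
    rw [if_pos h, hβ, hj1, mul_one, e_idem]
  · rw [if_neg h, zero_mul]

lemma e_mul_X (α β : F) (j : ℤ) : S.e α * S.X α β j = S.X α β j := by
  unfold X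
  rw [mul_add, e_mul_D]
  split_ifs
  · rw [e_idem]
  · rw [mul_zero]

lemma J_mul_e (α β : F) (m : ZMod S.c) (j : ℤ) (hβ : β = α * sg F j) :
    S.J χ α β m j * S.e β = S.J χ α β m j := by
  unfold J
  rw [Finset.sum_mul]
  refine Finset.sum_congr rfl fun i _ => ?_
  rw [smul_mul_assoc]
  unfold XZ
  rw [X_mul_e]
  rw [sg_add, hβ, sg_even (j := 8 * (i.val : ℤ)) ⟨4 * i.val, by ring⟩, mul_one]

lemma e_mul_J (α β : F) (m : ZMod S.c) (j : ℤ) : S.e α * S.J χ α β m j = S.J χ α β m j := by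
  unfold J
  rw [Finset.mul_sum]
  refine Finset.sum_congr rfl fun i _ => ?_
  rw [mul_smul_comm]
  unfold XZ
  rw [e_mul_X]

/-! ### orthogonality with the split part -/

lemma disc_nonsq {l : ℤ} (hl : ¬ (8 * (S.c : ℤ)) ∣ l) (w : F) :
    w ^ 2 ≠ (S.tau l) ^ 2 - 4 * sg F l := by
  intro h
  have h1 := congrArg (algebraMap F (AlgebraicClosure F)) h
  rw [S.tau_sq_sub, map_pow] at h1
  have hd := S.dif_ne hl
  set d := S.zt ^ l - (-1) ^ l * S.zt ^ (-l) with hdd
  have hfr : d ^ (Fintype.card F) = -d := by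
    have h1 : S.zt ^ l = d + (-1) ^ l * S.zt ^ (-l) := by rw [hdd]; ring
    have h2 := S.frob_zt l
    rw [h1, frob_add, frob_zt'] at h2
    rw [hdd]
    rw [hdd] at h2
    linear_combination h2
  have hw : (algebraMap F (AlgebraicClosure F) w) ^ (Fintype.card F) =
      algebraMap F (AlgebraicClosure F) w := by
    rw [← map_pow, FiniteField.pow_card]
  have h2K : (2 : AlgebraicClosure F) ≠ 0 := by
    intro h
    apply S.two_ne
    apply map_inj'
    rw [map_ofNat, h, map_zero]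
  have hodd : Odd (Fintype.card F) := by
    have := S.hq
    rw [Nat.odd_iff]; omega
  rcases sq_eq_sq_iff_eq_or_eq_neg.1 h1 with h3 | h3
  · rw [h3, hfr] at hw
    have : 2 * d = 0 := by linear_combination -hw
    exact (mul_ne_zero h2K hd) this
  · rw [h3, hodd.neg_pow, hfr] at hw
    have : 2 * d = 0 := by linear_combination hw
    exact (mul_ne_zero h2K hd) this

lemma D_split_mul_X (α β γ τ r : F) (l : ℤ) (hα : α * α = 1) (hβ : β * β = 1)
    (hγ : γ = β * sg F l) (hr0 : r ≠ 0) (hr : r ^ 2 = τ ^ 2 - 4 * (α * β)) :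
    S.D α β τ * S.X β γ l = 0 := by
  have hγ2 : γ * γ = 1 := by rw [hγ]; linear_combination sg F l * sg F l * hβ + sg_sq (F := F) l
  have hβγ : β * γ = sg F l := by rw [hγ]; linear_combination sg F l * hβ
  have hτ : τ ^ 2 - 4 * (α * β) ≠ 0 := by rw [← hr]; exact pow_ne_zero 2 hr0
  by_cases hl : (8 * (S.c : ℤ)) ∣ l
  · have hl1 : sg F l = 1 := sg_even (by
      obtain ⟨m, rfl⟩ := hl
      exact ⟨4 * S.c * m, by ring⟩)
    have hγβ : γ = β := by rw [hγ, hl1, mul_one]
    subst hγβ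
    rw [S.X_dvd _ _ hl]
    exact S.D_mul_z α γ τ hα hβ hτ
  · rw [S.X_of_not_dvd _ _ hl]
    have hδ : (S.tau l) ^ 2 - 4 * (β * γ) ≠ 0 := by rw [hβγ]; exact S.disc_ne l hl
    rw [S.D_mul_D α β γ _ _ hα hβ hγ2 hδ]
    rw [if_neg, Finset.sum_eq_zero, add_zero]
    · intro Z hZ
      exfalso
      simp only [Finset.mem_filter, Finset.mem_univ, true_and] at hZ
      rw [← hr, hβγ] at hZ
      have hZ0 : Z ≠ 0 := by
        rintro rfl
        apply pow_ne_zero 2 hr0
        rw [← hZ]; ring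
      apply S.disc_nonsq hl (r / Z)
      field_simp
      linear_combination -hZ
    · rintro ⟨h1, h2, _⟩
      apply S.disc_nonsq hl r
      have h3 : τ ^ 2 = (S.tau l) ^ 2 := by
        rcases h2 with h2 | h2 <;> rw [h2]
        ring
      rw [hr, h3, ← hβγ, h1]
      ring

lemma X_mul_D_split (α β γ σ r : F) (j : ℤ) (hα : α * α = 1) (hβ : β = α * sg F j)
    (hγ : γ * γ = 1) (hr0 : r ≠ 0) (hr : r ^ 2 = σ ^ 2 - 4 * (β * γ)) :
    S.X α β j * S.D β γ σ = 0 := by
  have hβ2 : β * β = 1 := by rw [hβ]; linear_combination sg F j * sg F j * hα + sg_sq (F := F) j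
  have hαβ : α * β = sg F j := by rw [hβ]; linear_combination sg F j * hα
  have hδ : σ ^ 2 - 4 * (β * γ) ≠ 0 := by rw [← hr]; exact pow_ne_zero 2 hr0
  by_cases hj : (8 * (S.c : ℤ)) ∣ j
  · have hj1 : sg F j = 1 := sg_even (by
      obtain ⟨m, rfl⟩ := hj
      exact ⟨4 * S.c * m, by ring⟩)
    have hβα : β = α := by rw [hβ, hj1, mul_one]
    subst hβα
    rw [S.X_dvd _ _ hj]
    exact S.z_mul_D β γ σ hα hγ hδ
  · rw [S.X_of_not_dvd _ _ hj, S.D_mul_D α β γ _ _ hα hβ2 hγ hδ]
    rw [if_neg, Finset.sum_eq_zero, add_zero]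
    · intro Z hZ
      exfalso
      simp only [Finset.mem_filter, Finset.mem_univ, true_and] at hZ
      rw [← hr, hαβ] at hZ
      apply S.disc_nonsq hj (r * Z)
      rw [← hZ]; ring
    · rintro ⟨h1, h2, _⟩
      apply S.disc_nonsq hj r
      have h3 : σ ^ 2 = (S.tau j) ^ 2 := by
        rcases h2 with h2 | h2 <;> rw [h2]
        ring
      rw [hr, h3, ← hαβ, h1]
      ring

lemma D_split_mul_J (α β γ τ r : F) (m : ZMod S.c) (l : ℤ) (hα : α * α = 1) (hβ : β * β = 1)
    (hγ : γ = β * sg F l) (hr0 : r ≠ 0) (hr : r ^ 2 = τ ^ 2 - 4 * (α * β)) :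
    S.D α β τ * S.J χ β γ m l = 0 := by
  unfold J
  rw [Finset.mul_sum]
  refine Finset.sum_eq_zero fun i _ => ?_
  unfold XZ
  rw [mul_smul_comm, S.D_split_mul_X α β γ τ r _ hα hβ _ hr0 hr, smul_zero]
  rw [sg_add, hγ, sg_even (j := 8 * (i.val : ℤ)) ⟨4 * i.val, by ring⟩, mul_one]

lemma J_mul_D_split (α β γ σ r : F) (m : ZMod S.c) (j : ℤ) (hα : α * α = 1)
    (hβ : β = α * sg F j) (hγ : γ * γ = 1) (hr0 : r ≠ 0) (hr : r ^ 2 = σ ^ 2 - 4 * (β * γ)) :
    S.J χ α β m j * S.D β γ σ = 0 := by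
  unfold J
  rw [Finset.sum_mul]
  refine Finset.sum_eq_zero fun i _ => ?_
  unfold XZ
  rw [smul_mul_assoc, S.X_mul_D_split α β γ σ r _ hα _ hγ hr0 hr, smul_zero]
  rw [sg_add, hβ, sg_even (j := 8 * (i.val : ℤ)) ⟨4 * i.val, by ring⟩, mul_one]

lemma z_mul_J (hχ : χ.IsPrimitive) (α β : F) (m : ZMod S.c) (j : ℤ) (hα : α * α = 1)
    (hβ : β = α * sg F j) : S.z α * S.J χ α β m j = 0 := by
  have h0 : sg F 0 = 1 := by simp [sg]
  have h := S.J_mul_J χ hχ α α β 0 j 0 m hα (by rw [h0, mul_one]) hβ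
  rw [J_zero_zero] at h
  rw [z, h]
  by_cases hm : m = 0
  · subst hm
    have h1 := S.J_neg χ α β 0 j
    rw [neg_zero] at h1
    rw [if_pos rfl, if_pos neg_zero.symm, zero_add, zero_sub, h1, add_self]
  · rw [if_neg (Ne.symm hm), if_neg, add_zero]
    intro h1
    exact hm (by linear_combination h1)

lemma J_mul_z (hχ : χ.IsPrimitive) (α β : F) (m : ZMod S.c) (j : ℤ) (hα : α * α = 1)
    (hβ : β = α * sg F j) : S.J χ α β m j * S.z β = 0 := by
  have h0 : sg F 0 = 1 := by simp [sg]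
  have h := S.J_mul_J χ hχ α β β j 0 m 0 hα hβ (by rw [h0, mul_one])
  rw [J_zero_zero] at h
  rw [z, h]
  by_cases hm : m = 0
  · subst hm
    rw [if_pos rfl, if_pos neg_zero.symm, add_zero, sub_zero, add_self]
  · rw [if_neg hm, neg_zero, if_neg hm, add_zero]

/-! ### spanning and classification of traces -/

lemma corner_form (α β : F) (hα : α * α = 1) (hβ : β * β = 1) (y : MonoidAlgebra k G) :
    ∃ (r : k) (f : F → k), S.e α * y * S.e β = (if α = β then r • S.e α else 0) +
      ∑ τ : F, f τ • S.D α β τ := by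
  have hα0 : α ≠ 0 := by rintro rfl; simp at hα
  induction y using MonoidAlgebra.induction_linear with
  | zero => exact ⟨0, 0, by simp⟩
  | add a b ha hb =>
    obtain ⟨r, f, h1⟩ := ha
    obtain ⟨r', f', h2⟩ := hb
    refine ⟨r + r', f + f', ?_⟩
    rw [mul_add, add_mul, h1, h2]
    simp only [Pi.add_apply, add_smul, Finset.sum_add_distrib]
    split_ifs <;> abel
  | single g r =>
    have h0 : MonoidAlgebra.single g r = r • MonoidAlgebra.of k G g := by
      simp
    rw [h0, mul_smul_comm, smul_mul_assoc]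
    rcases S.of_bruhat g with ⟨a, x, h⟩ | ⟨c, x, y, h⟩
    · rw [h]
      have h1 : S.e α * (S.b (t a) * S.b (u x)) * S.e β = S.ψ (β * x) •
          (S.e α * S.b (t a) * S.e β) := by
        rw [mul_assoc, mul_assoc, S.bu_e, mul_smul_comm, mul_smul_comm, mul_assoc]
      rw [h1, S.e_t_e α β hα hβ]
      by_cases hab : α = β
      · by_cases ha : a = 1 ∨ a = -1
        · refine ⟨r * S.ψ (β * x), 0, ?_⟩
          rw [if_pos ⟨hab, ha⟩, if_pos hab, smul_smul]
          simp
        · refine ⟨0, 0, ?_⟩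
          rw [if_neg (fun h => ha h.2)]
          simp
      · refine ⟨0, 0, ?_⟩
        rw [if_neg (fun h => hab h.1)]
        simp
    · rw [h]
      have h1 : S.e α * (S.b (u x) * S.b (n c) * S.b (u y)) * S.e β =
          (S.ψ (α * x) * S.ψ (β * y)) • S.N α β c := by
        have : S.e α * (S.b (u x) * S.b (n c) * S.b (u y)) * S.e β =
          (S.e α * S.b (u x)) * S.b (n c) * (S.b (u y) * S.e β) := by simp only [mul_assoc]
        rw [this, e_bu, bu_e, N]
        simp only [smul_mul_assoc, mul_smul_comm, smul_smul]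
        congr 1
        ring
      rw [h1, S.N_eq_sum_D α β hα0]
      refine ⟨0, fun τ => r * (S.ψ (α * x) * S.ψ (β * y)) * S.ψ (-(α * τ * (c : F)⁻¹)), ?_⟩
      simp only [zero_smul, ite_self, zero_add, Finset.smul_sum, smul_smul, mul_assoc]

lemma tau_zero : S.tau 0 = 2 := by
  apply map_inj'
  rw [map_tau, map_ofNat]
  simp only [zpow_zero, neg_zero, mul_one]
  norm_num

lemma tau_8c : S.tau (8 * S.c) = -2 := by
  apply map_inj'
  have h2 : ((-1 : AlgebraicClosure F)) ^ (8 * (S.c : ℤ)) = 1 :=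
    Even.neg_one_zpow ⟨4 * S.c, by ring⟩
  rw [map_tau, map_neg, map_ofNat, h2, zpow_neg, S.zt_half_z]
  norm_num

lemma classify (τ s : F) (hs : s = 1 ∨ s = -1) :
    (∃ j : ℤ, sg F j = s ∧ S.tau j = τ) ∨ (∃ r : F, r ≠ 0 ∧ r ^ 2 = τ ^ 2 - 4 * s) := by
  classical
  obtain ⟨d, hd⟩ := IsAlgClosed.exists_pow_nat_eq
    (algebraMap F (AlgebraicClosure F) (τ ^ 2 - 4 * s)) (n := 2) (by norm_num)
  have h2K : (2 : AlgebraicClosure F) ≠ 0 := by
    intro h
    apply S.two_ne
    apply map_inj'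
    rw [map_ofNat, h, map_zero]
  have hodd : Odd (Fintype.card F) := by
    have := S.hq
    rw [Nat.odd_iff]; omega
  have hdq : (d ^ (Fintype.card F)) ^ 2 = d ^ 2 := by
    rw [← pow_mul, mul_comm, pow_mul, hd, ← map_pow, FiniteField.pow_card]
  rcases sq_eq_sq_iff_eq_or_eq_neg.1 hdq with h1 | h1
  · obtain ⟨r, hr⟩ := mem_of_frob h1
    have hr2 : r ^ 2 = τ ^ 2 - 4 * s := by
      apply map_inj'
      rw [map_pow, hr, hd]
    by_cases hr0 : r = 0
    · left
      rw [hr0] at hr2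
      have h3 : τ ^ 2 = 4 * s := by linear_combination -hr2
      rcases hs with rfl | rfl
      · have h4 : (τ - 2) * (τ + 2) = 0 := by linear_combination h3
        rcases mul_eq_zero.1 h4 with h5 | h5
        · exact ⟨0, by simp [sg], by rw [S.tau_zero]; linear_combination -h5⟩
        · refine ⟨8 * S.c, sg_even ⟨4 * S.c, by ring⟩, ?_⟩
          rw [S.tau_8c]; linear_combination -h5
      · exfalso
        apply S.hsq
        refine ⟨τ * 2⁻¹, ?_⟩
        have := S.two_ne
        field_simp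
        linear_combination -h3
    · right
      exact ⟨r, hr0, hr2⟩
  · left
    set T := algebraMap F (AlgebraicClosure F) τ with hT
    set s' := algebraMap F (AlgebraicClosure F) s with hs'
    have hd2 : d ^ 2 = T ^ 2 - 4 * s' := by
      rw [hd, map_sub, map_pow, map_mul, map_ofNat]
    set y := (T + d) * 2⁻¹ with hy
    have hyq : y ^ (Fintype.card F) = (T - d) * 2⁻¹ := by
      rw [hy, mul_pow, frob_add, h1, hT, ← map_pow, FiniteField.pow_card]
      have : (2⁻¹ : AlgebraicClosure F) ^ (Fintype.card F) = 2⁻¹ := by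
        have h3 : (2⁻¹ : AlgebraicClosure F) = algebraMap F (AlgebraicClosure F) 2⁻¹ := by
          rw [map_inv₀, map_ofNat]
        rw [h3, ← map_pow, FiniteField.pow_card]
      rw [this]
      ring
    have hys : y ^ (8 * S.c) = s' := by
      rw [← S.hq, pow_succ, hyq, hy]
      field_simp
      linear_combination -hd2
    have hs2 : s' ^ 2 = 1 := by
      rw [hs', ← map_pow]
      rcases hs with rfl | rfl <;> simp
    have hy16 : y ^ (16 * S.c) = 1 := by
      have : 16 * S.c = 8 * S.c * 2 := by ring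
      rw [this, pow_mul, hys, hs2]
    obtain ⟨i, _, hi⟩ := S.zt_prim.eq_pow_of_pow_eq_one hy16
    have hiz : S.zt ^ (i : ℤ) = y := by rw [zpow_natCast]; exact hi
    have hsi : (-1 : AlgebraicClosure F) ^ (i : ℤ) = s' := by
      rw [← hys, ← hi, ← pow_mul, mul_comm, pow_mul, S.zt_half, zpow_natCast]
    refine ⟨i, ?_, ?_⟩
    · apply map_inj'
      rw [map_sg, hsi]
    · apply map_inj'
      rw [map_tau, zpow_neg, hiz, hsi]
      have hy0 : y ≠ 0 := by rw [← hiz]; exact zpow_ne_zero _ S.zt_ne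
      have h5 : y ^ 2 - T * y + s' = 0 := by
        rw [hy]
        field_simp
        linear_combination hd2
      field_simp
      linear_combination h5

end Setup
end Cartan76
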