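import Mathlib
import Pool.Agent.Cartan76.EPart

/-!
# The idempotents `eps` of the non-split torus
-/

set_option linter.unusedSectionVars false

open Finset Pool.Cartan73

namespace Cartan76
namespace Setup
variable {F k G : Type*} [Field F] [Fintype F] [DecidableEq F] [Field k] [CharP k 2] [Group G]
variable (S : Setup F k G)
variable (χ : AddChar (ZMod S.c) k) (hχ : χ.IsPrimitive)

lemma sg_zero : sg F 0 = 1 := by simp [sg]

/-- the idempotent attached to a nontrivial character of the odd part of the torus -/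
noncomputable def eps (α : F) (m : ZMod S.c) : MonoidAlgebra k G := S.J χ α α m 0

include hχ

lemma eps_mul_J (α β : F) (m m' : ZMod S.c) (j : ℤ) (hα : α * α = 1) (hβ : β = α * sg F j)
    (hm : m ≠ 0) : S.eps χ α m * S.J χ α β m' j =
      if m' = m ∨ m' = -m then S.J χ α β m' j else 0 := by
  unfold eps
  rw [S.J_mul_J χ hχ α α β 0 j m m' hα (by rw [sg_zero, mul_one]) hβ]
  have hne := S.neg_ne_self hm
  rw [zero_add, zero_sub]
  by_cases h1 : m' = m
  · subst h1
    rw [if_pos rfl, if_neg hne, if_pos (Or.inl rfl), add_zero]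
  · by_cases h2 : m' = -m
    · subst h2
      rw [if_neg (Ne.symm h1), if_pos (neg_neg m).symm, if_pos (Or.inr rfl), zero_add]
      have := S.J_neg χ α β m j
      have h3 := S.J_neg χ α β (-m) j
      rw [neg_neg] at h3
      exact h3
    · rw [if_neg (Ne.symm h1), if_neg, if_neg, add_zero]
      · rintro (h | h)
        · exact h1 h
        · exact h2 h
      · intro h
        apply h2
        rw [h, neg_neg]

lemma J_mul_eps (α β : F) (m m' : ZMod S.c) (j : ℤ) (hα : α * α = 1) (hβ : β = α * sg F j)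
    (hm : m ≠ 0) : S.J χ α β m' j * S.eps χ β m =
      if m' = m ∨ m' = -m then S.J χ α β m' j else 0 := by
  unfold eps
  rw [S.J_mul_J χ hχ α β β j 0 m' m hα hβ (by rw [sg_zero, mul_one])]
  have hne := S.neg_ne_self hm
  rw [add_zero, sub_zero]
  by_cases h1 : m' = m
  · subst h1
    rw [if_pos rfl, if_neg hne, if_pos (Or.inl rfl), add_zero]
  · by_cases h2 : m' = -m
    · subst h2
      rw [if_neg h1, if_pos rfl, if_pos (Or.inr rfl), zero_add]
    · rw [if_neg h1, if_neg h2, if_neg, add_zero]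
      rintro (h | h)
      · exact h1 h
      · exact h2 h

lemma eps_idem (α : F) (hα : α * α = 1) {m : ZMod S.c} (hm : m ≠ 0) :
    S.eps χ α m * S.eps χ α m = S.eps χ α m := by
  nth_rewrite 2 [eps]
  rw [S.eps_mul_J χ hχ α α m m 0 hα (by rw [sg_zero, mul_one]) hm, if_pos (Or.inl rfl)]
  rfl

omit hχ in
lemma eps_neg (α : F) (m : ZMod S.c) : S.eps χ α (-m) = S.eps χ α m := by
  unfold eps
  have := S.J_neg χ α α m 0
  rwa [neg_zero] at this

lemma eps_orth (α : F) (hα : α * α = 1) {m m' : ZMod S.c} (hm : m ≠ 0) (h1 : m' ≠ m)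
    (h2 : m' ≠ -m) : S.eps χ α m * S.eps χ α m' = 0 := by
  nth_rewrite 2 [eps]
  rw [S.eps_mul_J χ hχ α α m m' 0 hα (by rw [sg_zero, mul_one]) hm, if_neg]
  rintro (h | h)
  · exact h1 h
  · exact h2 h

omit hχ in
lemma eps_ne (α : F) (m : ZMod S.c) : S.eps χ α m ≠ 0 := by
  intro h
  have := S.tr_J_zero χ α α m
  rw [eps] at h
  rw [h, tr_zero] at this
  exact zero_ne_one this

omit hχ in
lemma e_mul_eps (α : F) (m : ZMod S.c) : S.e α * S.eps χ α m = S.eps χ α m := S.e_mul_J χ α α m 0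

omit hχ in
lemma eps_mul_e (α : F) (m : ZMod S.c) : S.eps χ α m * S.e α = S.eps χ α m :=
  S.J_mul_e χ α α m 0 (by rw [sg_zero, mul_one])

/-- `eps * X` -/
lemma eps_mul_X (α β : F) (m : ZMod S.c) (j : ℤ) (hα : α * α = 1) (hβ : β = α * sg F j)
    (hm : m ≠ 0) : S.eps χ α m * S.X α β j = S.J χ α β m j + S.J χ α β (-m) j := by
  rw [← S.sum_J χ hχ α β j, Finset.mul_sum]
  have h1 : ∀ m' : ZMod S.c, S.eps χ α m * S.J χ α β m' j =
      if m' ∈ ({m, -m} : Finset (ZMod S.c)) then S.J χ α β m' j else 0 := by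
    intro m'
    rw [S.eps_mul_J χ hχ α β m m' j hα hβ hm]
    simp only [Finset.mem_insert, Finset.mem_singleton]
  rw [Finset.sum_congr rfl fun m' _ => h1 m', Finset.sum_ite_mem, Finset.univ_inter,
    Finset.sum_pair (S.neg_ne_self hm)]

omit hχ in
/-- the sign relation between `±1`s -/
lemma sign_prod {α β : F} (hα : α * α = 1) (hβ : β * β = 1) : α * β = 1 ∨ α * β = -1 := by
  have : (α * β - 1) * (α * β + 1) = 0 := by linear_combination β * β * hα + hβ
  rcases mul_eq_zero.1 this with h | h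
  · left; linear_combination h
  · right; linear_combination h

/-- membership of `eps * D` in the span of the `J m j` -/
lemma eps_mul_D (α β τ : F) (m : ZMod S.c) (hα : α * α = 1) (hβ : β * β = 1)
    (hm : m ≠ 0) : S.eps χ α m * S.D α β τ ∈ Submodule.span k
      {x | ∃ j : ℤ, β = α * sg F j ∧ x = S.J χ α β m j} := by
  rcases S.classify τ (α * β) (sign_prod hα hβ) with ⟨j, hj, rfl⟩ | ⟨r, hr0, hr⟩
  · have hβ' : β = α * sg F j := by rw [hj]; linear_combination (-β) * hα
    have h1 : S.D α β (S.tau j) = S.X α β j + if (8 * (S.c : ℤ)) ∣ j then S.e α else 0 := by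
      unfold X
      rw [add_assoc, add_self, add_zero]
    rw [h1, mul_add, S.eps_mul_X χ hχ α β m j hα hβ' hm]
    refine Submodule.add_mem _ (Submodule.add_mem _ ?_ ?_) ?_
    · exact Submodule.subset_span ⟨j, hβ', rfl⟩
    · refine Submodule.subset_span ⟨-j, by rw [sg_neg]; exact hβ', ?_⟩
      have := S.J_neg χ α β (-m) j
      rw [neg_neg] at this
      exact this.symm
    · by_cases h : (8 * (S.c : ℤ)) ∣ j
      · rw [if_pos h, S.eps_mul_e]
        have hj1 : sg F j = 1 := sg_even (by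
          obtain ⟨m, rfl⟩ := h
          exact ⟨4 * S.c * m, by ring⟩)
        have hαβ : β = α := by rw [hβ', hj1, mul_one]
        subst hαβ
        exact Submodule.subset_span ⟨0, by rw [sg_zero, mul_one], rfl⟩
      · rw [if_neg h, mul_zero]
        exact Submodule.zero_mem _
  · unfold eps
    rw [S.J_mul_D_split χ α α β τ r m 0 hα (by rw [sg_zero, mul_one]) hβ hr0 hr]
    exact Submodule.zero_mem _

/-- `eps α m * y * e β` is in the span of the `J m j` -/
lemma eps_mul_mul_e (α β : F) (m : ZMod S.c) (hα : α * α = 1) (hβ : β * β = 1)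
    (hm : m ≠ 0) (y : MonoidAlgebra k G) : S.eps χ α m * y * S.e β ∈ Submodule.span k
      {x | ∃ j : ℤ, β = α * sg F j ∧ x = S.J χ α β m j} := by
  have h1 : S.eps χ α m * y * S.e β = S.eps χ α m * (S.e α * y * S.e β) := by
    rw [← mul_assoc, ← mul_assoc, S.eps_mul_e]
  obtain ⟨r, f, h2⟩ := S.corner_form α β hα hβ y
  rw [h1, h2, mul_add, Finset.mul_sum]
  refine Submodule.add_mem _ ?_ (Submodule.sum_mem _ fun τ _ => ?_)
  · by_cases h : α = β
    · rw [if_pos h, mul_smul_comm, S.eps_mul_e]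
      refine Submodule.smul_mem _ _ (Submodule.subset_span ⟨0, by rw [sg_zero, mul_one, h], ?_⟩)
      rw [eps, h]
    · rw [if_neg h, mul_zero]; exact Submodule.zero_mem _
  · rw [mul_smul_comm]
    exact Submodule.smul_mem _ _ (S.eps_mul_D χ hχ α β τ m hα hβ hm)

/-- `eps α m * y * eps β m` is in the span of the `J m j` -/
lemma eps_sand_mem (α β : F) (m : ZMod S.c) (hα : α * α = 1) (hβ : β * β = 1)
    (hm : m ≠ 0) (y : MonoidAlgebra k G) : S.eps χ α m * y * S.eps χ β m ∈ Submodule.span k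
      {x | ∃ j : ℤ, β = α * sg F j ∧ x = S.J χ α β m j} := by
  have h1 : S.eps χ α m * y * S.eps χ β m = (S.eps χ α m * y * S.e β) * S.eps χ β m := by
    rw [mul_assoc (S.eps χ α m * y), S.e_mul_eps]
  rw [h1]
  have h2 := S.eps_mul_mul_e χ hχ α β m hα hβ hm y
  refine Submodule.span_induction (p := fun x _ => x * S.eps χ β m ∈ Submodule.span k
      {x | ∃ j : ℤ, β = α * sg F j ∧ x = S.J χ α β m j}) ?_ ?_ ?_ ?_ h2
  · rintro x ⟨j, hj, rfl⟩
    rw [S.J_mul_eps χ hχ α β m m j hα hj hm, if_pos (Or.inl rfl)]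
    exact Submodule.subset_span ⟨j, hj, rfl⟩
  · rw [zero_mul]; exact Submodule.zero_mem _
  · intro x y _ _ hx hy
    rw [add_mul]; exact Submodule.add_mem _ hx hy
  · intro a x _ hx
    rw [smul_mul_assoc]; exact Submodule.smul_mem _ _ hx

/-- different blocks -/
lemma eps_sand_zero (α β : F) (m m' : ZMod S.c) (hα : α * α = 1) (hβ : β * β = 1)
    (hm : m ≠ 0) (hm' : m' ≠ 0) (h1 : m ≠ m') (h2 : m ≠ -m') (y : MonoidAlgebra k G) :
    S.eps χ α m * y * S.eps χ β m' = 0 := by
  have h3 : S.eps χ α m * y * S.eps χ β m' = (S.eps χ α m * y * S.e β) * S.eps χ β m' := by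
    rw [mul_assoc (S.eps χ α m * y), S.e_mul_eps]
  rw [h3]
  have h4 := S.eps_mul_mul_e χ hχ α β m hα hβ hm y
  refine Submodule.span_induction (p := fun x _ => x * S.eps χ β m' = 0) ?_ ?_ ?_ ?_ h4
  · rintro x ⟨j, hj, rfl⟩
    rw [S.J_mul_eps χ hχ α β m' m j hα hj hm', if_neg]
    rintro (h | h)
    · exact h1 h
    · exact h2 h
  · rw [zero_mul]
  · intro x y _ _ hx hy
    rw [add_mul, hx, hy, add_zero]
  · intro a x _ hx
    rw [smul_mul_assoc, hx, smul_zero]

omit hχ in
include S in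
lemma sg_eq_one_iff (j : ℤ) : sg F j = 1 ↔ Even j := by
  constructor
  · intro h
    by_contra hne
    rw [Int.not_even_iff_odd] at hne
    rw [sg_odd hne] at h
    have : (2 : F) = 0 := by linear_combination -h
    exact S.two_ne this
  · exact fun h => sg_even h

/-- the corner of `eps` -/
lemma eps_range (α : F) (m : ZMod S.c) (hα : α * α = 1) (hm : m ≠ 0) :
    LinearMap.range (sand (k := k) (S.eps χ α m) (S.eps χ α m)) =
      Submodule.span k (Set.range fun i : Fin 4 => S.J χ α α m (2 * (i : ℤ))) := by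
  have hα0 : α ≠ 0 := by rintro rfl; simp at hα
  apply le_antisymm
  · rintro _ ⟨y, rfl⟩
    rw [sand_apply]
    refine Submodule.span_le.2 ?_ (S.eps_sand_mem χ hχ α α m hα hα hm y)
    rintro x ⟨j, hj, rfl⟩
    have hj1 : sg F j = 1 := by
      have : α * (sg F j - 1) = 0 := by linear_combination -hj
      linear_combination (mul_eq_zero.1 this).resolve_left hα0
    rw [S.sg_eq_one_iff] at hj1
    obtain ⟨d, hd⟩ := hj1
    have h1 : j = 2 * (((d % 4).toNat : ℕ) : ℤ) + 8 * (d / 4) := by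
      rw [Int.toNat_of_nonneg (Int.emod_nonneg _ (by norm_num))]
      have := Int.emod_add_mul_ediv d 4
      omega
    rw [h1, J_add]
    apply Submodule.smul_mem
    apply Submodule.subset_span
    have h2 : (d % 4).toNat < 4 := by
      have := Int.emod_lt_of_pos d (show (0 : ℤ) < 4 by norm_num)
      omega
    exact ⟨⟨(d % 4).toNat, h2⟩, rfl⟩
  · rw [Submodule.span_le]
    rintro _ ⟨i, rfl⟩
    refine ⟨S.J χ α α m (2 * (i : ℤ)), ?_⟩
    have hs : α = α * sg F (2 * (i : ℤ)) := by rw [sg_even ⟨i, by ring⟩, mul_one]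
    rw [sand_apply, S.eps_mul_J χ hχ α α m m _ hα hs hm, if_pos (Or.inl rfl),
      S.J_mul_eps χ hχ α α m m _ hα hs hm, if_pos (Or.inl rfl)]

lemma J_linInd (α : F) (m : ZMod S.c) (hα : α * α = 1) (hm : m ≠ 0) :
    LinearIndependent k (fun i : Fin 4 => S.J χ α α m (2 * (i : ℤ))) := by
  rw [Fintype.linearIndependent_iff]
  intro g hg i0
  have h1 : ∀ i : Fin 4, tr (S.J χ α α m (2 * (i : ℤ)) * S.J χ α α m (-(2 * (i0 : ℤ)))) =
      if i = i0 then 1 else 0 := by
    intro i
    rw [S.J_mul_J χ hχ α α α _ _ m m hα (by rw [sg_even ⟨i, by ring⟩, mul_one])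
      (by rw [sg_even ⟨-i0, by ring⟩, mul_one]), if_pos rfl, if_neg (S.neg_ne_self hm), add_zero]
    by_cases h : i = i0
    · subst h
      rw [if_pos rfl, add_neg_cancel]
      exact S.tr_J_zero χ α α m
    · rw [if_neg h]
      apply S.tr_J_ne
      intro h2
      apply h
      apply Fin.ext
      have h3 := i.2
      have h4 := i0.2
      omega
  have h2 : tr ((∑ i : Fin 4, g i • S.J χ α α m (2 * (i : ℤ))) * S.J χ α α m (-(2 * (i0 : ℤ)))) =
      g i0 := by
    rw [Finset.sum_mul, tr_sum]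
    have : ∀ i : Fin 4, tr (g i • S.J χ α α m (2 * (i : ℤ)) * S.J χ α α m (-(2 * (i0 : ℤ)))) =
        if i = i0 then g i else 0 := by
      intro i
      rw [smul_mul_assoc, tr_smul, h1]
      split_ifs <;> simp
    rw [Finset.sum_congr rfl fun i _ => this i]
    simp
  rw [← h2, hg, zero_mul, tr_zero]

lemma eps_finrank (α : F) (m : ZMod S.c) (hα : α * α = 1) (hm : m ≠ 0) :
    Module.finrank k (LinearMap.range (sand (k := k) (S.eps χ α m) (S.eps χ α m))) = 4 := by
  rw [S.eps_range χ hχ α m hα hm, finrank_span_eq_card (S.J_linInd χ hχ α m hα hm),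
    Fintype.card_fin]


omit [DecidableEq F] hχ in
/-- squares of sums of commuting elements in characteristic two -/
lemma sum_sq_char_two {A ι : Type*} [Ring A] [Algebra k A] [DecidableEq ι] (s : Finset ι)
    (a : ι → k) (x : ι → A) (hx : ∀ i ∈ s, ∀ j ∈ s, x i * x j = x j * x i) :
    (∑ i ∈ s, a i • x i) * (∑ i ∈ s, a i • x i) = ∑ i ∈ s, (a i ^ 2) • (x i * x i) := by
  have hA : ∀ y : A, y + y = 0 := by
    intro y
    have : y + y = (2 : k) • y := by rw [two_smul]
    rw [this, CharTwo.two_eq_zero, zero_smul]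
  rw [Finset.sum_mul_sum, ← Finset.sum_product']
  rw [sum_fixed hA (s ×ˢ s) (fun p => (p.2, p.1)) (by simp; tauto) (by simp) _ ?_]
  · have : (s ×ˢ s).filter (fun p : ι × ι => (p.2, p.1) = p) = s.image (fun i => (i, i)) := by
      ext ⟨i, j⟩
      simp only [Finset.mem_filter, Finset.mem_product, Prod.mk.injEq, Finset.mem_image]
      constructor
      · rintro ⟨⟨h1, _⟩, h3, _⟩
        exact ⟨i, h1, rfl, h3.symm⟩
      · rintro ⟨l, h1, rfl, rfl⟩
        exact ⟨⟨h1, h1⟩, rfl, rfl⟩
    rw [this, Finset.sum_image (by intro i _ j _ h; simpa using h)]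
    refine Finset.sum_congr rfl fun i _ => ?_
    rw [smul_mul_smul_comm, sq]
  · rintro ⟨i, j⟩ hp
    rw [Finset.mem_product] at hp
    simp only
    rw [smul_mul_smul_comm, smul_mul_smul_comm, hx j hp.2 i hp.1, mul_comm (a j)]

omit [DecidableEq F] hχ in
/-- if `x^4` is a multiple of the idempotent `e` then `x` is a scalar plus nilpotent -/
lemma local_of_pow_four [IsAlgClosed k] {A : Type*} [Ring A] [Algebra k A] {e x : A} (he : e * e = e)
    (hex : e * x = x) (hxe : x * e = x) {l : k} (h : (x * x) * (x * x) = l • e) :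
    ∃ c : k, IsNilpotent (x - c • e) := by
  have hA : ∀ y : A, y + y = 0 := by
    intro y
    have : y + y = (2 : k) • y := by rw [two_smul]
    rw [this, CharTwo.two_eq_zero, zero_smul]
  obtain ⟨c, hc⟩ := IsAlgClosed.exists_pow_nat_eq l (n := 4) (by norm_num)
  refine ⟨c, 4, ?_⟩
  have h1 : (x - c • e) * (x - c • e) = x * x + (c ^ 2) • e := by
    have hneg : ∀ y : A, -y = y := fun y => by
      have := hA y
      exact (eq_neg_of_add_eq_zero_left this).symm
    have : x - c • e = x + c • e := by rw [sub_eq_add_neg, hneg]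
    rw [this, mul_add, add_mul, add_mul, smul_mul_assoc, mul_smul_comm, smul_mul_smul_comm, he,
      hex, hxe, sq]
    have h5 := hA (c • x)
    calc x * x + c • x + (c • x + (c * c) • e) = x * x + (c • x + c • x) + (c * c) • e := by abel
      _ = _ := by rw [h5, add_zero]
  have h2 : (x - c • e) ^ 4 = ((x - c • e) * (x - c • e)) * ((x - c • e) * (x - c • e)) := by
    noncomm_ring
  rw [h2, h1, mul_add, add_mul, add_mul, h, smul_mul_assoc, mul_smul_comm, smul_mul_smul_comm, he]
  have hexx : e * (x * x) = x * x := by rw [← mul_assoc, hex]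
  have hxxe : (x * x) * e = x * x := by rw [mul_assoc, hxe]
  rw [hexx, hxxe, ← hc]
  have h5 := hA ((c ^ 2) • (x * x))
  have h6 := hA ((c ^ 4) • e)
  have h7 : c ^ 2 * c ^ 2 = c ^ 4 := by ring
  rw [h7]
  calc c ^ 4 • e + c ^ 2 • (x * x) + (c ^ 2 • (x * x) + c ^ 4 • e) =
      (c ^ 4 • e + c ^ 4 • e) + (c ^ 2 • (x * x) + c ^ 2 • (x * x)) := by abel
    _ = 0 := by rw [h5, h6, add_zero]

/-- the corner of `eps` is local -/
lemma eps_local [IsAlgClosed k] (α : F) (m : ZMod S.c) (hα : α * α = 1) (hm : m ≠ 0)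
    (y : MonoidAlgebra k G) :
    ∃ c : k, IsNilpotent (S.eps χ α m * y * S.eps χ α m - c • S.eps χ α m) := by
  have h1 : S.eps χ α m * y * S.eps χ α m ∈
      Submodule.span k (Set.range fun i : Fin 4 => S.J χ α α m (2 * (i : ℤ))) := by
    rw [← S.eps_range χ hχ α m hα hm]
    exact ⟨y, by rw [sand_apply]⟩
  rw [Submodule.mem_span_range_iff_exists_fun] at h1
  obtain ⟨a, ha⟩ := h1
  have hmul : ∀ i j : ℤ, S.J χ α α m (2 * i) * S.J χ α α m (2 * j) =
      S.J χ α α m (2 * (i + j)) := by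
    intro i j
    rw [S.J_mul_J χ hχ α α α _ _ m m hα (by rw [sg_even ⟨i, by ring⟩, mul_one])
      (by rw [sg_even ⟨j, by ring⟩, mul_one]), if_pos rfl, if_neg (S.neg_ne_self hm), add_zero]
    congr 1
    ring
  have hee := S.eps_idem χ hχ α hα hm
  set x := S.eps χ α m * y * S.eps χ α m with hx
  have hex : S.eps χ α m * x = x := by
    rw [hx, ← mul_assoc, ← mul_assoc, hee]
  have hxe : x * S.eps χ α m = x := by
    rw [hx, mul_assoc, hee]
  have h2 : x * x = ∑ i : Fin 4, (a i ^ 2) • S.J χ α α m (2 * (2 * (i : ℤ))) := by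
    rw [← ha, sum_sq_char_two]
    · refine Finset.sum_congr rfl fun i _ => ?_
      rw [hmul]
      congr 2
      ring
    · intro i _ j _
      rw [hmul, hmul, add_comm]
  have h3 : (x * x) * (x * x) = (∑ i : Fin 4, (a i ^ 2) ^ 2 * χ (m * ((i : ℤ) : ZMod S.c))) •
      S.eps χ α m := by
    rw [h2, sum_sq_char_two]
    · rw [Finset.sum_smul]
      refine Finset.sum_congr rfl fun i _ => ?_
      rw [hmul]
      have h4 : 2 * (2 * (i : ℤ) + 2 * (i : ℤ)) = 0 + 8 * (i : ℤ) := by ring
      rw [h4, J_add, smul_smul]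
      rfl
    · intro i _ j _
      rw [hmul, hmul, add_comm]
  exact local_of_pow_four hee hex hxe h3

/-- the elements realising the equivalence of `eps α m` and `eps (-α) m` -/
lemma eps_equiv (α : F) (m : ZMod S.c) (hα : α * α = 1) (hm : m ≠ 0) :
    S.J χ α (-α) m 1 * S.J χ (-α) α m (-1) = S.eps χ α m := by
  have h1 : sg F 1 = -1 := sg_odd ⟨0, by ring⟩
  have h2 : sg F (-1) = -1 := sg_odd ⟨-1, by ring⟩
  rw [S.J_mul_J χ hχ α (-α) α 1 (-1) m m hα (by rw [h1]; ring) (by rw [h2]; ring), if_pos rfl,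
    if_neg (S.neg_ne_self hm), add_zero]
  rfl

end Setup
end Cartan76
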