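import Mathlib
import Pool.Agent.Cartan76.Eps

/-!
# The idempotents `om` belonging to the principal block
-/

set_option linter.unusedSectionVars false

open Finset Pool.Cartan73

namespace Cartan76
namespace Setup
variable {F k G : Type*} [Field F] [Fintype F] [DecidableEq F] [Field k] [CharP k 2] [Group G]
variable (S : Setup F k G)
variable (χ : AddChar (ZMod S.c) k)

/-- representatives of the nonzero elements modulo sign -/
def reps : Finset (ZMod S.c) := Finset.univ.filter fun m => m ≠ 0 ∧ 2 * m.val < S.c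

lemma mem_reps (m : ZMod S.c) : m ∈ S.reps ↔ m ≠ 0 ∧ 2 * m.val < S.c := by
  simp [reps]

lemma val_neg_add {m : ZMod S.c} (hm : m ≠ 0) : (-m).val + m.val = S.c := by
  have : NeZero m := ⟨hm⟩
  rw [ZMod.val_neg_of_ne_zero]
  have := ZMod.val_lt m
  omega

lemma reps_or {m : ZMod S.c} (hm : m ≠ 0) : m ∈ S.reps ∨ -m ∈ S.reps := by
  rw [mem_reps, mem_reps]
  have h1 := S.val_neg_add hm
  have h2 := S.hc
  by_cases h : 2 * m.val < S.c
  · exact Or.inl ⟨hm, h⟩
  · exact Or.inr ⟨neg_ne_zero.2 hm, by omega⟩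

lemma reps_not_both {m : ZMod S.c} (h1 : m ∈ S.reps) (h2 : -m ∈ S.reps) : False := by
  rw [mem_reps] at h1 h2
  have := S.val_neg_add h1.1
  omega

/-- exactly one representative -/
lemma reps_sum (m : ZMod S.c) (hm : m ≠ 0) (x : MonoidAlgebra k G) :
    ∑ m' ∈ S.reps, (if m = m' ∨ m = -m' then x else 0) = x := by
  rcases S.reps_or hm with h | h
  · rw [Finset.sum_eq_single m]
    · simp
    · intro m' hm' hne
      rw [if_neg]
      rintro (h1 | h1)
      · exact hne h1.symm
      · exact S.reps_not_both hm' (by rw [← h1]; exact h)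
    · intro h'; exact absurd h h'
  · rw [Finset.sum_eq_single (-m)]
    · simp
    · intro m' hm' hne
      rw [if_neg]
      rintro (h1 | h1)
      · exact S.reps_not_both hm' (by rw [← h1]; exact h)
      · exact hne (by rw [h1, neg_neg])
    · intro h'; exact absurd h h'

/-- The split part of the identity of the Gelfand-Graev algebra. -/
structure SpData (α : F) (s : MonoidAlgebra k G) : Prop where
  ss : s * s = s
  es : S.e α * s = s
  se : s * S.e α = s
  sJ : ∀ (β : F) (m : ZMod S.c) (j : ℤ), β = α * sg F j → s * S.J χ α β m j = 0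
  Js : ∀ (β : F) (m : ZMod S.c) (j : ℤ), β * β = 1 → α = β * sg F j → S.J χ β α m j * s = 0
  sD : ∀ τ r : F, r ≠ 0 → r ^ 2 = τ ^ 2 - 4 → ∃ l : k, S.D α α τ = s * S.D α α τ + l • S.z α
  sD' : ∀ τ r : F, r ≠ 0 → r ^ 2 = τ ^ 2 + 4 → S.D α (-α) τ = s * S.D α (-α) τ

/-- the remaining idempotent -/
noncomputable def om (α : F) (s : MonoidAlgebra k G) : MonoidAlgebra k G :=
  S.e α - ∑ m ∈ S.reps, S.eps χ α m - s

variable {S χ}
variable {α β : F} {s s' : MonoidAlgebra k G}
variable (hχ : χ.IsPrimitive) (hα : α * α = 1)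

section
variable (H : SpData S χ α s)
include hχ hα H

lemma om_mul_J (m : ZMod S.c) (j : ℤ) (hβ : β = α * sg F j) :
    S.om χ α s * S.J χ α β m j = if m = 0 then S.J χ α β m j else 0 := by
  unfold om
  rw [sub_mul, sub_mul, e_mul_J, H.sJ β m j hβ, sub_zero, Finset.sum_mul]
  have h1 : ∀ m' ∈ S.reps, S.eps χ α m' * S.J χ α β m j =
      if m = m' ∨ m = -m' then S.J χ α β m j else 0 := by
    intro m' hm'
    exact S.eps_mul_J χ hχ α β m' m j hα hβ ((S.mem_reps m').1 hm').1
  rw [Finset.sum_congr rfl h1]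
  by_cases hm : m = 0
  · rw [if_pos hm, Finset.sum_eq_zero, sub_zero]
    intro m' hm'
    have h2 := ((S.mem_reps m').1 hm').1
    rw [if_neg]
    rintro (h | h)
    · exact h2 (by rw [← h, hm])
    · exact h2 (by rw [← neg_eq_zero, ← h, hm])
  · rw [if_neg hm, S.reps_sum m hm, sub_self]

lemma J_mul_om (m : ZMod S.c) (j : ℤ) (hβ2 : β * β = 1) (hβ : α = β * sg F j) :
    S.J χ β α m j * S.om χ α s = if m = 0 then S.J χ β α m j else 0 := by
  unfold om
  rw [mul_sub, mul_sub, J_mul_e _ _ _ _ _ _ hβ, H.Js β m j hβ2 hβ, sub_zero, Finset.mul_sum]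
  have h1 : ∀ m' ∈ S.reps, S.J χ β α m j * S.eps χ α m' =
      if m = m' ∨ m = -m' then S.J χ β α m j else 0 := by
    intro m' hm'
    exact S.J_mul_eps χ hχ β α m' m j hβ2 hβ ((S.mem_reps m').1 hm').1
  rw [Finset.sum_congr rfl h1]
  by_cases hm : m = 0
  · rw [if_pos hm, Finset.sum_eq_zero, sub_zero]
    intro m' hm'
    have h2 := ((S.mem_reps m').1 hm').1
    rw [if_neg]
    rintro (h | h)
    · exact h2 (by rw [← h, hm])
    · exact h2 (by rw [← neg_eq_zero, ← h, hm])
  · rw [if_neg hm, S.reps_sum m hm, sub_self]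

omit hχ hα in
lemma om_mul_e : S.om χ α s * S.e α = S.om χ α s := by
  unfold om
  rw [sub_mul, sub_mul, e_idem, H.se, Finset.sum_mul]
  congr 2
  exact Finset.sum_congr rfl fun m _ => S.eps_mul_e χ α m

omit hχ hα in
lemma e_mul_om : S.e α * S.om χ α s = S.om χ α s := by
  unfold om
  rw [mul_sub, mul_sub, e_idem, H.es, Finset.mul_sum]
  congr 2
  exact Finset.sum_congr rfl fun m _ => S.e_mul_eps χ α m

omit hχ in
lemma om_mul_s : S.om χ α s * s = 0 := by
  unfold om
  rw [sub_mul, sub_mul, H.es, H.ss, Finset.sum_mul]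
  rw [Finset.sum_eq_zero, sub_zero, sub_self]
  intro m _
  exact H.Js α m 0 hα (by rw [sg_zero, mul_one])

omit hχ in
lemma s_mul_om : s * S.om χ α s = 0 := by
  unfold om
  rw [mul_sub, mul_sub, H.se, H.ss, Finset.mul_sum]
  rw [Finset.sum_eq_zero, sub_zero, sub_self]
  intro m _
  exact H.sJ α m 0 (by rw [sg_zero, mul_one])

lemma om_mul_eps {m : ZMod S.c} (hm : m ≠ 0) : S.om χ α s * S.eps χ α m = 0 := by
  unfold eps
  rw [om_mul_J hχ hα H m 0 (by rw [sg_zero, mul_one]), if_neg hm]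

lemma eps_mul_om {m : ZMod S.c} (hm : m ≠ 0) : S.eps χ α m * S.om χ α s = 0 := by
  unfold eps
  rw [J_mul_om hχ hα H m 0 hα (by rw [sg_zero, mul_one]), if_neg hm]

lemma om_idem : S.om χ α s * S.om χ α s = S.om χ α s := by
  nth_rewrite 2 [om]
  rw [mul_sub, mul_sub, om_mul_e H, om_mul_s hα H, sub_zero, Finset.mul_sum,
    Finset.sum_eq_zero, sub_zero]
  intro m hm
  exact om_mul_eps hχ hα H ((S.mem_reps m).1 hm).1

lemma om_mul_X (j : ℤ) (hβ : β = α * sg F j) :
    S.om χ α s * S.X α β j = S.J χ α β 0 j := by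
  rw [← S.sum_J χ hχ α β j, Finset.mul_sum]
  have h1 : ∀ m : ZMod S.c, S.om χ α s * S.J χ α β m j = if m = 0 then S.J χ α β m j else 0 :=
    fun m => om_mul_J hχ hα H m j hβ
  rw [Finset.sum_congr rfl fun m _ => h1 m]
  simp

/-- the set spanning `om * A * e β` -/
def omSet (S : Setup F k G) (χ : AddChar (ZMod S.c) k) (α β : F) (s : MonoidAlgebra k G) :
    Set (MonoidAlgebra k G) :=
  {x | ∃ j : ℤ, β = α * sg F j ∧ x = S.J χ α β 0 j} ∪ {x | α = β ∧ x = S.om χ α s}

lemma om_mul_D (hβ : β * β = 1) (τ : F) :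
    S.om χ α s * S.D α β τ ∈ Submodule.span k (omSet S χ α β s) := by
  rcases S.classify τ (α * β) (sign_prod hα hβ) with ⟨j, hj, rfl⟩ | ⟨r, hr0, hr⟩
  · have hβ' : β = α * sg F j := by rw [hj]; linear_combination (-β) * hα
    have h1 : S.D α β (S.tau j) = S.X α β j + if (8 * (S.c : ℤ)) ∣ j then S.e α else 0 := by
      unfold X
      rw [add_assoc, add_self, add_zero]
    rw [h1, mul_add, om_mul_X hχ hα H j hβ']
    refine Submodule.add_mem _ ?_ ?_
    · exact Submodule.subset_span (Or.inl ⟨j, hβ', rfl⟩)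
    · by_cases h : (8 * (S.c : ℤ)) ∣ j
      · rw [if_pos h, om_mul_e H]
        have hj1 : sg F j = 1 := sg_even (by
          obtain ⟨m, rfl⟩ := h
          exact ⟨4 * S.c * m, by ring⟩)
        exact Submodule.subset_span (Or.inr ⟨by rw [hβ', hj1, mul_one], rfl⟩)
      · rw [if_neg h, mul_zero]
        exact Submodule.zero_mem _
  · have h0 : ∑ m ∈ S.reps, S.eps χ α m * S.D α β τ = 0 := by
      refine Finset.sum_eq_zero fun m _ => ?_
      exact S.J_mul_D_split χ α α β τ r m 0 hα (by rw [sg_zero, mul_one]) hβ hr0 hr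
    have h1 : S.om χ α s * S.D α β τ = S.D α β τ - s * S.D α β τ := by
      unfold om
      rw [sub_mul, sub_mul, Finset.sum_mul, h0, sub_zero, e_mul_D]
    rw [h1]
    rcases sign_prod hα hβ with h2 | h2
    · have h3 : β = α := by linear_combination α * h2 - β * hα
      subst h3
      obtain ⟨l, hl⟩ := H.sD τ r hr0 (by rw [hr, h2]; ring)
      have h4 : S.D β β τ - s * S.D β β τ = l • S.z β := by
        rw [sub_eq_iff_eq_add, add_comm]; exact hl
      rw [h4]
      apply Submodule.smul_mem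
      apply Submodule.subset_span
      left
      refine ⟨0, by rw [sg_zero, mul_one], ?_⟩
      rw [J_zero_zero, z]
    · have h3 : β = -α := by linear_combination α * h2 - β * hα
      subst h3
      have h4 := H.sD' τ r hr0 (by rw [hr, h2]; ring)
      rw [← h4, sub_self]
      exact Submodule.zero_mem _

lemma om_mul_mul_e (hβ : β * β = 1) (y : MonoidAlgebra k G) :
    S.om χ α s * y * S.e β ∈ Submodule.span k (omSet S χ α β s) := by
  have h1 : S.om χ α s * y * S.e β = S.om χ α s * (S.e α * y * S.e β) := by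
    rw [← mul_assoc, ← mul_assoc, om_mul_e H]
  obtain ⟨r, f, h2⟩ := S.corner_form α β hα hβ y
  rw [h1, h2, mul_add, Finset.mul_sum]
  refine Submodule.add_mem _ ?_ (Submodule.sum_mem _ fun τ _ => ?_)
  · by_cases h : α = β
    · rw [if_pos h, mul_smul_comm, om_mul_e H]
      exact Submodule.smul_mem _ _ (Submodule.subset_span (Or.inr ⟨h, rfl⟩))
    · rw [if_neg h, mul_zero]; exact Submodule.zero_mem _
  · rw [mul_smul_comm]
    exact Submodule.smul_mem _ _ (om_mul_D hχ hα H hβ τ)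

/-- `om α * A * eps β m = 0` -/
lemma om_sand_eps (hβ : β * β = 1) {m : ZMod S.c} (hm : m ≠ 0) (y : MonoidAlgebra k G) :
    S.om χ α s * y * S.eps χ β m = 0 := by
  have h3 : S.om χ α s * y * S.eps χ β m = (S.om χ α s * y * S.e β) * S.eps χ β m := by
    rw [mul_assoc (S.om χ α s * y), S.e_mul_eps]
  rw [h3]
  have h4 := om_mul_mul_e hχ hα H hβ y
  refine Submodule.span_induction (p := fun x _ => x * S.eps χ β m = 0) ?_ ?_ ?_ ?_ h4
  · rintro x (⟨j, hj, rfl⟩ | ⟨rfl, rfl⟩)
    · rw [S.J_mul_eps χ hχ α β m 0 j hα hj hm, if_neg]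
      rintro (h | h)
      · exact hm h.symm
      · exact hm (by rw [← neg_eq_zero, ← h])
    · exact om_mul_eps hχ hα H hm
  · rw [zero_mul]
  · intro x y _ _ hx hy
    rw [add_mul, hx, hy, add_zero]
  · intro a x _ hx
    rw [smul_mul_assoc, hx, smul_zero]

end

/-- `eps β m * A * om α = 0` -/
lemma eps_sand_om (hχ : χ.IsPrimitive) (hα : α * α = 1) (H : SpData S χ α s) (hβ : β * β = 1)
    {m : ZMod S.c} (hm : m ≠ 0) (y : MonoidAlgebra k G) :
    S.eps χ β m * y * S.om χ α s = 0 := by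
  have h3 : S.eps χ β m * y * S.om χ α s = (S.eps χ β m * y * S.e α) * S.om χ α s := by
    rw [mul_assoc (S.eps χ β m * y), e_mul_om H]
  rw [h3]
  have h4 := S.eps_mul_mul_e χ hχ β α m hβ hα hm y
  refine Submodule.span_induction (p := fun x _ => x * S.om χ α s = 0) ?_ ?_ ?_ ?_ h4
  · rintro x ⟨j, hj, rfl⟩
    rw [J_mul_om hχ hα H m j hβ hj, if_neg hm]
  · rw [zero_mul]
  · intro x y _ _ hx hy
    rw [add_mul, hx, hy, add_zero]
  · intro a x _ hx
    rw [smul_mul_assoc, hx, smul_zero]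

end Setup
end Cartan76
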