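import Mathlib
import Pool.Agent.Cartan76.Om

/-!
# The corners of `om`
-/

set_option linter.unusedSectionVars false

open Finset Pool.Cartan73

namespace Cartan76
namespace Setup
variable {F k G : Type*} [Field F] [Fintype F] [DecidableEq F] [Field k] [CharP k 2] [Group G]
variable {S : Setup F k G}
variable {χ : AddChar (ZMod S.c) k}
variable {α β : F} {s s' : MonoidAlgebra k G}

lemma J_zero_neg (α β : F) (j : ℤ) : S.J χ α β 0 (-j) = S.J χ α β 0 j := by
  have := S.J_neg χ α β 0 j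
  rwa [neg_zero] at this

lemma J_zero_add (α β : F) (j n : ℤ) : S.J χ α β 0 (j + 8 * n) = S.J χ α β 0 j := by
  rw [J_add, zero_mul, AddChar.map_zero_eq_one, one_smul]

/-- the classes of even indices -/
lemma J_zero_even (α β : F) {j : ℤ} (hj : Even j) : S.J χ α β 0 j = S.J χ α β 0 0 ∨
    S.J χ α β 0 j = S.J χ α β 0 2 ∨ S.J χ α β 0 j = 0 := by
  obtain ⟨d, hd⟩ := hj
  have h0 := Int.emod_add_mul_ediv d 4
  have h1 := Int.emod_nonneg d (show (4 : ℤ) ≠ 0 by norm_num)
  have h2 := Int.emod_lt_of_pos d (show (0 : ℤ) < 4 by norm_num)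
  have h3 : j = 2 * (d % 4) + 8 * (d / 4) := by omega
  rw [h3, J_zero_add]
  have h4 : d % 4 = 0 ∨ d % 4 = 1 ∨ d % 4 = 2 ∨ d % 4 = 3 := by omega
  rcases h4 with h | h | h | h
  · left; rw [h, mul_zero]
  · right; left; rw [h, mul_one]
  · right; right; rw [h]; exact S.J_zero_four χ α β
  · right; left
    rw [h, ← J_zero_neg]
    have h5 : (-(2 * 3) : ℤ) = 2 + 8 * (-1) := by norm_num
    rw [h5, J_zero_add]

/-- the classes of odd indices -/
lemma J_zero_odd (α β : F) {j : ℤ} (hj : Odd j) : S.J χ α β 0 j = S.J χ α β 0 1 ∨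
    S.J χ α β 0 j = S.J χ α β 0 3 := by
  obtain ⟨d, hd⟩ := hj
  have h0 := Int.emod_add_mul_ediv d 4
  have h1 := Int.emod_nonneg d (show (4 : ℤ) ≠ 0 by norm_num)
  have h2 := Int.emod_lt_of_pos d (show (0 : ℤ) < 4 by norm_num)
  have h3 : j = (2 * (d % 4) + 1) + 8 * (d / 4) := by omega
  rw [h3, J_zero_add]
  have h4 : d % 4 = 0 ∨ d % 4 = 1 ∨ d % 4 = 2 ∨ d % 4 = 3 := by omega
  rcases h4 with h | h | h | h
  · left; rw [h, mul_zero, zero_add]
  · right; rw [h]; norm_num
  · right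
    rw [h, ← J_zero_neg]
    have h5 : (-(2 * 2 + 1) : ℤ) = 3 + 8 * (-1) := by norm_num
    rw [h5, J_zero_add]
  · left
    rw [h, ← J_zero_neg]
    have h5 : (-(2 * 3 + 1) : ℤ) = 1 + 8 * (-1) := by norm_num
    rw [h5, J_zero_add]

section
variable (hχ : χ.IsPrimitive) (hα : α * α = 1)
include hχ hα

lemma J0_mul_J0 (β γ : F) (j l : ℤ) (hβ : β = α * sg F j) (hγ : γ = β * sg F l) :
    S.J χ α β 0 j * S.J χ β γ 0 l = S.J χ α γ 0 (j + l) + S.J χ α γ 0 (j - l) := by
  rw [S.J_mul_J χ hχ α β γ j l 0 0 hα hβ hγ, if_pos rfl, if_pos neg_zero.symm]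

lemma mm : S.J χ α α 0 2 * S.J χ α α 0 2 = S.J χ α α 0 0 := by
  have h2 : sg F 2 = 1 := sg_even ⟨1, by ring⟩
  rw [J0_mul_J0 hχ hα α α 2 2 (by rw [h2, mul_one]) (by rw [h2, mul_one])]
  have : (2 : ℤ) + 2 = 4 := by norm_num
  rw [this, J_zero_four, sub_self, zero_add]

lemma mz : S.J χ α α 0 2 * S.J χ α α 0 0 = 0 := by
  have h2 : sg F 2 = 1 := sg_even ⟨1, by ring⟩
  rw [J0_mul_J0 hχ hα α α 2 0 (by rw [h2, mul_one]) (by rw [sg_zero, mul_one])]
  rw [add_zero, sub_zero, add_self]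

lemma zm : S.J χ α α 0 0 * S.J χ α α 0 2 = 0 := by
  have h2 : sg F 2 = 1 := sg_even ⟨1, by ring⟩
  rw [J0_mul_J0 hχ hα α α 0 2 (by rw [sg_zero, mul_one]) (by rw [h2, mul_one])]
  rw [zero_add, zero_sub, J_zero_neg, add_self]

lemma zz : S.J χ α α 0 0 * S.J χ α α 0 0 = 0 := by
  rw [J0_mul_J0 hχ hα α α 0 0 (by rw [sg_zero, mul_one]) (by rw [sg_zero, mul_one])]
  rw [add_zero, sub_zero, add_self]

omit hχ hα in
lemma z_ne : S.J χ α α 0 0 ≠ 0 := by
  intro h
  have := S.tr_J_zero χ α α 0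
  rw [h, tr_zero] at this
  exact zero_ne_one this

/-- `m` and `z` are independent -/
lemma mz_indep (a b : k) (h : a • S.J χ α α 0 2 + b • S.J χ α α 0 0 = 0) : a = 0 ∧ b = 0 := by
  have h1 : a = 0 := by
    have h2 := congrArg (fun x => x * S.J χ α α 0 2) h
    simp only [add_mul, smul_mul_assoc, zero_mul] at h2
    rw [mm hχ hα, zm hχ hα, smul_zero, add_zero] at h2
    exact (smul_eq_zero.1 h2).resolve_right z_ne
  refine ⟨h1, ?_⟩
  rw [h1, zero_smul, zero_add] at h
  exact (smul_eq_zero.1 h).resolve_right z_ne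

variable (H : SpData S χ α s)
include H

lemma om_mul_J0 (β : F) (j : ℤ) (hβ : β = α * sg F j) :
    S.om χ α s * S.J χ α β 0 j = S.J χ α β 0 j := by
  rw [om_mul_J hχ hα H 0 j hβ, if_pos rfl]

lemma J0_mul_om (β : F) (j : ℤ) (hβ2 : β * β = 1) (hβ : α = β * sg F j) :
    S.J χ β α 0 j * S.om χ α s = S.J χ β α 0 j := by
  rw [J_mul_om hχ hα H 0 j hβ2 hβ, if_pos rfl]

/-- spanning family of the corner of `om` -/
noncomputable def omFam (S : Setup F k G) (χ : AddChar (ZMod S.c) k) (α : F)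
    (s : MonoidAlgebra k G) : Fin 3 → MonoidAlgebra k G :=
  ![S.om χ α s, S.J χ α α 0 2, S.J χ α α 0 0]

lemma om_range : LinearMap.range (sand (k := k) (S.om χ α s) (S.om χ α s)) =
    Submodule.span k (Set.range (omFam S χ α s)) := by
  have hα0 : α ≠ 0 := by rintro rfl; simp at hα
  have h2 : sg F 2 = 1 := sg_even ⟨1, by ring⟩
  have hom := om_idem hχ hα H
  apply le_antisymm
  · rintro _ ⟨y, rfl⟩
    rw [sand_apply]
    have h3 : S.om χ α s * y * S.om χ α s = (S.om χ α s * y * S.e α) * S.om χ α s := by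
      rw [mul_assoc (S.om χ α s * y), e_mul_om H]
    rw [h3]
    have h4 := om_mul_mul_e hχ hα H hα y
    refine Submodule.span_induction (p := fun x _ => x * S.om χ α s ∈
      Submodule.span k (Set.range (omFam S χ α s))) ?_ ?_ ?_ ?_ h4
    · rintro x (⟨j, hj, rfl⟩ | ⟨-, rfl⟩)
      · have hj1 : sg F j = 1 := by
          have : α * (sg F j - 1) = 0 := by linear_combination -hj
          linear_combination (mul_eq_zero.1 this).resolve_left hα0
        rw [J0_mul_om hχ hα H α j hα hj]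
        rw [S.sg_eq_one_iff] at hj1
        rcases J_zero_even (S := S) (χ := χ) α α hj1 with h | h | h
        · rw [h]; exact Submodule.subset_span ⟨2, rfl⟩
        · rw [h]; exact Submodule.subset_span ⟨1, rfl⟩
        · rw [h]; exact Submodule.zero_mem _
      · rw [hom]
        exact Submodule.subset_span ⟨0, rfl⟩
    · rw [zero_mul]; exact Submodule.zero_mem _
    · intro x y _ _ hx hy
      rw [add_mul]; exact Submodule.add_mem _ hx hy
    · intro a x _ hx
      rw [smul_mul_assoc]; exact Submodule.smul_mem _ _ hx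
  · rw [Submodule.span_le]
    rintro _ ⟨i, rfl⟩
    fin_cases i
    · exact ⟨S.om χ α s, by rw [sand_apply, hom, hom]; rfl⟩
    · refine ⟨S.J χ α α 0 2, ?_⟩
      rw [sand_apply, om_mul_J0 hχ hα H α 2 (by rw [h2, mul_one]),
        J0_mul_om hχ hα H α 2 hα (by rw [h2, mul_one])]
      rfl
    · refine ⟨S.J χ α α 0 0, ?_⟩
      rw [sand_apply, om_mul_J0 hχ hα H α 0 (by rw [sg_zero, mul_one]),
        J0_mul_om hχ hα H α 0 hα (by rw [sg_zero, mul_one])]
      rfl

lemma om_linInd : LinearIndependent k (omFam S χ α s) := by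
  rw [Fintype.linearIndependent_iff]
  intro g hg
  rw [Fin.sum_univ_three] at hg
  have h0 : omFam S χ α s 0 = S.om χ α s := rfl
  have h1 : omFam S χ α s 1 = S.J χ α α 0 2 := rfl
  have h2 : omFam S χ α s 2 = S.J χ α α 0 0 := rfl
  rw [h0, h1, h2] at hg
  have hg0 : g 0 = 0 := by
    have h3 := congrArg (fun x => x * S.J χ α α 0 0) hg
    simp only [add_mul, smul_mul_assoc, zero_mul] at h3
    rw [om_mul_J0 hχ hα H α 0 (by rw [sg_zero, mul_one]), mz hχ hα, zz hχ hα, smul_zero,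
      smul_zero, add_zero, add_zero] at h3
    exact (smul_eq_zero.1 h3).resolve_right z_ne
  rw [hg0, zero_smul, zero_add] at hg
  obtain ⟨hg1, hg2⟩ := mz_indep hχ hα _ _ hg
  intro i
  fin_cases i
  · exact hg0
  · exact hg1
  · exact hg2

theorem om_finrank :
    Module.finrank k (LinearMap.range (sand (k := k) (S.om χ α s) (S.om χ α s))) = 3 := by
  rw [om_range hχ hα H, finrank_span_eq_card (om_linInd hχ hα H), Fintype.card_fin]

theorem om_ne : S.om χ α s ≠ 0 := (om_linInd hχ hα H).ne_zero 0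

theorem om_local [IsAlgClosed k] (y : MonoidAlgebra k G) :
    ∃ c : k, IsNilpotent (S.om χ α s * y * S.om χ α s - c • S.om χ α s) := by
  have h1 : S.om χ α s * y * S.om χ α s ∈ Submodule.span k (Set.range (omFam S χ α s)) := by
    rw [← om_range hχ hα H]
    exact ⟨y, by rw [sand_apply]⟩
  rw [Submodule.mem_span_range_iff_exists_fun] at h1
  obtain ⟨a, ha⟩ := h1
  have h2 : sg F 2 = 1 := sg_even ⟨1, by ring⟩
  have hee := om_idem hχ hα H
  have e1 : S.om χ α s * S.J χ α α 0 2 = S.J χ α α 0 2 :=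
    om_mul_J0 hχ hα H α 2 (by rw [h2, mul_one])
  have e2 : S.J χ α α 0 2 * S.om χ α s = S.J χ α α 0 2 :=
    J0_mul_om hχ hα H α 2 hα (by rw [h2, mul_one])
  have e3 : S.om χ α s * S.J χ α α 0 0 = S.J χ α α 0 0 :=
    om_mul_J0 hχ hα H α 0 (by rw [sg_zero, mul_one])
  have e4 : S.J χ α α 0 0 * S.om χ α s = S.J χ α α 0 0 :=
    J0_mul_om hχ hα H α 0 hα (by rw [sg_zero, mul_one])
  set x := S.om χ α s * y * S.om χ α s with hx
  have hex : S.om χ α s * x = x := by
    rw [hx, ← mul_assoc, ← mul_assoc, hee]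
  have hxe : x * S.om χ α s = x := by
    rw [hx, mul_assoc, hee]
  have hcomm : ∀ i j : Fin 3, omFam S χ α s i * omFam S χ α s j =
      omFam S χ α s j * omFam S χ α s i := by
    have f0 : omFam S χ α s 0 = S.om χ α s := rfl
    have f1 : omFam S χ α s 1 = S.J χ α α 0 2 := rfl
    have f2 : omFam S χ α s 2 = S.J χ α α 0 0 := rfl
    have hmz := mz (S := S) (χ := χ) hχ hα
    have hzm := zm (S := S) (χ := χ) hχ hα
    intro i j
    fin_cases i <;> fin_cases j <;> simp [f0, f1, f2, e1, e2, e3, e4, hmz, hzm]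
  have h3 : x * x = (a 0 ^ 2) • S.om χ α s + (a 1 ^ 2) • S.J χ α α 0 0 := by
    rw [← ha, sum_sq_char_two _ _ _ (fun i _ j _ => hcomm i j), Fin.sum_univ_three]
    have f0 : omFam S χ α s 0 = S.om χ α s := rfl
    have f1 : omFam S χ α s 1 = S.J χ α α 0 2 := rfl
    have f2 : omFam S χ α s 2 = S.J χ α α 0 0 := rfl
    rw [f0, f1, f2, hee, mm hχ hα, zz hχ hα, smul_zero, add_zero]
  have h4 : (x * x) * (x * x) = ((a 0 ^ 2) * (a 0 ^ 2)) • S.om χ α s := by
    rw [h3, mul_add, add_mul, add_mul, smul_mul_smul_comm, smul_mul_smul_comm, smul_mul_smul_comm,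
      smul_mul_smul_comm, hee, e3, e4, zz hχ hα, smul_zero, add_zero, mul_comm (a 1 ^ 2), add_assoc,
      add_self, add_zero]
  exact local_of_pow_four hee hex hxe h4

end

/-! ### the corner between `om α` and `om (-α)` -/

section
variable (hχ : χ.IsPrimitive) (hα : α * α = 1) (H : SpData S χ α s) (H' : SpData S χ (-α) s')
include hχ hα H H'

theorem om_range' : LinearMap.range (sand (k := k) (S.om χ α s) (S.om χ (-α) s')) =
    Submodule.span k (Set.range ![S.J χ α (-α) 0 1, S.J χ α (-α) 0 3]) := by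
  have hα0 : α ≠ 0 := by rintro rfl; simp at hα
  have hα' : (-α) * (-α) = 1 := by linear_combination hα
  have h1 : sg F 1 = -1 := sg_odd ⟨0, by ring⟩
  have h3 : sg F 3 = -1 := sg_odd ⟨1, by ring⟩
  have hne : α ≠ -α := by
    intro h
    have : 2 * α = 0 := by linear_combination h
    exact (mul_ne_zero S.two_ne hα0) this
  apply le_antisymm
  · rintro _ ⟨y, rfl⟩
    rw [sand_apply]
    have h3 : S.om χ α s * y * S.om χ (-α) s' = (S.om χ α s * y * S.e (-α)) * S.om χ (-α) s' := by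
      rw [mul_assoc (S.om χ α s * y), e_mul_om H']
    rw [h3]
    have h4 := om_mul_mul_e hχ hα H hα' y
    refine Submodule.span_induction (p := fun x _ => x * S.om χ (-α) s' ∈
      Submodule.span k (Set.range ![S.J χ α (-α) 0 1, S.J χ α (-α) 0 3])) ?_ ?_ ?_ ?_ h4
    · rintro x (⟨j, hj, rfl⟩ | ⟨h, rfl⟩)
      · have hj1 : sg F j = -1 := by
          have : α * (sg F j + 1) = 0 := by linear_combination -hj
          linear_combination (mul_eq_zero.1 this).resolve_left hα0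
        have hodd : Odd j := by
          rw [← Int.not_even_iff_odd, ← S.sg_eq_one_iff, hj1]
          intro h
          have : (2 : F) = 0 := by linear_combination -h
          exact S.two_ne this
        rw [J0_mul_om hχ hα' H' α j hα hj]
        rcases J_zero_odd (S := S) (χ := χ) α (-α) hodd with h | h
        · rw [h]; exact Submodule.subset_span ⟨0, rfl⟩
        · rw [h]; exact Submodule.subset_span ⟨1, rfl⟩
      · exact absurd h hne
    · rw [zero_mul]; exact Submodule.zero_mem _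
    · intro x y _ _ hx hy
      rw [add_mul]; exact Submodule.add_mem _ hx hy
    · intro a x _ hx
      rw [smul_mul_assoc]; exact Submodule.smul_mem _ _ hx
  · rw [Submodule.span_le]
    rintro _ ⟨i, rfl⟩
    fin_cases i
    · refine ⟨S.J χ α (-α) 0 1, ?_⟩
      rw [sand_apply, om_mul_J0 hχ hα H (-α) 1 (by rw [h1]; ring),
        J0_mul_om hχ hα' H' α 1 hα (by rw [h1]; ring)]
      rfl
    · refine ⟨S.J χ α (-α) 0 3, ?_⟩
      rw [sand_apply, om_mul_J0 hχ hα H (-α) 3 (by rw [h3]; ring),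
        J0_mul_om hχ hα' H' α 3 hα (by rw [h3]; ring)]
      rfl

omit H H' in
lemma om_linInd' : LinearIndependent k ![S.J χ α (-α) 0 1, S.J χ α (-α) 0 3] := by
  have h1 : sg F 1 = -1 := sg_odd ⟨0, by ring⟩
  have h3 : sg F 3 = -1 := sg_odd ⟨1, by ring⟩
  rw [Fintype.linearIndependent_iff]
  intro g hg
  rw [Fin.sum_univ_two] at hg
  have f0 : (![S.J χ α (-α) 0 1, S.J χ α (-α) 0 3] : Fin 2 → MonoidAlgebra k G) 0 =
    S.J χ α (-α) 0 1 := rfl
  have f1 : (![S.J χ α (-α) 0 1, S.J χ α (-α) 0 3] : Fin 2 → MonoidAlgebra k G) 1 =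
    S.J χ α (-α) 0 3 := rfl
  rw [f0, f1] at hg
  have h4 := congrArg (fun x => x * S.J χ (-α) α 0 1) hg
  simp only [add_mul, smul_mul_assoc, zero_mul] at h4
  rw [J0_mul_J0 hχ hα (-α) α 1 1 (by rw [h1]; ring) (by rw [h1]; ring),
    J0_mul_J0 hχ hα (-α) α 3 1 (by rw [h3]; ring) (by rw [h1]; ring)] at h4
  have n1 : (1 : ℤ) + 1 = 2 := by norm_num
  have n2 : (1 : ℤ) - 1 = 0 := by norm_num
  have n3 : (3 : ℤ) + 1 = 4 := by norm_num
  have n4 : (3 : ℤ) - 1 = 2 := by norm_num
  rw [n1, n2, n3, n4, J_zero_four, zero_add] at h4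
  have h5 : (g 0 + g 1) • S.J χ α α 0 2 + g 0 • S.J χ α α 0 0 = 0 := by
    rw [← h4, smul_add, add_smul]
    abel
  obtain ⟨h6, h7⟩ := mz_indep hχ hα _ _ h5
  rw [h7, zero_add] at h6
  intro i
  fin_cases i
  · exact h7
  · exact h6

theorem om_finrank' :
    Module.finrank k (LinearMap.range (sand (k := k) (S.om χ α s) (S.om χ (-α) s'))) = 2 := by
  rw [om_range' hχ hα H H', finrank_span_eq_card (om_linInd' hχ hα), Fintype.card_fin]

end

end Setup
end Cartan76
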